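import Pool.Agent.Lib.MP_0087d5_lc.NEGT.QFml

/-!
The final form of the average case theorem.
-/

set_option autoImplicit false

namespace Pool.Agent.NEGT

open Pool.Agent.NEG Pool.Agent.NEGS

section Slots

variable {J G : Type}

open Classical in
theorem card_slot_eq [Fintype G] (C : Circuit J G) :
    Fintype.card (Slot C) = Nat.card {p : Σ g, Fin (C.arity g) // ¬ C.Plain p.1} + 1 := by
  have e : {p : Σ g, Fin (C.arity g) // ¬ C.Plain p.1} ≃
      Σ s : {s // ¬ C.Plain s}, Fin (C.arity s) :=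
    Equiv.subtypeSigmaEquiv (fun g => Fin (C.arity g)) (fun g => ¬ C.Plain g)
  rw [Nat.card_congr e, Nat.card_eq_fintype_card, Fintype.card_option]

open Classical in
theorem sum_wires [Fintype G] (C : Circuit J G) (rk : G → ℕ) (r : ℕ) (hr : ∀ g, rk g < r) :
    Nat.card {p : Σ g, Fin (C.arity g) // ¬ C.Plain p.1} =
      ∑ j ∈ Finset.range r, wires C rk j := by
  have h1 : Nat.card {p : Σ g, Fin (C.arity g) // ¬ C.Plain p.1} =
      (Finset.univ.filter (fun p : Σ g, Fin (C.arity g) => ¬ C.Plain p.1)).card := by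
    rw [Nat.card_eq_fintype_card, Fintype.card_subtype]
  have h2 : ∀ j, wires C rk j = ((Finset.univ.filter (fun p : Σ g, Fin (C.arity g) =>
      ¬ C.Plain p.1)).filter (fun p => rk p.1 = j)).card := by
    intro j
    unfold wires
    rw [Nat.card_eq_fintype_card, Fintype.card_subtype, Finset.filter_filter]
  rw [h1]
  simp only [h2]
  apply Finset.card_eq_sum_card_fiberwise
  intro p _
  rw [Finset.mem_coe, Finset.mem_range]
  exact hr p.1

end Slots

section Graph

variable {n : ℕ} {G : Type}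

open Classical in
theorem adj_gr (x : Fin n × Fin n → Bool) :
    (fun e : Fin (2 * n) × Fin (2 * n) => decide ((gr x).Adj e.1 e.2)) =
      pull (sig n) x := by
  funext e
  rw [Bool.eq_iff_iff, decide_eq_true_eq, pull_sig]
  rfl

theorem tells_gr (C : Circuit (Fin (2 * n) × Fin (2 * n)) G) (x y : Fin n × Fin n → Bool) :
    TellsApart C (gr x) (gr y) ↔ Differs C (pull (sig n) x) (pull (sig n) y) := by
  unfold TellsApart Differs
  rw [adj_gr, adj_gr]
  push Not
  rfl

theorem gr_mono {x y : Fin n × Fin n → Bool} (h : ∀ e, x e = true → y e = true) :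
    gr x ≤ gr y := by
  intro a b hab
  obtain ⟨p, hp, hx⟩ := hab
  exact ⟨p, hp, h p hx⟩

end Graph

open Classical in
/-- **the average case theorem** -/
theorem final_B : ∃ K : ℕ, ∀ n s : ℕ, 1 ≤ n →
    ∃ (M : ℕ) (P N : Fin M → SimpleGraph (Fin (2 * n))), 1 ≤ M ∧
      (∀ i, N i ≤ P i ∧ (∀ a b, (P i).Adj a b → ((a : ℕ) < n ↔ n ≤ (b : ℕ))) ∧
        (∃ F : (P i).Subgraph, F.IsPerfectMatching) ∧
        ¬ ∃ F : (N i).Subgraph, F.IsPerfectMatching) ∧
      ∀ (G : Type) [Finite G] (C : Circuit (Fin (2 * n) × Fin (2 * n)) G),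
        (∃ d, C.DepthLE d) → Nat.card G ≤ s → ∀ w : ℕ, Weight C w →
        n ^ 2 * {i | TellsApart C (P i) (N i)}.ncard ≤
          K * w * (Nat.log 2 (s + n) + 1) ^ 32 * M := by
  obtain ⟨a, ha⟩ : ∃ a : ℕ, a = 2 ^ 38 := ⟨_, rfl⟩
  refine ⟨11520 * a ^ 32, fun n s hn1 => ?_⟩
  set l0 : ℕ := Nat.log 2 (s + n) + 1 with hl0d
  have hl0 : 1 ≤ l0 := by omega
  have hs : s + n < 2 ^ l0 := Nat.lt_pow_succ_log_self (by norm_num) (s + n)
  have ha1 : 1 ≤ a := by
    rw [ha]
    exact Nat.one_le_two_pow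
  have hw1 : ∀ (G : Type) (C : Circuit (Fin (2 * n) × Fin (2 * n)) G) (w : ℕ), Weight C w →
      1 ≤ w := by
    intro G C w hw
    rcases hw with ⟨t, m, _, _, rfl⟩ | ⟨r, rk, _, _, rfl⟩ | ⟨_, rfl⟩
    · omega
    · exact Nat.one_le_iff_ne_zero.mpr (Finset.prod_ne_zero_iff.mpr (fun j _ => by omega))
    · omega
  rcases Nat.lt_or_ge n (4 * ((2 ^ 38 * l0) ^ 8) ^ 2) with hsmall | hlarge
  · -- small graphs
    refine ⟨1, fun _ => gr (fun _ => true), fun _ => gr (fun _ => false), le_rfl, ?_, ?_⟩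
    · intro i
      refine ⟨gr_mono (fun _ _ => rfl), fun a b h => gr_bip _ a b h, ?_, ?_⟩
      · exact (gr_pm _).mp ⟨1, fun _ => rfl⟩
      · intro h
        obtain ⟨σ, hσ⟩ := (gr_pm _).mpr h
        exact absurd (hσ ⟨0, hn1⟩) Bool.false_ne_true
    · intro G _ C _ _ w hw
      have h1 : ∀ Z : Set (Fin 1), Z.ncard ≤ 1 := by
        intro Z
        refine (Set.ncard_le_ncard (Set.subset_univ _) (Set.toFinite _)).trans ?_
        rw [Set.ncard_univ, Nat.card_eq_fintype_card, Fintype.card_fin]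
      have h2 := hw1 G C w hw
      rw [← ha] at hsmall
      refine (Nat.mul_le_mul (Nat.pow_le_pow_left hsmall.le 2) (h1 _)).trans ?_
      calc (4 * ((a * l0) ^ 8) ^ 2) ^ 2 * 1 = 16 * a ^ 32 * l0 ^ 32 := by ring
        _ ≤ 11520 * a ^ 32 * w * l0 ^ 32 * 1 := by
            rw [Nat.mul_one]
            refine Nat.mul_le_mul_right _ ?_
            calc 16 * a ^ 32 ≤ 11520 * a ^ 32 := Nat.mul_le_mul_right _ (by norm_num)
              _ = 11520 * a ^ 32 * 1 := (Nat.mul_one _).symm
              _ ≤ 11520 * a ^ 32 * w := Nat.mul_le_mul_left _ h2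
  · -- large graphs
    obtain ⟨Ix, _, _, P, N, hNP, hP, hN, hmain⟩ := core_big hl0 hs hlarge
    let e : Fin (Fintype.card Ix) ≃ Ix := (Fintype.equivFin Ix).symm
    refine ⟨Fintype.card Ix, fun i => gr (P (e i)), fun i => gr (N (e i)), Fintype.card_pos,
      fun i => ⟨gr_mono (hNP (e i)), fun a b h => gr_bip _ a b h, (gr_pm _).mp (hP (e i)),
        fun h => hN (e i) ((gr_pm _).mpr h)⟩, ?_⟩
    intro G _ C hC hcard w hw
    have hG : Fintype G := Fintype.ofFinite G
    rw [Nat.card_eq_fintype_card] at hcard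
    -- the number of pairs
    have hcount : ∀ D : Circuit (Fin (2 * n) × Fin (2 * n)) G,
        (∀ x y, Differs D x y ↔ Differs C x y) →
        {i | TellsApart C (gr (P (e i))) (gr (N (e i)))}.ncard =
        (Finset.univ.filter (fun i : Ix => Differs D (pull (sig n) (P i))
          (pull (sig n) (N i)))).card := by
      intro D hD
      rw [← Set.ncard_coe_finset]
      have h3 : ((Finset.univ.filter (fun i : Ix => Differs D (pull (sig n) (P i))
          (pull (sig n) (N i)))) : Set Ix) =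
          e '' {i | TellsApart C (gr (P (e i))) (gr (N (e i)))} := by
        ext p
        simp only [Finset.coe_filter, Finset.mem_univ, true_and, Set.mem_ofPred_eq,
          Set.mem_image, hD]
        constructor
        · intro h
          exact ⟨e.symm p, by rw [tells_gr]; simpa using h, by simp⟩
        · rintro ⟨i, hi, rfl⟩
          exact (tells_gr C _ _).mp hi
      rw [h3, Set.ncard_image_of_injective _ e.injective]
    have htriv : {i | TellsApart C (gr (P (e i))) (gr (N (e i)))}.ncard ≤ Fintype.card Ix := by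
      refine (Set.ncard_le_ncard (Set.subset_univ _) (Set.toFinite _)).trans ?_
      rw [Set.ncard_univ, Nat.card_eq_fintype_card, Fintype.card_fin]
    have hl0pos : 1 ≤ l0 ^ 32 := Nat.one_le_pow _ _ hl0
    have ha32 : 1 ≤ a ^ 32 := Nat.one_le_pow _ _ ha1
    have hlpos : (0 : ℝ) < ((2 ^ 38 * l0 : ℕ) : ℝ) := by
      have : 0 < 2 ^ 38 * l0 := Nat.mul_pos (by positivity) hl0
      exact_mod_cast this
    have hθ1 : 37 / ((2 ^ 38 * l0 : ℕ) : ℝ) ≤ 1 := by
      rw [div_le_one hlpos]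
      have h1 : 37 ≤ 2 ^ 38 * l0 := by
        calc 37 ≤ 2 ^ 38 * 1 := by norm_num
          _ ≤ 2 ^ 38 * l0 := Nat.mul_le_mul_left _ hl0
      exact_mod_cast h1
    have hθk : ((2 * l0 : ℕ) : ℝ) * (37 / ((2 ^ 38 * l0 : ℕ) : ℝ)) ≤ 1 := by
      rw [mul_div_assoc', div_le_one hlpos]
      have h1 : 2 * l0 * 37 ≤ 2 ^ 38 * l0 := by
        calc 2 * l0 * 37 = 74 * l0 := by ring
          _ ≤ 2 ^ 38 * l0 := Nat.mul_le_mul_right _ (by norm_num)
      exact_mod_cast h1
    -- the estimate
    have hend : ∀ (D : Circuit (Fin (2 * n) × Fin (2 * n)) G) (l : Lev D),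
        (∀ x y, Differs D x y ↔ Differs C x y) → ∀ c : ℕ,
        Quiet D l (37 / ((2 ^ 38 * l0 : ℕ) : ℝ)) (9 * (c : ℝ)) → Fintype.card (Slot D) ≤ c →
        c ≤ 18 * w → n ^ 2 * {i | TellsApart C (gr (P (e i))) (gr (N (e i)))}.ncard ≤
          11520 * a ^ 32 * w * l0 ^ 32 * Fintype.card Ix := by
      intro D l hD c hq hc hcw
      have h1 := hmain (Fin (2 * n) × Fin (2 * n)) G (sig n) D l hcard c hq hc
      rw [hcount D hD]
      refine h1.trans (Nat.mul_le_mul_right _ ?_)
      rw [← ha]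
      have h24 : a ^ 24 ≤ a ^ 32 := Nat.pow_le_pow_right ha1 (by norm_num)
      have h24' : l0 ^ 24 ≤ l0 ^ 32 := Nat.pow_le_pow_right hl0 (by norm_num)
      calc 640 * (a * l0) ^ 24 * c = 640 * (a ^ 24 * l0 ^ 24) * c := by rw [Nat.mul_pow]
        _ ≤ 640 * (a ^ 32 * l0 ^ 32) * (18 * w) :=
            Nat.mul_le_mul (Nat.mul_le_mul_left _ (Nat.mul_le_mul h24 h24')) hcw
        _ = 11520 * a ^ 32 * w * l0 ^ 32 := by ring
    obtain ⟨d, lev, hlev1, hlev2⟩ := hC
    let l : Lev C := ⟨lev, d, fun g => (hlev1 g).2, hlev2⟩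
    rcases hw with ⟨t, m, ht, hm, rfl⟩ | ⟨r, rk, hrk, hr, rfl⟩ | ⟨hF, rfl⟩
    · -- few gates
      refine hend C l (fun _ _ => Iff.rfl) (m * 2 ^ t + 1) (quiet_total C l t m ht hm hθ1) ?_
        (by omega)
      refine (card_slot C m hm).trans (Nat.add_le_add_right (Nat.mul_le_mul_left _ ?_) 1)
      exact ht.trans (Nat.lt_two_pow_self).le
    · -- ranks
      rcases Nat.lt_or_ge (2 * l0) ((Finset.range r).filter (fun j => wires C rk j ≠ 0)).card
        with hk | hk
      · -- many ranks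
        have h1 := prod_large (fun j => wires C rk j) r
        have h2 : n ^ 2 ≤ ∏ j ∈ Finset.range r, (wires C rk j + 1) := by
          calc n ^ 2 ≤ (2 ^ l0) ^ 2 := Nat.pow_le_pow_left (by omega) 2
            _ = 2 ^ (2 * l0) := by rw [← pow_mul, Nat.mul_comm]
            _ ≤ 2 ^ ((Finset.range r).filter (fun j => wires C rk j ≠ 0)).card :=
                Nat.pow_le_pow_right (by norm_num) hk.le
            _ ≤ _ := h1
        refine Nat.mul_le_mul ?_ htriv
        calc n ^ 2 ≤ ∏ j ∈ Finset.range r, (wires C rk j + 1) := h2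
          _ = 1 * (∏ j ∈ Finset.range r, (wires C rk j + 1)) * 1 := by ring
          _ ≤ 11520 * a ^ 32 * (∏ j ∈ Finset.range r, (wires C rk j + 1)) * l0 ^ 32 :=
              Nat.mul_le_mul (Nat.mul_le_mul_right _ (by omega)) hl0pos
      · refine hend C l (fun _ _ => Iff.rfl) _
          (quiet_rank C l rk hrk r hr (2 * l0) hk hθ1 hθk) ?_ (by omega)
        rw [card_slot_eq, sum_wires C rk r hr]
        exact sum_le_prod (fun j => wires C rk j) r
    · -- formulas
      obtain ⟨lev', hlev1', hlev2'⟩ := padded_depth C d ⟨lev, hlev1, hlev2⟩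
      let l' : Lev (padded C) := ⟨lev', d, fun g => (hlev1' g).2, hlev2'⟩
      have hW : Fintype.card (Σ s : {s // ¬ C.Plain s}, Fin (C.arity s)) =
          Nat.card {p : Σ g, Fin (C.arity g) // ¬ C.Plain p.1} := by
        have e : {p : Σ g, Fin (C.arity g) // ¬ C.Plain p.1} ≃
            Σ s : {s // ¬ C.Plain s}, Fin (C.arity s) :=
          Equiv.subtypeSigmaEquiv (fun g => Fin (C.arity g)) (fun g => ¬ C.Plain g)
        rw [Nat.card_congr e, Nat.card_eq_fintype_card]
      refine hend (padded C) l' (differs_padded C)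
        (18 * Nat.card {p : Σ g, Fin (C.arity g) // ¬ C.Plain p.1} + 1)
        (quiet_formula C hF l' _ hW.le hθ1) ?_ (by omega)
      rw [Fintype.card_option]
      have h1 := card_sp_padded C hF
      omega

end Pool.Agent.NEGT
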