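import Pool.Agent.Lib.MP_0087d5_lc.NEGT.CountT

/-!
Circuits with few special gates have the same output on almost all pairs of a positive and a
negative input.
-/

set_option autoImplicit false

namespace Pool.Agent.NEGT

open Pool.Agent.NEG Pool.Agent.NEGS Pool.Agent.NEGV

section General

variable {I G : Type}

/-- the outputs of the circuit at the two inputs are different -/
def Differs (C : Circuit I G) (x y : I → Bool) : Prop :=
  ¬ ∀ v w, C.Consistent x v → C.Consistent y w → v C.out = w C.out

theorem consistent_unique (C : Circuit I G) (l : Lev C) {x : I → Bool} {v w : G → Bool}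
    (hv : C.Consistent x v) (hw : C.Consistent x w) : v = w := by
  have key : ∀ n : ℕ, ∀ g, l.lev g ≤ n → v g = w g := by
    intro n
    induction n with
    | zero =>
        intro g hg
        rw [hv g, hw g]
        congr 1
        funext i
        cases h : C.src g i with
        | inl a => cases a <;> rfl
        | inr g' =>
            have := l.lt g i g' h
            omega
    | succ n ih =>
        intro g hg
        rw [hv g, hw g]
        congr 1
        funext i
        cases h : C.src g i with
        | inl a => cases a <;> rfl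
        | inr g' =>
            have := l.lt g i g' h
            exact ih g' (by omega)
  funext g
  exact key l.top g (l.le_top g)

theorem sum_le_prod (a : ℕ → ℕ) (r : ℕ) :
    ∑ j ∈ Finset.range r, a j + 1 ≤ ∏ j ∈ Finset.range r, (a j + 1) := by
  induction r with
  | zero => simp
  | succ r ih =>
      rw [Finset.sum_range_succ, Finset.prod_range_succ]
      have h1 : 1 ≤ ∏ j ∈ Finset.range r, (a j + 1) :=
        Nat.one_le_iff_ne_zero.mpr (Finset.prod_ne_zero_iff.mpr (fun j _ => by omega))
      calc ∑ j ∈ Finset.range r, a j + a r + 1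
          = (∑ j ∈ Finset.range r, a j + 1) + a r * 1 := by ring
        _ ≤ (∏ j ∈ Finset.range r, (a j + 1)) + a r * ∏ j ∈ Finset.range r, (a j + 1) :=
            Nat.add_le_add ih (Nat.mul_le_mul_left _ h1)
        _ = (∏ j ∈ Finset.range r, (a j + 1)) * (a r + 1) := by ring

open Classical in
theorem card_slot [Fintype G] (C : Circuit I G) (m : ℕ)
    (hm : ∀ g, ¬ C.Plain g → C.arity g ≤ m) :
    Fintype.card (Slot C) ≤ m * {g | ¬ C.Plain g}.ncard + 1 := by
  rw [Fintype.card_option, Fintype.card_sigma]
  apply Nat.add_le_add_right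
  calc (∑ s : {s // ¬ C.Plain s}, Fintype.card (Fin (C.arity s)))
      ≤ ∑ _s : {s // ¬ C.Plain s}, m := by
        refine Finset.sum_le_sum (fun s _ => ?_)
        rw [Fintype.card_fin]
        exact hm s s.2
    _ = m * {g | ¬ C.Plain g}.ncard := by
        rw [Finset.sum_const, Finset.card_univ, smul_eq_mul, Nat.mul_comm]
        congr 1
        rw [← Nat.card_eq_fintype_card]
        rfl

open Classical in
theorem special_sum [Fintype G] (C : Circuit I G) (rk : G → ℕ) (r : ℕ) (hr : ∀ g, rk g < r) :
    {g | ¬ C.Plain g}.ncard = ∑ j ∈ Finset.range r, prof C rk j := by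
  have h1 : {g | ¬ C.Plain g}.ncard = (Finset.univ.filter (fun g => ¬ C.Plain g)).card := by
    rw [← Set.ncard_coe_finset]
    congr 1
    ext g
    simp
  have h2 : ∀ j, prof C rk j =
      ((Finset.univ.filter (fun g => ¬ C.Plain g)).filter (fun g => rk g = j)).card := by
    intro j
    unfold prof
    rw [← Set.ncard_coe_finset]
    congr 1
    ext g
    simp
  rw [h1]
  simp only [h2]
  apply Finset.card_eq_sum_card_fiberwise
  intro g _
  rw [Finset.mem_coe, Finset.mem_range]
  exact hr g

end General

section Average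

variable {E L q : ℕ} {𝒜 : Set ((Fin q × Fin q → Bool) → Prop)} {G : Type}

open Classical in
/-- the number of bad pairs of a block and matchings of the other blocks -/
theorem bad_pairs (bad : ℕ → (Fin L → Equiv.Perm (Fin q)) → Prop) (b : ℕ)
    (hb : ∀ t, ((Finset.range L).filter (fun k => bad k t)).card ≤ b) :
    ∑ j : Fin L, (Finset.univ.filter (fun t : Fin L → Equiv.Perm (Fin q) =>
      q.factorial < 2 * (Finset.univ.filter (fun s : Equiv.Perm (Fin q) =>
        bad j (Function.update t j s))).card)).card ≤
      2 * b * Fintype.card (Fin L → Equiv.Perm (Fin q)) := by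
  let J : Fin L → ℕ := fun j => (Finset.univ.filter
    (fun t : Fin L → Equiv.Perm (Fin q) => bad j t)).card
  have hsum : ∑ j, J j ≤ b * Fintype.card (Fin L → Equiv.Perm (Fin q)) := by
    calc ∑ j, J j = ∑ j : Fin L, ∑ t : Fin L → Equiv.Perm (Fin q),
          (if bad j t then 1 else 0) := by
          refine Finset.sum_congr rfl (fun j _ => ?_)
          simp only [J, Finset.card_filter]
      _ = ∑ t : Fin L → Equiv.Perm (Fin q), ∑ j : Fin L,
          (if bad j t then 1 else 0) := Finset.sum_comm
      _ ≤ ∑ _t : Fin L → Equiv.Perm (Fin q), b := by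
          refine Finset.sum_le_sum (fun t _ => ?_)
          rw [← Finset.card_filter]
          refine le_trans ?_ (hb t)
          apply Finset.card_le_card_of_injOn (fun j : Fin L => (j : ℕ))
          · intro j hj
            rw [Finset.mem_coe, Finset.mem_filter] at hj ⊢
            exact ⟨Finset.mem_range.mpr j.2, hj.2⟩
          · intro a _ c _ h
            exact Fin.ext h
      _ = b * Fintype.card (Fin L → Equiv.Perm (Fin q)) := by
          rw [Finset.sum_const, Finset.card_univ, smul_eq_mul, Nat.mul_comm]
  have hone : ∀ j : Fin L, (Finset.univ.filter (fun t : Fin L → Equiv.Perm (Fin q) =>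
      q.factorial < 2 * (Finset.univ.filter (fun s : Equiv.Perm (Fin q) =>
        bad j (Function.update t j s))).card)).card ≤ 2 * J j := by
    intro j
    let A : (Fin L → Equiv.Perm (Fin q)) → ℕ := fun t => (Finset.univ.filter
      (fun s : Equiv.Perm (Fin q) => bad j (Function.update t j s))).card
    have hinv : Function.Involutive (fun p : (Fin L → Equiv.Perm (Fin q)) × Equiv.Perm (Fin q) =>
        (Function.update p.1 j p.2, p.1 j)) := by
      intro p
      simp
    have hA : ∑ t, A t = q.factorial * J j := by
      calc ∑ t, A t = ∑ t : Fin L → Equiv.Perm (Fin q), ∑ s : Equiv.Perm (Fin q),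
            (if bad j (Function.update t j s) then 1 else 0) := by
            refine Finset.sum_congr rfl (fun t _ => ?_)
            simp only [A, Finset.card_filter]
        _ = ∑ t : Fin L → Equiv.Perm (Fin q), ∑ _s : Equiv.Perm (Fin q),
            (if bad j t then 1 else 0) := by
            rw [← Fintype.sum_prod_type' (f := fun t s =>
                if bad j (Function.update t j s) then 1 else 0),
              ← Fintype.sum_prod_type' (f := fun (t : Fin L → Equiv.Perm (Fin q))
                (_ : Equiv.Perm (Fin q)) => if bad j t then 1 else 0)]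
            exact Equiv.sum_comp hinv.toPerm (fun p : (Fin L → Equiv.Perm (Fin q)) ×
              Equiv.Perm (Fin q) => if bad j p.1 then 1 else 0)
        _ = q.factorial * J j := by
            simp only [J, Finset.card_filter, Finset.sum_const, Finset.card_univ,
              Fintype.card_perm, Fintype.card_fin, smul_eq_mul]
            rw [Finset.mul_sum]
    have h1 : (Finset.univ.filter (fun t : Fin L → Equiv.Perm (Fin q) =>
        q.factorial < 2 * A t)).card * q.factorial ≤ 2 * (q.factorial * J j) := by
      calc (Finset.univ.filter (fun t : Fin L → Equiv.Perm (Fin q) =>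
            q.factorial < 2 * A t)).card * q.factorial
          = ∑ _t ∈ Finset.univ.filter (fun t : Fin L → Equiv.Perm (Fin q) =>
            q.factorial < 2 * A t), q.factorial := by
            rw [Finset.sum_const, smul_eq_mul]
        _ ≤ ∑ t ∈ Finset.univ.filter (fun t : Fin L → Equiv.Perm (Fin q) =>
            q.factorial < 2 * A t), 2 * A t := by
            refine Finset.sum_le_sum (fun t ht => ?_)
            exact ((Finset.mem_filter.mp ht).2).le
        _ ≤ ∑ t, 2 * A t := Finset.sum_le_sum_of_subset (Finset.subset_univ _)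
        _ = 2 * (q.factorial * J j) := by rw [← Finset.mul_sum, hA]
    have h2 : 2 * (q.factorial * J j) = (2 * J j) * q.factorial := by ring
    rw [h2] at h1
    exact Nat.le_of_mul_le_mul_right h1 (Nat.factorial_pos q)
  calc ∑ j : Fin L, (Finset.univ.filter (fun t : Fin L → Equiv.Perm (Fin q) =>
      q.factorial < 2 * (Finset.univ.filter (fun s : Equiv.Perm (Fin q) =>
        bad j (Function.update t j s))).card)).card
      ≤ ∑ j : Fin L, 2 * J j := Finset.sum_le_sum (fun j _ => hone j)
    _ = 2 * ∑ j, J j := by rw [Finset.mul_sum]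
    _ ≤ 2 * (b * Fintype.card (Fin L → Equiv.Perm (Fin q))) := Nat.mul_le_mul_left _ hsum
    _ = 2 * b * Fintype.card (Fin L → Equiv.Perm (Fin q)) := by ring

/-- the colourings of a block with an odd number of vertices of colour one -/
abbrev OddCol (q : ℕ) : Type := {c : Fin q ⊕ Fin q → Bool // par c = 1}

/-- the pairs -/
abbrev PairIdx (L q : ℕ) : Type := Fin L × (Fin L → Equiv.Perm (Fin q)) × OddCol q

/-- the positive input of a pair -/
def posIn (p : PairIdx L q) : Fin L × (Fin q × Fin q) → Bool :=
  pl (sbG p.1 p.2.1) (fun _ => true)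

/-- the negative input of a pair -/
def negIn (p : PairIdx L q) : Fin L × (Fin q × Fin q) → Bool :=
  pl (sbG p.1 p.2.1) (yin p.2.2.1)

open Classical in
theorem avg_count (h𝒜 : IsApp E q 𝒜) (hq : 0 < q) (hLE : L ≤ 2 ^ (3 * E)) [Fintype G]
    (C : Circuit (Fin L × (Fin q × Fin q)) G) (l : Lev C) (hcard : Fintype.card G ≤ 2 ^ E)
    (b : ℕ) (hb : ∀ X : ℕ → Fin L × (Fin q × Fin q) → Bool,
      (∀ k i, X k i = true → X (k + 1) i = true) → ∀ v : ℕ → G → Bool,
      (∀ k, C.Consistent (X k) (v k)) → ((Finset.range L).filter (fun k =>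
        Moves C (X k) (X (k + 1)) (v k) (v (k + 1)))).card ≤ b) :
    L * (Finset.univ.filter (fun p : PairIdx L q => Differs C (posIn p) (negIn p))).card ≤
      (2 * b + 2 * Fintype.card (Slot C)) * Fintype.card (PairIdx L q) := by
  have hex : ∀ x, ∃ v, C.Consistent x v := fun x =>
    exists_consistent C l.lev l.top l.le_top l.lt x
  choose vv hvv using hex
  let bad : ℕ → (Fin L → Equiv.Perm (Fin q)) → Prop := fun k t =>
    Moves C (WG k t) (WG (k + 1) t) (vv (WG k t)) (vv (WG (k + 1) t))
  have hbad := bad_pairs bad b (fun t => hb (fun k => WG k t)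
    (fun k i h => WG_mono_le (Nat.le_succ k) t i h) (fun k => vv (WG k t)) (fun k => hvv _))
  -- the odd colourings
  have hodd : 2 * Fintype.card (OddCol q) = 2 ^ (2 * q) := by
    rw [Fintype.card_subtype]
    exact card_odd hq
  -- the number of seen colourings for a block and matchings of the others
  let d : Fin L → (Fin L → Equiv.Perm (Fin q)) → ℕ := fun j t =>
    (Finset.univ.filter (fun c : OddCol q => Differs C (pl (sbG j t) (fun _ => true))
      (pl (sbG j t) (yin c.1)))).card
  let ng : Fin L → (Fin L → Equiv.Perm (Fin q)) → Prop := fun j t =>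
    q.factorial < 2 * (Finset.univ.filter (fun s : Equiv.Perm (Fin q) =>
      bad j (Function.update t j s))).card
  have hd : ∀ j t, 2 ^ (3 * E) * d j t ≤
      (if ng j t then 1 else 0) * (2 ^ (3 * E) * Fintype.card (OddCol q)) +
        2 * Fintype.card (Slot C) * Fintype.card (OddCol q) := by
    intro j t
    by_cases hng : ng j t
    · rw [if_pos hng, Nat.one_mul]
      refine le_trans (Nat.mul_le_mul_left _ ?_) (Nat.le_add_right _ _)
      exact (Finset.card_filter_le _ _).trans (le_of_eq Finset.card_univ)
    · rw [if_neg hng, Nat.zero_mul, Nat.zero_add]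
      have hgood : 2 * (Finset.univ.filter (fun s : Equiv.Perm (Fin q) =>
          Moves C (pl (sbG j t) (xin s)) (pl (sbG j t) (fun _ => true))
            (vv (pl (sbG j t) (xin s))) (vv (pl (sbG j t) (fun _ => true))))).card ≤
          q.factorial := by
        have h1 := not_lt.mp hng
        refine le_trans (le_of_eq ?_) h1
        congr 2
        apply Finset.filter_congr
        intro s _
        simp only [bad]
        rw [pl_sbG_perm, pl_sbG_one, WG_update]
      have h1 := local_avg h𝒜 C l hcard vv hvv j t hgood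
      have h2 : d j t ≤ (Finset.univ.filter (fun c : Fin q ⊕ Fin q → Bool =>
          vv (pl (sbG j t) (yin c)) C.out ≠ vv (pl (sbG j t) (fun _ => true)) C.out)).card := by
        apply Finset.card_le_card_of_injOn (fun c : OddCol q => c.1)
        · intro c hc
          rw [Finset.mem_coe, Finset.mem_filter] at hc ⊢
          refine ⟨Finset.mem_univ _, fun heq => hc.2 (fun v w hv hw => ?_)⟩
          rw [consistent_unique C l hv (hvv _), consistent_unique C l hw (hvv _)]
          exact heq.symm
        · intro a _ c _ h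
          exact Subtype.ext h
      calc 2 ^ (3 * E) * d j t ≤ _ := Nat.mul_le_mul_left _ h2
        _ ≤ Fintype.card (Slot C) * 2 ^ (2 * q) := h1
        _ = 2 * Fintype.card (Slot C) * Fintype.card (OddCol q) := by
            rw [← hodd]
            ring
  have hD : (Finset.univ.filter (fun p : PairIdx L q => Differs C (posIn p) (negIn p))).card =
      ∑ j : Fin L, ∑ t : Fin L → Equiv.Perm (Fin q), d j t := by
    rw [Finset.card_filter, Fintype.sum_prod_type]
    refine Finset.sum_congr rfl (fun j _ => ?_)
    rw [Fintype.sum_prod_type]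
    refine Finset.sum_congr rfl (fun t _ => ?_)
    simp only [d, Finset.card_filter]
    rfl
  have hM : Fintype.card (PairIdx L q) =
      L * (Fintype.card (Fin L → Equiv.Perm (Fin q)) * Fintype.card (OddCol q)) := by
    rw [Fintype.card_prod, Fintype.card_prod, Fintype.card_fin]
  set o : ℕ := Fintype.card (OddCol q) with ho
  set T : ℕ := Fintype.card (Fin L → Equiv.Perm (Fin q)) with hT
  set w : ℕ := Fintype.card (Slot C) with hw
  have hsum : 2 ^ (3 * E) * ∑ j : Fin L, ∑ t : Fin L → Equiv.Perm (Fin q), d j t ≤
      2 * b * T * (2 ^ (3 * E) * o) + L * (T * (2 * w * o)) := by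
    calc 2 ^ (3 * E) * ∑ j : Fin L, ∑ t : Fin L → Equiv.Perm (Fin q), d j t
        = ∑ j : Fin L, ∑ t : Fin L → Equiv.Perm (Fin q), 2 ^ (3 * E) * d j t := by
          rw [Finset.mul_sum]
          refine Finset.sum_congr rfl (fun j _ => ?_)
          rw [Finset.mul_sum]
      _ ≤ ∑ j : Fin L, ∑ t : Fin L → Equiv.Perm (Fin q),
          ((if ng j t then 1 else 0) * (2 ^ (3 * E) * o) + 2 * w * o) :=
          Finset.sum_le_sum (fun j _ => Finset.sum_le_sum (fun t _ => hd j t))
      _ = (∑ j : Fin L, (Finset.univ.filter (fun t => ng j t)).card) * (2 ^ (3 * E) * o) +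
          L * (T * (2 * w * o)) := by
          rw [Finset.sum_mul]
          have h1 : L * (T * (2 * w * o)) = ∑ _j : Fin L, T * (2 * w * o) := by
            rw [Finset.sum_const, Finset.card_univ, Fintype.card_fin, smul_eq_mul]
          rw [h1, ← Finset.sum_add_distrib]
          refine Finset.sum_congr rfl (fun j _ => ?_)
          rw [Finset.sum_add_distrib, ← Finset.sum_mul, ← Finset.card_filter, Finset.sum_const,
            Finset.card_univ, smul_eq_mul]
      _ ≤ 2 * b * T * (2 ^ (3 * E) * o) + L * (T * (2 * w * o)) :=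
          Nat.add_le_add_right (Nat.mul_le_mul_right _ hbad) _
  rw [hD, hM]
  have hE : 0 < 2 ^ (3 * E) := by positivity
  apply Nat.le_of_mul_le_mul_left _ hE
  calc 2 ^ (3 * E) * (L * ∑ j : Fin L, ∑ t : Fin L → Equiv.Perm (Fin q), d j t)
      = L * (2 ^ (3 * E) * ∑ j : Fin L, ∑ t : Fin L → Equiv.Perm (Fin q), d j t) := by ring
    _ ≤ L * (2 * b * T * (2 ^ (3 * E) * o) + L * (T * (2 * w * o))) :=
        Nat.mul_le_mul_left _ hsum
    _ = 2 ^ (3 * E) * (2 * b * (L * (T * o))) + L * (2 * w * (L * (T * o))) := by ring
    _ ≤ 2 ^ (3 * E) * (2 * b * (L * (T * o))) + 2 ^ (3 * E) * (2 * w * (L * (T * o))) :=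
        Nat.add_le_add_left (Nat.mul_le_mul_right _ hLE) _
    _ = 2 ^ (3 * E) * ((2 * b + 2 * w) * (L * (T * o))) := by ring

open Classical in
/-- **the average case theorem for canonical blocks** -/
theorem core_avg (h𝒜 : IsApp E q 𝒜) (hq : 0 < q) (hL : 0 < L) (hLE : L ≤ 2 ^ (3 * E)) :
    ∃ (M : ℕ) (P N : Fin M → (Fin L × (Fin q × Fin q) → Bool)), 0 < M ∧
      (∀ i e, N i e = true → P i e = true) ∧
      (∀ i k, BPM q (fun e => P i (k, e))) ∧ (∀ i, ∃ k, ¬ BPM q (fun e => N i (k, e))) ∧
      ∀ (G : Type) [Finite G] (C : Circuit (Fin L × (Fin q × Fin q)) G), (∃ d, C.DepthLE d) →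
        Nat.card G ≤ 2 ^ E → ∀ (t m r : ℕ) (ρ : G → ℕ), {g | ¬ C.Plain g}.ncard ≤ t →
        (∀ g, ¬ C.Plain g → C.arity g ≤ m) →
        (∀ g i g', C.src g i = Sum.inr g' → ρ g' ≤ ρ g ∧ (¬ C.Plain g → ρ g' < ρ g)) →
        (∀ g, ρ g < r) →
        L * {i | Differs C (P i) (N i)}.ncard ≤
          6 * min (m * 2 ^ t + 1)
            (∏ j ∈ Finset.range r, (m * {g | ¬ C.Plain g ∧ ρ g = j}.ncard + 1)) * M := by
  let e : Fin (Fintype.card (PairIdx L q)) ≃ PairIdx L q := (Fintype.equivFin _).symm
  refine ⟨Fintype.card (PairIdx L q), fun i => posIn (e i), fun i => negIn (e i), ?_, ?_, ?_,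
    ?_, ?_⟩
  · apply Fintype.card_pos_iff.mpr
    have h1 := card_odd hq
    have h2 : 0 < (Finset.univ.filter (fun c : Fin q ⊕ Fin q → Bool => par c = 1)).card := by
      by_contra hcon
      have h3 : (Finset.univ.filter (fun c : Fin q ⊕ Fin q → Bool => par c = 1)).card = 0 := by
        omega
      rw [h3, Nat.mul_zero] at h1
      have h4 : 0 < 2 ^ (2 * q) := by positivity
      omega
    obtain ⟨c, hc⟩ := Finset.card_pos.mp h2
    exact ⟨⟨⟨0, hL⟩, fun _ => Equiv.refl _, ⟨c, (Finset.mem_filter.mp hc).2⟩⟩⟩
  · intro i x hx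
    exact pl_mono _ (fun _ _ => rfl) x hx
  · intro i k
    refine ⟨(e i).2.1 k, fun a => ?_⟩
    change pl (sbG (e i).1 (e i).2.1) (fun _ => true) (k, (a, (e i).2.1 k a)) = true
    rw [pl_sbG_one]
    unfold WG
    simp
  · intro i
    refine ⟨(e i).1, fun h => odd_not_bpm (e i).2.2.1 (e i).2.2.2 ?_⟩
    obtain ⟨s, hs⟩ := h
    refine ⟨s, fun a => ?_⟩
    have h1 := hs a
    change pl (sbG (e i).1 (e i).2.1) (yin (e i).2.2.1) ((e i).1, (a, s a)) = true at h1
    unfold pl sbG at h1
    simpa using h1
  · intro G _ C hC hcard t m r ρ ht hm hρ hr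
    have : Fintype G := Fintype.ofFinite G
    rw [Nat.card_eq_fintype_card] at hcard
    obtain ⟨d, lev, hlev1, hlev2⟩ := hC
    let l : Lev C := ⟨lev, d, fun g => (hlev1 g).2, hlev2⟩
    have hprof : ∀ j, {g | ¬ C.Plain g ∧ ρ g = j}.ncard = prof C ρ j := fun j => rfl
    simp only [hprof]
    set c : ℕ := min (m * 2 ^ t + 1) (∏ j ∈ Finset.range r, (m * prof C ρ j + 1)) with hc
    have hb : ∀ X : ℕ → Fin L × (Fin q × Fin q) → Bool,
        (∀ k i, X k i = true → X (k + 1) i = true) → ∀ v : ℕ → G → Bool,
        (∀ k, C.Consistent (X k) (v k)) → ((Finset.range L).filter (fun k =>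
          Moves C (X k) (X (k + 1)) (v k) (v (k + 1)))).card ≤ 2 * c := by
      intro X hX v hv
      have h1 := count_total C l t m ht hm L X hX v hv
      have h2 := count_rank C l ρ hρ m hm L X hX v hv r hr
      rcases min_choice (m * 2 ^ t + 1) (∏ j ∈ Finset.range r, (m * prof C ρ j + 1)) with h | h
      · rw [hc, h]
        exact h1
      · rw [hc, h]
        exact h2
    have hw : Fintype.card (Slot C) ≤ c := by
      have h1 := card_slot C m hm
      refine le_min ?_ ?_
      · refine h1.trans (Nat.add_le_add_right (Nat.mul_le_mul_left _ ?_) 1)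
        exact ht.trans (Nat.lt_two_pow_self).le
      · refine h1.trans ?_
        rw [special_sum C ρ r hr, Finset.mul_sum]
        exact sum_le_prod (fun j => m * prof C ρ j) r
    have h1 := avg_count h𝒜 hq hLE C l hcard (2 * c) hb
    have h2 : {i | Differs C (posIn (e i)) (negIn (e i))}.ncard =
        (Finset.univ.filter (fun p : PairIdx L q => Differs C (posIn p) (negIn p))).card := by
      rw [← Set.ncard_coe_finset]
      have h3 : ((Finset.univ.filter (fun p : PairIdx L q =>
          Differs C (posIn p) (negIn p))) : Set (PairIdx L q)) =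
          e '' {i | Differs C (posIn (e i)) (negIn (e i))} := by
        ext p
        simp only [Finset.coe_filter, Finset.mem_univ, true_and, Set.mem_ofPred_eq,
          Set.mem_image]
        constructor
        · intro h
          exact ⟨e.symm p, by simpa using h, by simp⟩
        · rintro ⟨i, hi, rfl⟩
          exact hi
      rw [h3, Set.ncard_image_of_injective _ e.injective]
    rw [h2]
    refine h1.trans (Nat.mul_le_mul_right _ ?_)
    omega

end Average

end Pool.Agent.NEGT
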