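import Mathlib

/-!
The numbers.
-/

set_option autoImplicit false

namespace Pool.Agent.NEGT

/-- the number of phases and the number of blocks -/
theorem numbers {q n : ℕ} (hq : 8 ≤ q) (hn : 4 * q ^ 2 ≤ n) :
    0 < n / (4 * q ^ 2) ∧ 2 * (n / (4 * q ^ 2)) < n / (2 * q) ∧
      (n / (2 * q)) * q + ((n / (4 * q ^ 2)) * q) * q ≤ n ∧
      n ^ 2 ≤ 32 * q ^ 3 * ((n / (4 * q ^ 2)) * (n / (2 * q) - 2 * (n / (4 * q ^ 2)))) ∧
      (n / (4 * q ^ 2)) * (n / (2 * q) - 2 * (n / (4 * q ^ 2))) ≤ n ^ 2 ∧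
      (n / (4 * q ^ 2)) * (q + n / (2 * q) + 1) ≤ n ^ 2 := by
  have hq2 : 0 < 4 * q ^ 2 := by positivity
  have hqq : 0 < 2 * q := by omega
  set K : ℕ := n / (4 * q ^ 2) with hK
  set L : ℕ := n / (2 * q) with hL
  have h1 : 4 * q ^ 2 * K ≤ n := Nat.mul_div_le n _
  have h2 : n < 4 * q ^ 2 * (K + 1) := Nat.lt_mul_div_succ n hq2
  have h3 : 2 * q * L ≤ n := Nat.mul_div_le n _
  have h4 : n < 2 * q * (L + 1) := Nat.lt_mul_div_succ n hqq
  have hK0 : 0 < K := Nat.div_pos hn hq2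
  have e1 : 4 * q ^ 2 * K = 4 * (q * (q * K)) := by ring
  have e2 : 4 * q ^ 2 * (K + 1) = 4 * (q * (q * K)) + 4 * (q * q) := by ring
  have e3 : 2 * q * (L + 1) = 2 * (q * L) + 2 * q := by ring
  have e4 : 2 * q * L = 2 * (q * L) := by ring
  have e5 : 4 * q ^ 2 = 4 * (q * q) := by ring
  have h5 : 8 * (q * K) ≤ q * (q * K) := Nat.mul_le_mul_right _ hq
  have h6 : 8 * q ≤ q * q := Nat.mul_le_mul_right _ hq
  have h7 : 8 * K ≤ q * K := Nat.mul_le_mul_right _ hq
  have h8 : q * q ≤ q * (q * K) := Nat.mul_le_mul_left _ (Nat.le_mul_of_pos_right _ hK0)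
  have h9 : K ≤ q * K := Nat.le_mul_of_pos_left _ (by omega)
  have h10 : L ≤ q * L := Nat.le_mul_of_pos_left _ (by omega)
  have h11 : 2 * K < L := by
    by_contra hcon
    push Not at hcon
    have h12 : q * L ≤ q * (2 * K) := Nat.mul_le_mul_left _ hcon
    have e6 : q * (2 * K) = 2 * (q * K) := by ring
    omega
  have h12 : n ≤ 4 * q * (L - 2 * K) := by
    have e6 : 4 * q * (L - 2 * K) = 4 * (q * L) - 8 * (q * K) := by
      rw [Nat.mul_sub]
      congr 1
      · ring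
      · ring
    rw [e6]
    omega
  have h13 : n ≤ 8 * q ^ 2 * K := by
    have e7 : 8 * q ^ 2 * K = 8 * (q * (q * K)) := by ring
    omega
  refine ⟨hK0, h11, ?_, ?_, ?_, ?_⟩
  · have e8 : L * q = q * L := by ring
    have e9 : K * q * q = q * (q * K) := by ring
    omega
  · calc n ^ 2 = n * n := by ring
      _ ≤ (8 * q ^ 2 * K) * (4 * q * (L - 2 * K)) := Nat.mul_le_mul h13 h12
      _ = 32 * q ^ 3 * (K * (L - 2 * K)) := by ring
  · calc K * (L - 2 * K) ≤ n * n := Nat.mul_le_mul (by omega) (by omega)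
      _ = n ^ 2 := by ring
  · calc K * (q + L + 1) ≤ n * n := Nat.mul_le_mul (by omega) (by omega)
      _ = n ^ 2 := by ring

/-- the small error -/
theorem theta_bound {l0 s n g N : ℕ} (hl0 : 1 ≤ l0) (hs : s + n < 2 ^ l0) (hg : g ≤ s)
    (hN : N ≤ n ^ 2) :
    36 * (1 / ((2 ^ 38 * l0 : ℕ) : ℝ)) + 10 * ((g : ℝ) / 2 ^ (2 ^ 38 * l0)) * N ≤
      37 / ((2 ^ 38 * l0 : ℕ) : ℝ) := by
  set l : ℕ := 2 ^ 38 * l0 with hl
  have hl1 : 1 ≤ l := by
    rw [hl]
    exact Nat.mul_pos (by positivity) hl0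
  have hl1' : (0 : ℝ) < (l : ℝ) := by exact_mod_cast hl1
  have h1 : g * N ≤ 2 ^ (3 * l0) := by
    calc g * N ≤ 2 ^ l0 * (2 ^ l0) ^ 2 := Nat.mul_le_mul (by omega)
          (hN.trans (Nat.pow_le_pow_left (by omega) 2))
      _ = 2 ^ (3 * l0) := by rw [← pow_mul, ← pow_add]; congr 1; omega
  have h2 : l ≤ 2 ^ (38 + l0) := by
    rw [hl, pow_add]
    exact Nat.mul_le_mul_left _ Nat.lt_two_pow_self.le
  have h3 : 10 * (g * N) * l ≤ 2 ^ l := by
    calc 10 * (g * N) * l ≤ 2 ^ 4 * 2 ^ (3 * l0) * 2 ^ (38 + l0) :=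
          Nat.mul_le_mul (Nat.mul_le_mul (by norm_num) h1) h2
      _ = 2 ^ (42 + 4 * l0) := by rw [← pow_add, ← pow_add]; congr 1; omega
      _ ≤ 2 ^ l := Nat.pow_le_pow_right (by norm_num) (by
          rw [hl]
          have : 46 * l0 ≤ 2 ^ 38 * l0 := Nat.mul_le_mul_right _ (by norm_num)
          omega)
  have h4 : (10 * ((g : ℝ) * N)) * l ≤ 2 ^ l := by exact_mod_cast h3
  have h5 : 10 * ((g : ℝ) / 2 ^ l) * N ≤ 1 / (l : ℝ) := by
    rw [le_div_iff₀ hl1']
    have e : 10 * ((g : ℝ) / 2 ^ l) * N * l = (10 * ((g : ℝ) * N)) * l / 2 ^ l := by ring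
    rw [e, div_le_one (by positivity)]
    exact h4
  have e : (37 : ℝ) / l = 36 * (1 / (l : ℝ)) + 1 / l := by ring
  rw [e]
  linarith

/-- a product with slightly larger factors -/
theorem prod_theta {θ : ℝ} (hθ : 0 ≤ θ) (a : ℕ → ℕ) (r k : ℕ)
    (hk : ((Finset.range r).filter (fun j => a j ≠ 0)).card ≤ k) (hθk : k * θ ≤ 1) :
    ∏ j ∈ Finset.range r, ((1 + θ) * (a j : ℝ) + 1) ≤
      3 * ((∏ j ∈ Finset.range r, (a j + 1) : ℕ) : ℝ) := by
  have h1 : ∀ r : ℕ, ∏ j ∈ Finset.range r, ((1 + θ) * (a j : ℝ) + 1) ≤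
      (1 + θ) ^ ((Finset.range r).filter (fun j => a j ≠ 0)).card *
        ((∏ j ∈ Finset.range r, (a j + 1) : ℕ) : ℝ) := by
    intro r
    induction r with
    | zero => simp
    | succ r ih =>
        rw [Finset.prod_range_succ, Finset.prod_range_succ, Finset.range_add_one,
          Finset.filter_insert]
        have hP : (0 : ℝ) ≤ ((∏ j ∈ Finset.range r, (a j + 1) : ℕ) : ℝ) := Nat.cast_nonneg _
        by_cases h0 : a r ≠ 0
        · rw [if_pos h0, Finset.card_insert_of_notMem (by simp), pow_succ]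
          push_cast at ih hP ⊢
          have h2 : (1 + θ) * (a r : ℝ) + 1 ≤ (1 + θ) * ((a r : ℝ) + 1) := by
            have : (1 + θ) * ((a r : ℝ) + 1) = (1 + θ) * (a r : ℝ) + 1 + θ := by ring
            linarith
          calc (∏ j ∈ Finset.range r, ((1 + θ) * (a j : ℝ) + 1)) * ((1 + θ) * (a r : ℝ) + 1)
              ≤ ((1 + θ) ^ ((Finset.range r).filter (fun j => a j ≠ 0)).card *
                (∏ j ∈ Finset.range r, ((a j : ℝ) + 1))) * ((1 + θ) * ((a r : ℝ) + 1)) :=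
                mul_le_mul ih h2 (by positivity) (by positivity)
            _ = _ := by ring
        · rw [if_neg h0]
          push Not at h0
          rw [h0]
          push_cast at ih hP ⊢
          simp only [mul_zero, zero_add, mul_one]
          exact ih
  have h2 : (1 + θ) ^ ((Finset.range r).filter (fun j => a j ≠ 0)).card ≤ 3 := by
    set k' := ((Finset.range r).filter (fun j => a j ≠ 0)).card with hk'
    have h3 : (1 + θ) ^ k' ≤ Real.exp (k' * θ) := by
      rw [Real.exp_nat_mul]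
      apply pow_le_pow_left₀ (by linarith)
      have := Real.add_one_le_exp θ
      linarith
    have h4 : (k' : ℝ) * θ ≤ 1 := by
      have : (k' : ℝ) ≤ k := by exact_mod_cast hk
      nlinarith
    have h5 : Real.exp (k' * θ) ≤ Real.exp 1 := Real.exp_le_exp.mpr h4
    have h6 := Real.exp_one_lt_d9
    linarith
  have hP : (0 : ℝ) ≤ ((∏ j ∈ Finset.range r, (a j + 1) : ℕ) : ℝ) := Nat.cast_nonneg _
  exact (h1 r).trans (mul_le_mul_of_nonneg_right h2 hP)

/-- a product with many non-trivial factors is large -/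
theorem prod_large (a : ℕ → ℕ) (r : ℕ) :
    2 ^ ((Finset.range r).filter (fun j => a j ≠ 0)).card ≤
      ∏ j ∈ Finset.range r, (a j + 1) := by
  induction r with
  | zero => simp
  | succ r ih =>
      rw [Finset.prod_range_succ, Finset.range_add_one, Finset.filter_insert]
      by_cases h0 : a r ≠ 0
      · rw [if_pos h0, Finset.card_insert_of_notMem (by simp), pow_succ]
        exact Nat.mul_le_mul ih (by omega)
      · rw [if_neg h0]
        push Not at h0
        rw [h0, Nat.zero_add, Nat.mul_one]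
        exact ih

end Pool.Agent.NEGT
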