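import Pool.Agent.Lib.MP_0087d5_lc.NEGT.Wnd
import Pool.Agent.Lib.MP_0087d5_lc.NEGT.Num

/-!
The core of the average case theorem for the staircase.
-/

set_option autoImplicit false

namespace Pool.Agent.NEGT

open Pool.Agent.NEG Pool.Agent.NEGS
open Pool.Agent.NEGQ (Vx gmat big St wc vc lin zc Cl IsPOA)

section Quiet

variable {J G : Type}

/-- the mean number of moves along every pseudo-chain with a small error is at most `B` -/
def Quiet (C : Circuit J G) (l : Lev C) (θ0 B : ℝ) : Prop :=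
  ∀ (vv : (J → Bool) → G → Bool), (∀ x, C.Consistent x (vv x)) →
    ∀ (Ω : Type) [Fintype Ω] [Nonempty Ω] (κ ε : ℝ), 0 ≤ κ → κ ≤ 1 / 2 → 0 ≤ ε → ε ≤ 1 →
    ∀ (N : ℕ) (S : ℕ → Ω → J → Bool), 36 * κ + 10 * ε * N ≤ θ0 →
    (∀ τ < N, IsStep C l κ ε (S τ) (S (τ + 1))) →
    ∑ τ ∈ Finset.range N, av (fun ω => ind (Moves C (S τ ω) (S (τ + 1) ω)
        (vv (S τ ω)) (vv (S (τ + 1) ω)))) ≤ B

theorem quiet_total [Finite G] (C : Circuit J G) (l : Lev C) (t m : ℕ)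
    (ht : {g | ¬ C.Plain g}.ncard ≤ t) (hm : ∀ g, ¬ C.Plain g → C.arity g ≤ m)
    {θ0 : ℝ} (hθ : θ0 ≤ 1) : Quiet C l θ0 (9 * ((m * 2 ^ t + 1 : ℕ) : ℝ)) := by
  intro vv hvv Ω _ _ κ ε hκ hκ2 hε hε1 N S hθN hS
  have h1 := moves_total C l t m ht hm vv hvv hκ hκ2 hε hε1 N S hS
  refine h1.trans ?_
  push_cast
  have h2 : (0 : ℝ) ≤ (m : ℝ) * 2 ^ t + 1 := by positivity
  have h3 : 1 + (36 * κ + 10 * ε * N) ≤ 2 := by linarith
  calc (1 + (36 * κ + 10 * ε * N)) * (2 * ((m : ℝ) * 2 ^ t + 1)) ≤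
        2 * (2 * ((m : ℝ) * 2 ^ t + 1)) := mul_le_mul_of_nonneg_right h3 (by positivity)
    _ ≤ 9 * ((m : ℝ) * 2 ^ t + 1) := by linarith

theorem quiet_rank [Finite G] (C : Circuit J G) (l : Lev C) (rk : G → ℕ) (hrk : Ranked C rk)
    (r : ℕ) (hr : ∀ g, rk g < r) (k : ℕ)
    (hk : ((Finset.range r).filter (fun j => wires C rk j ≠ 0)).card ≤ k)
    {θ0 : ℝ} (hθ : θ0 ≤ 1) (hθk : k * θ0 ≤ 1) : Quiet C l θ0
      (9 * ((∏ j ∈ Finset.range r, (wires C rk j + 1) : ℕ) : ℝ)) := by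
  intro vv hvv Ω _ _ κ ε hκ hκ2 hε hε1 N S hθN hS
  have hN : (0 : ℝ) ≤ N := Nat.cast_nonneg N
  set θ : ℝ := 36 * κ + 10 * ε * N with hθd
  have hθ0 : 0 ≤ θ := by positivity
  have h1 := moves_rank C l rk hrk vv hvv hκ hκ2 hε hε1 N S hS r hr
  rw [← hθd] at h1
  have h2 := prod_theta hθ0 (fun j => wires C rk j) r k hk (by
    have : (k : ℝ) * θ ≤ k * θ0 := mul_le_mul_of_nonneg_left hθN (Nat.cast_nonneg _)
    linarith)
  have h3 : (2 + θ) * ∏ j ∈ Finset.range r, ((1 + θ) * (wires C rk j : ℝ) + 1) ≤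
      3 * (3 * ((∏ j ∈ Finset.range r, (wires C rk j + 1) : ℕ) : ℝ)) :=
    mul_le_mul (by linarith) h2 (Finset.prod_nonneg (fun j _ => by positivity)) (by norm_num)
  linarith

end Quiet

section Core

open Classical in
theorem core_big {l0 n s : ℕ} (hl0 : 1 ≤ l0) (hs : s + n < 2 ^ l0)
    (hn : 4 * ((2 ^ 38 * l0) ^ 8) ^ 2 ≤ n) :
    ∃ (Ix : Type) (_ : Fintype Ix) (_ : Nonempty Ix) (P N : Ix → Fin n × Fin n → Bool),
      (∀ i e, N i e = true → P i e = true) ∧ (∀ i, BPM n (P i)) ∧ (∀ i, ¬ BPM n (N i)) ∧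
      ∀ (J G : Type) [Fintype G] (sg : J → (Fin n × Fin n) ⊕ Bool) (C : Circuit J G)
        (l : Lev C), Fintype.card G ≤ s → ∀ c : ℕ,
        Quiet C l (37 / ((2 ^ 38 * l0 : ℕ) : ℝ)) (9 * (c : ℝ)) → Fintype.card (Slot C) ≤ c →
        n ^ 2 * (Finset.univ.filter (fun i => Differs C (pull sg (P i))
          (pull sg (N i)))).card ≤ 640 * (2 ^ 38 * l0) ^ 24 * c * Fintype.card Ix := by
  have hll : 2 ^ 38 ≤ 2 ^ 38 * l0 := Nat.le_mul_of_pos_right _ hl0
  have hl46 : 46 * l0 ≤ 2 ^ 38 * l0 := Nat.mul_le_mul_right _ (by norm_num)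
  have hl0l : 2 ^ 38 * l0 = 2 ^ 38 * l0 := rfl
  generalize hl : 2 ^ 38 * l0 = l at hn hll hl46 hl0l ⊢
  have h8l : 8 ≤ l := by
    refine le_trans ?_ hll
    norm_num
  have hl1 : 1 ≤ l := by omega
  have hq8 : 8 ≤ l ^ 8 := by
    calc 8 ≤ l := h8l
      _ = l ^ 1 := (pow_one l).symm
      _ ≤ l ^ 8 := Nat.pow_le_pow_right (by omega) (by norm_num)
  have happ := NEGQ.exists_app_po8 l hll
  generalize hqd : l ^ 8 = q at hn hq8 happ
  obtain ⟨𝒜, h𝒜, hpoa⟩ := happ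
  have hq0 : 0 < q := by omega
  obtain ⟨hK0, hKL, hsize, hn2, hW2, hN2⟩ := numbers hq8 hn
  generalize hKd : n / (4 * q ^ 2) = K at hK0 hKL hsize hn2 hW2 hN2
  generalize hLd : n / (2 * q) = L at hKL hsize hn2 hW2 hN2
  have hcard : Fintype.card (Fin n) =
      Fintype.card (Vx q K L ⊕ Fin (n - (L * q + (K * q) * q))) := by
    simp only [Fintype.card_sum, Fintype.card_prod, Fintype.card_fin]
    omega
  let e : Fin n ≃ Vx q K L ⊕ Fin (n - (L * q + (K * q) * q)) := Fintype.equivOfCardEq hcard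
  have hneC := cl_nonempty hq0
  have hneK : Nonempty (Fin K) := ⟨⟨0, hK0⟩⟩
  have hneL : Nonempty (Fin (L - 2 * K)) := ⟨⟨0, by omega⟩⟩
  have hjw1 : ∀ i : Fin (L - 2 * K), K ≤ ((jw i : Fin L) : ℕ) := fun i => Nat.le_add_right _ _
  have hjw2 : ∀ i : Fin (L - 2 * K), ((jw i : Fin L) : ℕ) + K < L := by
    intro i
    have := i.2
    change K + (i : ℕ) + K < L
    omega
  refine ⟨PairQ q K L, inferInstance, inferInstance, posQ e, negQ e, ?_, ?_, ?_, ?_⟩
  · intro p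
    exact Mw_mono e p.1.1 (jw p.1.2) p.2.1 (fun _ _ => rfl)
  · intro p
    exact (Mw_bpm e p.1.1 (jw p.1.2) (hjw1 _) (hjw2 _) p.2.1 _).mpr ⟨1, fun _ => rfl⟩
  · intro p h
    exact odd_not_bpm p.2.2.1 p.2.2.2
      ((Mw_bpm e p.1.1 (jw p.1.2) (hjw1 _) (hjw2 _) p.2.1 _).mp h)
  · intro J G _ sg C lv hG c hquiet hslot
    have hex : ∀ x, ∃ v, C.Consistent x v := fun x =>
      exists_consistent C lv.lev lv.top lv.le_top lv.lt x
    choose vv hvv using hex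
    have hlpos : (0 : ℝ) < l := by exact_mod_cast hl1
    have hpow : 2 ^ l0 ≤ 2 ^ l := Nat.pow_le_pow_right (by norm_num) (by omega)
    have hGE : Fintype.card G ≤ 2 ^ l := by omega
    have hθ := theta_bound hl0 hs hG (show K * ph q L ≤ n ^ 2 from hN2)
    rw [hl] at hθ
    have hB := hquiet vv hvv (Om q K L) (1 / (l : ℝ)) ((Fintype.card G : ℝ) / 2 ^ l)
      (by positivity) (by
        rw [div_le_div_iff₀ hlpos (by norm_num)]
        have : (8 : ℝ) ≤ l := by exact_mod_cast h8l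
        linarith) (by positivity) (by
        rw [div_le_one (by positivity)]
        exact_mod_cast hGE) (K * ph q L) (chS e sg) hθ
      (fun τ hτ => isStep_chS hq0 hl1 hl1 h𝒜 hpoa e sg C lv τ hτ)
    have h1 := avg_pairs hq0 h𝒜 e sg C lv hGE vv hvv hK0 hKL (9 * (c : ℝ)) hB
    have hWnat : 0 < K * (L - 2 * K) := Nat.mul_pos hK0 (by omega)
    have hWpos : (0 : ℝ) < (K : ℝ) * ((L - 2 * K : ℕ) : ℝ) := by exact_mod_cast hWnat
    have hWle : (K : ℝ) * ((L - 2 * K : ℕ) : ℝ) ≤ 2 ^ (3 * l) := by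
      have h2 : K * (L - 2 * K) ≤ 2 ^ (3 * l) := by
        calc K * (L - 2 * K) ≤ n ^ 2 := hW2
          _ ≤ (2 ^ l0) ^ 2 := Nat.pow_le_pow_left (by omega) 2
          _ = 2 ^ (l0 * 2) := by rw [← pow_mul]
          _ ≤ 2 ^ (3 * l) := Nat.pow_le_pow_right (by norm_num) (by omega)
      exact_mod_cast h2
    have hslot' : (Fintype.card (Slot C) : ℝ) ≤ c := by exact_mod_cast hslot
    have h3 : 2 * (Fintype.card (Slot C) : ℝ) / 2 ^ (3 * l) ≤
        2 * c / ((K : ℝ) * ((L - 2 * K : ℕ) : ℝ)) := by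
      apply div_le_div₀ (by positivity) (by linarith) hWpos hWle
    rw [av_ind_card] at h1
    have h4 : ((Finset.univ.filter (fun p : PairQ q K L => Differs C (pull sg (posQ e p))
        (pull sg (negQ e p)))).card : ℝ) / Fintype.card (PairQ q K L) ≤
        (20 * c) / ((K : ℝ) * ((L - 2 * K : ℕ) : ℝ)) := by
      have e1 : (20 * (c : ℝ)) / ((K : ℝ) * ((L - 2 * K : ℕ) : ℝ)) =
          2 * (9 * (c : ℝ)) / ((K : ℝ) * ((L - 2 * K : ℕ) : ℝ)) +
          2 * c / ((K : ℝ) * ((L - 2 * K : ℕ) : ℝ)) := by ring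
      rw [e1]
      linarith
    have hMpos : (0 : ℝ) < Fintype.card (PairQ q K L) := by exact_mod_cast Fintype.card_pos
    rw [div_le_div_iff₀ hMpos hWpos] at h4
    have h5 : (Finset.univ.filter (fun p : PairQ q K L => Differs C (pull sg (posQ e p))
        (pull sg (negQ e p)))).card * (K * (L - 2 * K)) ≤
        20 * c * Fintype.card (PairQ q K L) := by exact_mod_cast h4
    calc n ^ 2 * (Finset.univ.filter (fun p : PairQ q K L => Differs C (pull sg (posQ e p))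
        (pull sg (negQ e p)))).card
        ≤ (32 * q ^ 3 * (K * (L - 2 * K))) * (Finset.univ.filter (fun p : PairQ q K L =>
          Differs C (pull sg (posQ e p)) (pull sg (negQ e p)))).card :=
          Nat.mul_le_mul_right _ hn2
      _ = 32 * q ^ 3 * ((Finset.univ.filter (fun p : PairQ q K L =>
          Differs C (pull sg (posQ e p)) (pull sg (negQ e p)))).card * (K * (L - 2 * K))) := by
          ring
      _ ≤ 32 * q ^ 3 * (20 * c * Fintype.card (PairQ q K L)) := Nat.mul_le_mul_left _ h5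
      _ = 640 * l ^ 24 * c * Fintype.card (PairQ q K L) := by
          rw [← hqd]
          ring

end Core

end Pool.Agent.NEGT
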