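import Pool.Agent.Lib.MP_0087d5_lc.NEGT.Local

/-!
Along an increasing chain of inputs the inputs of the special gates and the output change
only a few times.
-/

set_option autoImplicit false

namespace Pool.Agent.NEGT

open Pool.Agent.NEG Pool.Agent.NEGS Pool.Agent.NEGV

open Classical in
/-- values which go up only, except at the steps in `D`, change at few further steps -/
theorem grow (L : ℕ) (D : Finset ℕ) {φ : Type} [Fintype φ] (f : φ → ℕ → Bool)
    (hf : ∀ k < L, k ∉ D → ∀ a, f a k = true → f a (k + 1) = true) :
    ((Finset.range L).filter (fun k => k ∈ D ∨ ∃ a, f a k ≠ f a (k + 1))).card + 1 ≤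
      (D.card + 1) * (Fintype.card φ + 1) := by
  let S : Finset ℕ := (Finset.range L).filter (fun k => k ∉ D ∧ ∃ a, f a k ≠ f a (k + 1))
  have hsub : (Finset.range L).filter (fun k => k ∈ D ∨ ∃ a, f a k ≠ f a (k + 1)) ⊆ D ∪ S := by
    intro k hk
    rw [Finset.mem_filter] at hk
    rw [Finset.mem_union]
    by_cases hD : k ∈ D
    · exact Or.inl hD
    · right
      rw [Finset.mem_filter]
      refine ⟨hk.1, hD, ?_⟩
      rcases hk.2 with h | h
      · exact absurd h hD
      · exact h
  have hch : ∀ k : ℕ, ∃ a : Option φ, (k ∈ S → ∃ b, a = some b ∧ f b k ≠ f b (k + 1)) := by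
    intro k
    by_cases hk : k ∈ S
    · obtain ⟨b, hb⟩ := (Finset.mem_filter.mp hk).2.2
      exact ⟨some b, fun _ => ⟨b, rfl, hb⟩⟩
    · exact ⟨none, fun h => absurd h hk⟩
  choose a ha using hch
  let T : Finset (ℕ × Option φ) := (Finset.range (D.card + 1)) ×ˢ (Finset.univ.image some)
  have hT : T.card = (D.card + 1) * Fintype.card φ := by
    rw [Finset.card_product, Finset.card_range,
      Finset.card_image_of_injective _ (Option.some_injective φ), Finset.card_univ]
  have key : ∀ k k' : ℕ, k ∈ S → k' ∈ S → k < k' →
      (D.filter (fun d => d < k)).card = (D.filter (fun d => d < k')).card →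
      a k ≠ a k' := by
    intro k k' hk hk' hlt hcard hak
    have hkm := Finset.mem_filter.mp hk
    have hkm' := Finset.mem_filter.mp hk'
    have hL' : k' < L := Finset.mem_range.mp hkm'.1
    have hnot : ∀ d, k ≤ d → d < k' → d ∉ D := by
      intro d hd1 hd2 hdD
      have hss : D.filter (fun d => d < k) ⊆ D.filter (fun d => d < k') := by
        intro e he
        rw [Finset.mem_filter] at he ⊢
        exact ⟨he.1, by omega⟩
      have heq := Finset.eq_of_subset_of_card_le hss hcard.ge
      have h1 : d ∈ D.filter (fun d => d < k') := Finset.mem_filter.mpr ⟨hdD, hd2⟩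
      rw [← heq, Finset.mem_filter] at h1
      omega
    obtain ⟨b, hb1, hb2⟩ := ha k hk
    obtain ⟨b', hb1', hb2'⟩ := ha k' hk'
    have hbb : b = b' := by
      rw [hb1, hb1'] at hak
      exact Option.some_injective φ hak
    subst hbb
    have hup : f b k = false ∧ f b (k + 1) = true := by
      have h1 := hf k (by omega) hkm.2.1 b
      cases h2 : f b k
      · cases h3 : f b (k + 1)
        · rw [h2, h3] at hb2
          exact absurd rfl hb2
        · exact ⟨rfl, rfl⟩
      · rw [h2, h1 h2] at hb2
        exact absurd rfl hb2
    have hall : ∀ e, k + 1 ≤ e → e ≤ k' → f b e = true := by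
      intro e he
      induction e, he using Nat.le_induction with
      | base => exact fun _ => hup.2
      | succ e he ih =>
          intro he'
          exact hf e (by omega) (hnot e (by omega) (by omega)) b (ih (by omega))
    have h1 := hall k' (by omega) le_rfl
    have h2 := hf k' hL' hkm'.2.1 b h1
    rw [h1, h2] at hb2'
    exact hb2' rfl
  have hS : S.card ≤ (D.card + 1) * Fintype.card φ := by
    rw [← hT]
    apply Finset.card_le_card_of_injOn (fun k => ((D.filter (fun d => d < k)).card, a k))
    · intro k hk
      rw [Finset.mem_coe] at hk ⊢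
      simp only [T, Finset.mem_product, Finset.mem_range, Finset.mem_image]
      obtain ⟨b, hb1, _⟩ := ha k hk
      refine ⟨?_, b, Finset.mem_univ _, hb1.symm⟩
      have := Finset.card_filter_le D (fun d => d < k)
      omega
    · intro k hk k' hk' hkk
      rw [Finset.mem_coe] at hk hk'
      have h1 := (Prod.mk.inj hkk).1
      have h2 := (Prod.mk.inj hkk).2
      rcases Nat.lt_trichotomy k k' with h | h | h
      · exact absurd h2 (key k k' hk hk' h h1)
      · exact h
      · exact absurd h2.symm (key k' k hk' hk h h1.symm)
  calc ((Finset.range L).filter (fun k => k ∈ D ∨ ∃ a, f a k ≠ f a (k + 1))).card + 1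
      ≤ (D ∪ S).card + 1 := Nat.add_le_add_right (Finset.card_le_card hsub) 1
    _ ≤ D.card + S.card + 1 := Nat.add_le_add_right (Finset.card_union_le _ _) 1
    _ ≤ D.card + (D.card + 1) * Fintype.card φ + 1 := by omega
    _ = (D.card + 1) * (Fintype.card φ + 1) := by ring

section Rank

variable {I G : Type}

/-- the special gates are given ranks which grow along the wires -/
def Ranked (C : Circuit I G) (rk : G → ℕ) : Prop :=
  ∀ g i g', C.src g i = Sum.inr g' → rk g' ≤ rk g ∧ (¬ C.Plain g → rk g' < rk g)

/-- an input of a special gate of rank below `b` changes -/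
def MovesBelow (C : Circuit I G) (rk : G → ℕ) (b : ℕ) (x y : I → Bool) (v w : G → Bool) : Prop :=
  ∃ s, ¬ C.Plain s ∧ rk s < b ∧ ∃ i, Circuit.node x v (C.src s i) ≠ Circuit.node y w (C.src s i)

/-- if no input of a special gate of rank below `b` changes then all gates of rank below `b`
go up -/
theorem up_below (C : Circuit I G) (l : Lev C) (rk : G → ℕ) (hrk : Ranked C rk) (b : ℕ)
    {x y : I → Bool} (hxy : ∀ i, x i = true → y i = true) {v w : G → Bool}
    (hv : C.Consistent x v) (hw : C.Consistent y w) (h : ¬ MovesBelow C rk b x y v w) :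
    ∀ n : ℕ, ∀ g, l.lev g ≤ n → rk g < b → v g = true → w g = true := by
  intro n
  induction n with
  | zero =>
      intro g hg hb hvg
      by_cases hp : C.Plain g
      · rw [hv g] at hvg
        rw [hw g]
        refine hp.2 _ _ (fun i hi => ?_) hvg
        cases hs : C.src g i with
        | inl a =>
            rw [hs] at hi
            cases a with
            | inl j => exact hxy j hi
            | inr b => exact hi
        | inr g' =>
            have := l.lt g i g' hs
            omega
      · have h1 : v g = w g := by
          rw [hv g, hw g]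
          congr 1
          funext i
          by_contra hne
          exact h ⟨g, hp, hb, i, hne⟩
        rw [← h1]
        exact hvg
  | succ n ih =>
      intro g hg hb hvg
      by_cases hp : C.Plain g
      · rw [hv g] at hvg
        rw [hw g]
        refine hp.2 _ _ (fun i hi => ?_) hvg
        cases hs : C.src g i with
        | inl a =>
            rw [hs] at hi
            cases a with
            | inl j => exact hxy j hi
            | inr b => exact hi
        | inr g' =>
            rw [hs] at hi
            have h1 := l.lt g i g' hs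
            have h2 := (hrk g i g' hs).1
            exact ih g' (by omega) (by omega) hi
      · have h1 : v g = w g := by
          rw [hv g, hw g]
          congr 1
          funext i
          by_contra hne
          exact h ⟨g, hp, hb, i, hne⟩
        rw [← h1]
        exact hvg

open Classical in
/-- the number of special gates of rank `b` -/
noncomputable def prof (C : Circuit I G) (rk : G → ℕ) (b : ℕ) : ℕ :=
  {g | ¬ C.Plain g ∧ rk g = b}.ncard

open Classical in
theorem count_below [Finite G] (C : Circuit I G) (l : Lev C) (rk : G → ℕ) (hrk : Ranked C rk)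
    (m : ℕ) (hm : ∀ g, ¬ C.Plain g → C.arity g ≤ m) (L : ℕ) (X : ℕ → I → Bool)
    (hX : ∀ k i, X k i = true → X (k + 1) i = true) (v : ℕ → G → Bool)
    (hv : ∀ k, C.Consistent (X k) (v k)) (b : ℕ) :
    ((Finset.range L).filter (fun k =>
      MovesBelow C rk b (X k) (X (k + 1)) (v k) (v (k + 1)))).card + 1 ≤
      ∏ j ∈ Finset.range b, (m * prof C rk j + 1) := by
  have : Fintype G := Fintype.ofFinite G
  induction b with
  | zero =>
      have : (Finset.range L).filter (fun k =>
          MovesBelow C rk 0 (X k) (X (k + 1)) (v k) (v (k + 1))) = ∅ := by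
        rw [Finset.filter_eq_empty_iff]
        rintro k _ ⟨s, _, hs, _⟩
        omega
      rw [this, Finset.card_empty, Finset.range_zero, Finset.prod_empty]
      norm_num
  | succ b ih =>
      rw [Finset.prod_range_succ]
      let D : Finset ℕ := (Finset.range L).filter (fun k =>
          MovesBelow C rk b (X k) (X (k + 1)) (v k) (v (k + 1)))
      let φ : Type := Σ s : {s // ¬ C.Plain s ∧ rk s = b}, Fin (C.arity s)
      let f : φ → ℕ → Bool := fun p k => Circuit.node (X k) (v k) (C.src p.1 p.2)
      have hf : ∀ k < L, k ∉ D → ∀ a, f a k = true → f a (k + 1) = true := by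
        rintro k hk hkD ⟨⟨s, hs1, hs2⟩, i⟩ h
        have hnm : ¬ MovesBelow C rk b (X k) (X (k + 1)) (v k) (v (k + 1)) := by
          intro hmv
          exact hkD (Finset.mem_filter.mpr ⟨Finset.mem_range.mpr hk, hmv⟩)
        simp only [f] at h ⊢
        cases hs : C.src s i with
        | inl a =>
            rw [hs] at h
            cases a with
            | inl j => exact hX k j h
            | inr b => exact h
        | inr g' =>
            rw [hs] at h
            have h2 := (hrk s i g' hs).2 hs1
            exact up_below C l rk hrk b (hX k) (hv k) (hv (k + 1)) hnm l.top g' (l.le_top g')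
              (by omega) h
      have hgrow := grow L D f hf
      have hφ : Fintype.card φ ≤ m * prof C rk b := by
        simp only [φ]
        rw [Fintype.card_sigma]
        calc (∑ s : {s // ¬ C.Plain s ∧ rk s = b}, Fintype.card (Fin (C.arity s)))
            ≤ ∑ _s : {s // ¬ C.Plain s ∧ rk s = b}, m := by
              refine Finset.sum_le_sum (fun s _ => ?_)
              rw [Fintype.card_fin]
              exact hm s s.2.1
          _ = m * prof C rk b := by
              rw [Finset.sum_const, Finset.card_univ, smul_eq_mul, Nat.mul_comm]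
              congr 1
              unfold prof
              rw [← Nat.card_eq_fintype_card]
              rfl
      have hsub : ((Finset.range L).filter (fun k =>
          MovesBelow C rk (b + 1) (X k) (X (k + 1)) (v k) (v (k + 1)))) ⊆
          (Finset.range L).filter (fun k => k ∈ D ∨ ∃ a, f a k ≠ f a (k + 1)) := by
        intro k hk
        rw [Finset.mem_filter] at hk ⊢
        refine ⟨hk.1, ?_⟩
        obtain ⟨s, hs1, hs2, i, hi⟩ := hk.2
        rcases Nat.lt_or_ge (rk s) b with h | h
        · left
          exact Finset.mem_filter.mpr ⟨hk.1, s, hs1, h, i, hi⟩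
        · right
          exact ⟨⟨⟨s, hs1, by omega⟩, i⟩, hi⟩
      calc ((Finset.range L).filter (fun k =>
          MovesBelow C rk (b + 1) (X k) (X (k + 1)) (v k) (v (k + 1)))).card + 1
          ≤ ((Finset.range L).filter (fun k => k ∈ D ∨ ∃ a, f a k ≠ f a (k + 1))).card + 1 :=
            Nat.add_le_add_right (Finset.card_le_card hsub) 1
        _ ≤ (D.card + 1) * (Fintype.card φ + 1) := hgrow
        _ ≤ (∏ j ∈ Finset.range b, (m * prof C rk j + 1)) * (m * prof C rk b + 1) :=
            Nat.mul_le_mul ih (Nat.add_le_add_right hφ 1)

open Classical in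
/-- the number of moves along a chain, by ranks -/
theorem count_rank [Finite G] (C : Circuit I G) (l : Lev C) (rk : G → ℕ) (hrk : Ranked C rk)
    (m : ℕ) (hm : ∀ g, ¬ C.Plain g → C.arity g ≤ m) (L : ℕ) (X : ℕ → I → Bool)
    (hX : ∀ k i, X k i = true → X (k + 1) i = true) (v : ℕ → G → Bool)
    (hv : ∀ k, C.Consistent (X k) (v k)) (r : ℕ) (hr : ∀ g, rk g < r) :
    ((Finset.range L).filter (fun k =>
      Moves C (X k) (X (k + 1)) (v k) (v (k + 1)))).card ≤
      2 * ∏ j ∈ Finset.range r, (m * prof C rk j + 1) := by
  have h1 := count_below C l rk hrk m hm L X hX v hv r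
  let D : Finset ℕ := (Finset.range L).filter (fun k =>
      MovesBelow C rk r (X k) (X (k + 1)) (v k) (v (k + 1)))
  let f : Unit → ℕ → Bool := fun _ k => v k C.out
  have hf : ∀ k < L, k ∉ D → ∀ a, f a k = true → f a (k + 1) = true := by
    rintro k hk hkD _ h
    have hnm : ¬ MovesBelow C rk r (X k) (X (k + 1)) (v k) (v (k + 1)) := by
      intro hmv
      exact hkD (Finset.mem_filter.mpr ⟨Finset.mem_range.mpr hk, hmv⟩)
    exact up_below C l rk hrk r (hX k) (hv k) (hv (k + 1)) hnm l.top C.out (l.le_top _)
      (hr _) h
  have hgrow := grow L D f hf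
  rw [Fintype.card_unit] at hgrow
  have hsub : ((Finset.range L).filter (fun k =>
      Moves C (X k) (X (k + 1)) (v k) (v (k + 1)))) ⊆
      (Finset.range L).filter (fun k => k ∈ D ∨ ∃ a, f a k ≠ f a (k + 1)) := by
    intro k hk
    rw [Finset.mem_filter] at hk ⊢
    refine ⟨hk.1, ?_⟩
    obtain ⟨sl, hsl⟩ := hk.2
    cases sl with
    | none =>
        right
        exact ⟨(), hsl⟩
    | some p =>
        left
        exact Finset.mem_filter.mpr ⟨hk.1, p.1, p.1.2, hr _, p.2, hsl⟩
  have h2 := Finset.card_le_card hsub
  have h3 : (D.card + 1) * (1 + 1) ≤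
      (∏ j ∈ Finset.range r, (m * prof C rk j + 1)) * (1 + 1) := Nat.mul_le_mul_right _ h1
  omega

end Rank

end Pool.Agent.NEGT
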