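import Pool.Agent.Lib.MP_0087d5_lc.NEGT.Count

/-!
The number of moves along a chain in terms of the number of special gates.
-/

set_option autoImplicit false

namespace Pool.Agent.NEGT

open Pool.Agent.NEG Pool.Agent.NEGS Pool.Agent.NEGV

variable {I G : Type}

open Classical in
/-- extend values of the special gates of level below `b` by `false` -/
noncomputable def extI (C : Circuit I G) (l : Lev C) (b : ℕ)
    (z : {s // ¬ C.Plain s ∧ l.lev s < b} → Bool) (g : G) : Bool :=
  if h : ¬ C.Plain g ∧ l.lev g < b then z ⟨g, h⟩ else false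

/-- the index set of the monotone functions: for every special gate and every assignment of
the special gates of lower level the inputs of the gate, and for every assignment of all
special gates the output -/
abbrev IdxI (C : Circuit I G) (l : Lev C) : Type :=
  (Σ s : {s // ¬ C.Plain s}, ({s' // ¬ C.Plain s' ∧ l.lev s' < l.lev s} → Bool) ×
    Fin (C.arity s)) ⊕ ({s' // ¬ C.Plain s' ∧ l.lev s' < l.top + 1} → Bool)

/-- the forced constants of an index -/
noncomputable def zOfI (C : Circuit I G) (l : Lev C) : IdxI C l → G → Bool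
  | .inl p => extI C l (l.lev p.1) p.2.1
  | .inr z => extI C l (l.top + 1) z

/-- the node of an index -/
def nodI (C : Circuit I G) (l : Lev C) : IdxI C l → (I ⊕ Bool) ⊕ G
  | .inl p => C.src p.1 p.2.2
  | .inr _ => .inr C.out

open Classical in
theorem card_idxI [Fintype G] (C : Circuit I G) (l : Lev C) (t m : ℕ)
    (ht : Fintype.card {s // ¬ C.Plain s} ≤ t) (hm : ∀ g, ¬ C.Plain g → C.arity g ≤ m) :
    Fintype.card (IdxI C l) ≤ 2 * (m * 2 ^ t + 1) := by
  have hcard : ∀ b : ℕ, Fintype.card {s' // ¬ C.Plain s' ∧ l.lev s' < b} =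
      ((Finset.univ.filter (fun s => ¬ C.Plain s)).filter (fun s' => l.lev s' < b)).card := by
    intro b
    rw [Finset.filter_filter, Fintype.card_subtype]
  have hS : (Finset.univ.filter (fun s => ¬ C.Plain s)).card ≤ t := by
    rw [← Fintype.card_subtype]
    exact ht
  rw [Fintype.card_sum, Fintype.card_sigma]
  have h1 : (∑ s : {s // ¬ C.Plain s}, Fintype.card
      (({s' // ¬ C.Plain s' ∧ l.lev s' < l.lev s} → Bool) × Fin (C.arity s))) ≤
      m * (2 ^ t - 1) := by
    have e1 : (∑ s : {s // ¬ C.Plain s}, Fintype.card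
        (({s' // ¬ C.Plain s' ∧ l.lev s' < l.lev s} → Bool) × Fin (C.arity s))) ≤
        ∑ s : {s // ¬ C.Plain s}, m * 2 ^ ((Finset.univ.filter (fun s => ¬ C.Plain s)).filter
            (fun s' => l.lev s' < l.lev s)).card := by
      refine Finset.sum_le_sum (fun s _ => ?_)
      rw [Fintype.card_prod, Fintype.card_fun, Fintype.card_bool, Fintype.card_fin, hcard,
        Nat.mul_comm]
      exact Nat.mul_le_mul_right _ (hm s s.2)
    have e2 : (∑ s : {s // ¬ C.Plain s}, m * 2 ^ ((Finset.univ.filter
        (fun s => ¬ C.Plain s)).filter (fun s' => l.lev s' < l.lev s)).card) =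
        m * ∑ s ∈ Finset.univ.filter (fun s => ¬ C.Plain s),
            2 ^ ((Finset.univ.filter (fun s => ¬ C.Plain s)).filter
            (fun s' => l.lev s' < l.lev s)).card := by
      rw [Finset.mul_sum]
      exact (Finset.sum_subtype (Finset.univ.filter (fun s => ¬ C.Plain s)) (by simp)
        (fun s => m * 2 ^ ((Finset.univ.filter (fun s => ¬ C.Plain s)).filter
            (fun s' => l.lev s' < l.lev s)).card)).symm
    have e3 : m * ∑ s ∈ Finset.univ.filter (fun s => ¬ C.Plain s),
            2 ^ ((Finset.univ.filter (fun s => ¬ C.Plain s)).filter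
            (fun s' => l.lev s' < l.lev s)).card ≤ m * (2 ^ t - 1) := by
      apply Nat.mul_le_mul_left
      have h2 := sum_lower l.lev (Finset.univ.filter (fun s => ¬ C.Plain s))
      have h3 : (2 : ℕ) ^ (Finset.univ.filter (fun s => ¬ C.Plain s)).card ≤ 2 ^ t :=
        Nat.pow_le_pow_right (by norm_num) hS
      omega
    exact e1.trans (e2 ▸ e3)
  have h2 : Fintype.card ({s' // ¬ C.Plain s' ∧ l.lev s' < l.top + 1} → Bool) ≤
      2 ^ (Finset.univ.filter (fun s => ¬ C.Plain s)).card := by
    rw [Fintype.card_fun, Fintype.card_bool, hcard]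
    exact Nat.pow_le_pow_right (by norm_num) (Finset.card_filter_le _ _)
  by_cases hm0 : m = 0
  · -- no special gates at all
    have hempty : (Finset.univ.filter (fun s => ¬ C.Plain s)).card = 0 := by
      rw [Finset.card_eq_zero, Finset.filter_eq_empty_iff]
      intro s _ hs
      apply hs
      have h3 : C.arity s = 0 := by
        have := hm s hs
        omega
      refine ⟨by omega, fun a b _ h4 => ?_⟩
      have h5 : a = b := by
        funext i
        exact absurd i.2 (by omega)
      rw [← h5]
      exact h4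
    rw [hempty, pow_zero] at h2
    rw [hm0, Nat.zero_mul] at h1
    omega
  · have h3 : (2 : ℕ) ^ (Finset.univ.filter (fun s => ¬ C.Plain s)).card ≤ 2 ^ t :=
      Nat.pow_le_pow_right (by norm_num) hS
    have h4 : 2 ^ t ≤ m * 2 ^ t := Nat.le_mul_of_pos_left _ (Nat.pos_of_ne_zero hm0)
    have h5 : m * (2 ^ t - 1) ≤ m * 2 ^ t := Nat.mul_le_mul_left _ (Nat.sub_le _ _)
    omega

/-- the special gates keep their values if no function of the index set changes -/
theorem special_of_idx (C : Circuit I G) (l : Lev C) {x y : I → Bool} {v w : G → Bool}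
    (hv : C.Consistent x v) (hw : C.Consistent y w)
    (h : ∀ k : IdxI C l, nv C l (zOfI C l k) (nodI C l k) x =
      nv C l (zOfI C l k) (nodI C l k) y) :
    ∀ n : ℕ, ∀ s, ¬ C.Plain s → l.lev s ≤ n →
      (∀ i, Circuit.node x v (C.src s i) = Circuit.node y w (C.src s i)) ∧ v s = w s := by
  have key : ∀ s, ¬ C.Plain s → (∀ s', ¬ C.Plain s' → l.lev s' < l.lev s → v s' = w s') →
      ∀ i, Circuit.node x v (C.src s i) = Circuit.node y w (C.src s i) := by
    intro s hs hlow i
    have h1 := h (Sum.inl ⟨⟨s, hs⟩, fun s' => v s', i⟩)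
    simp only [zOfI, nodI] at h1
    have h2 : nv C l (extI C l (l.lev s) (fun s' => v s')) (C.src s i) x =
        nv C l v (C.src s i) x := by
      apply nv_congr
      intro s' hs' hlt
      unfold extI
      rw [dif_pos ⟨hs', hlt⟩]
    have h3 : nv C l (extI C l (l.lev s) (fun s' => v s')) (C.src s i) y =
        nv C l w (C.src s i) y := by
      apply nv_congr
      intro s' hs' hlt
      unfold extI
      rw [dif_pos ⟨hs', hlt⟩]
      exact hlow s' hs' hlt
    rw [h2, h3, nv_true C l hv (fun _ _ => rfl), nv_true C l hw (fun _ _ => rfl)] at h1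
    exact h1
  intro n
  induction n with
  | zero =>
      intro s hs hl
      have h1 := key s hs (fun s' _ hlt => by omega)
      refine ⟨h1, ?_⟩
      rw [hv s, hw s]
      congr 1
      funext i
      exact h1 i
  | succ n ih =>
      intro s hs hl
      have h1 := key s hs (fun s' hs' hlt => (ih s' hs' (by omega)).2)
      refine ⟨h1, ?_⟩
      rw [hv s, hw s]
      congr 1
      funext i
      exact h1 i

/-- a move is seen by a function of the index set -/
theorem moves_idx (C : Circuit I G) (l : Lev C) {x y : I → Bool} {v w : G → Bool}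
    (hv : C.Consistent x v) (hw : C.Consistent y w) (hm : Moves C x y v w) :
    ∃ k : IdxI C l, nv C l (zOfI C l k) (nodI C l k) x ≠
      nv C l (zOfI C l k) (nodI C l k) y := by
  by_contra hcon
  push Not at hcon
  have h := special_of_idx C l hv hw hcon l.top
  obtain ⟨k, hk⟩ := hm
  apply hk
  cases k with
  | some p => exact (h p.1 p.1.2 (l.le_top _)).1 p.2
  | none =>
      have h1 := hcon (Sum.inr (fun s' => v s'))
      simp only [zOfI, nodI] at h1
      rw [nv_true C l hv (fun s hs => by
          unfold extI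
          rw [dif_pos ⟨hs, by have := l.le_top s; omega⟩]),
        nv_true C l hw (fun s hs => by
          unfold extI
          rw [dif_pos ⟨hs, by have := l.le_top s; omega⟩]
          exact (h s hs (l.le_top _)).2)] at h1
      exact h1

open Classical in
/-- the number of moves along a chain, by the number of special gates -/
theorem count_total [Finite G] (C : Circuit I G) (l : Lev C)
    (t m : ℕ) (ht : {g | ¬ C.Plain g}.ncard ≤ t) (hm : ∀ g, ¬ C.Plain g → C.arity g ≤ m)
    (L : ℕ) (X : ℕ → I → Bool)
    (hX : ∀ k i, X k i = true → X (k + 1) i = true) (v : ℕ → G → Bool)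
    (hv : ∀ k, C.Consistent (X k) (v k)) :
    ((Finset.range L).filter (fun k =>
      Moves C (X k) (X (k + 1)) (v k) (v (k + 1)))).card ≤ 2 * (m * 2 ^ t + 1) := by
  have : Fintype G := Fintype.ofFinite G
  have hsp : Fintype.card {s // ¬ C.Plain s} ≤ t := by
    rw [← Nat.card_eq_fintype_card]
    exact ht
  have hι := card_idxI C l t m hsp hm
  let f : IdxI C l → ℕ → Bool := fun k j => nv C l (zOfI C l k) (nodI C l k) (X j)
  have hf : ∀ k < L, k ∉ (∅ : Finset ℕ) → ∀ a, f a k = true → f a (k + 1) = true := by
    intro k _ _ a h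
    exact nv_mono C l _ _ (hX k) h
  have hgrow := grow L ∅ f hf
  rw [Finset.card_empty, Nat.zero_add, Nat.one_mul] at hgrow
  have hsub : ((Finset.range L).filter (fun k =>
      Moves C (X k) (X (k + 1)) (v k) (v (k + 1)))) ⊆
      (Finset.range L).filter (fun k => k ∈ (∅ : Finset ℕ) ∨ ∃ a, f a k ≠ f a (k + 1)) := by
    intro k hk
    rw [Finset.mem_filter] at hk ⊢
    exact ⟨hk.1, Or.inr (moves_idx C l (hv k) (hv (k + 1)) hk.2)⟩
  have h2 := Finset.card_le_card hsub
  omega

end Pool.Agent.NEGT
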