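import Pool.Agent.Lib.MP_0087d5_lc.NEG.CDef

/-!
Definitions for the average case theorem: formulas, ranks, the weight of a circuit, and the
pairs of graphs which a circuit tells apart.
-/

set_option autoImplicit false

namespace Pool.Agent.NEGT

open Pool.Agent.NEG

/-- a formula: every gate feeds at most one wire (variables may be used many times) -/
def IsFormula {I G : Type} (C : Circuit I G) : Prop :=
  ∀ (g : G) (p p' : Σ g, Fin (C.arity g)), C.src p.1 p.2 = Sum.inr g →
    C.src p'.1 p'.2 = Sum.inr g → p = p'

/-- the number of input wires of the non-plain gates of rank `j` -/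
noncomputable def wires {I G : Type} (C : Circuit I G) (rk : G → ℕ) (j : ℕ) : ℕ :=
  Nat.card {p : Σ g, Fin (C.arity g) // ¬ C.Plain p.1 ∧ rk p.1 = j}

/-- three bounds for the power of the non-plain gates of a circuit:
`m * 2 ^ t + 1` if at most `t` gates are non-plain and these have at most `m` inputs;
the product of `wires C rk j + 1` over all ranks `j`, for a rank function which weakly
increases along all wires and strictly increases along the wires into non-plain gates;
the number of input wires of non-plain gates plus one if the circuit is a formula -/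
def Weight {I G : Type} (C : Circuit I G) (w : ℕ) : Prop :=
  (∃ t m : ℕ, {g | ¬ C.Plain g}.ncard ≤ t ∧ (∀ g, ¬ C.Plain g → C.arity g ≤ m) ∧
    w = m * 2 ^ t + 1) ∨
  (∃ (r : ℕ) (rk : G → ℕ),
    (∀ g i g', C.src g i = Sum.inr g' → rk g' ≤ rk g ∧ (¬ C.Plain g → rk g' < rk g)) ∧
    (∀ g, rk g < r) ∧ w = ∏ j ∈ Finset.range r, (wires C rk j + 1)) ∨
  (IsFormula C ∧ w = Nat.card {p : Σ g, Fin (C.arity g) // ¬ C.Plain p.1} + 1)

open Classical in
/-- the outputs of the circuit on the adjacency matrices of the two graphs are different -/
def TellsApart {G : Type} {n : ℕ} (C : Circuit (Fin (2 * n) × Fin (2 * n)) G)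
    (P N : SimpleGraph (Fin (2 * n))) : Prop :=
  ∃ v w, C.Consistent (fun e => decide (P.Adj e.1 e.2)) v ∧
    C.Consistent (fun e => decide (N.Adj e.1 e.2)) w ∧ v C.out ≠ w C.out

end Pool.Agent.NEGT
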