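import Pool.Agent.Lib.MP_0087d5_lc.NEGS.Main
import Pool.Agent.Lib.MP_0087d5_lc.NEGT.TDef

/-!
Formulas: every gate feeds at most one wire.
-/

set_option autoImplicit false

namespace Pool.Agent.NEGT

open Pool.Agent.NEG Pool.Agent.NEGS

variable {I G : Type}

/-- there is a special gate weakly below the gate -/
inductive Mixed (C : Circuit I G) : G → Prop
  | special (g : G) (h : ¬ C.Plain g) : Mixed C g
  | step (g : G) (i : Fin (C.arity g)) (g' : G) (h : C.src g i = Sum.inr g')
      (hg : Mixed C g') : Mixed C g

/-- the wire comes from a gate which has a special gate weakly below -/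
def MW (C : Circuit I G) (p : Σ g, Fin (C.arity g)) : Prop :=
  ∃ g', C.src p.1 p.2 = Sum.inr g' ∧ Mixed C g'

/-- the special gates and the gates with two mixed inputs -/
def SS (C : Circuit I G) (g : G) : Prop :=
  ¬ C.Plain g ∨ ∃ i j : Fin (C.arity g), i ≠ j ∧ MW C ⟨g, i⟩ ∧ MW C ⟨g, j⟩

theorem mixed_of_ss (C : Circuit I G) {g : G} (h : SS C g) : Mixed C g := by
  rcases h with h | ⟨i, j, _, ⟨g', h1, h2⟩, _⟩
  · exact Mixed.special g h
  · exact Mixed.step g i g' h1 h2

open Classical in
/-- there are at most as many gates with two mixed inputs as special gates -/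
theorem card_branch [Fintype G] (C : Circuit I G) (hF : IsFormula C) :
    (Finset.univ.filter (fun g => C.Plain g ∧ SS C g)).card ≤
      (Finset.univ.filter (fun g => ¬ C.Plain g)).card := by
  -- the mixed wires
  let Wm : Finset (Σ g, Fin (C.arity g)) := Finset.univ.filter (fun p => MW C p)
  let PM : Finset G := Finset.univ.filter (fun g => C.Plain g ∧ Mixed C g)
  let Br : Finset G := Finset.univ.filter (fun g => C.Plain g ∧ SS C g)
  let Sp : Finset G := Finset.univ.filter (fun g => ¬ C.Plain g)
  have hup : Wm.card ≤ PM.card + Sp.card := by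
    have h1 : ∀ p : Σ g, Fin (C.arity g), ∃ g' : G, p ∈ Wm → C.src p.1 p.2 = Sum.inr g' ∧
        Mixed C g' := by
      intro p
      by_cases hp : p ∈ Wm
      · obtain ⟨g', h⟩ := (Finset.mem_filter.mp hp).2
        exact ⟨g', fun _ => h⟩
      · exact ⟨p.1, fun h => absurd h hp⟩
    choose f hf using h1
    have h2 : Wm.card ≤ (PM ∪ Sp).card := by
      apply Finset.card_le_card_of_injOn f
      · intro p hp
        have h3 := (hf p (Finset.mem_coe.mp hp)).2
        rw [Finset.mem_coe, Finset.mem_union]
        by_cases h4 : C.Plain (f p)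
        · exact Or.inl (Finset.mem_filter.mpr ⟨Finset.mem_univ _, h4, h3⟩)
        · exact Or.inr (Finset.mem_filter.mpr ⟨Finset.mem_univ _, h4⟩)
      · intro p hp p' hp' hpp
        have h3 := (hf p (Finset.mem_coe.mp hp)).1
        have h4 := (hf p' (Finset.mem_coe.mp hp')).1
        rw [← hpp] at h4
        exact hF (f p) p p' h3 h4
    exact h2.trans (Finset.card_union_le _ _)
  have hdown : PM.card + Br.card ≤ Wm.card := by
    have h1 : ∀ g ∈ PM, ∃ p : Σ g, Fin (C.arity g), p ∈ Wm ∧ p.1 = g := by
      intro g hg
      obtain ⟨_, hp, hm⟩ := Finset.mem_filter.mp hg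
      cases hm with
      | special _ h => exact absurd hp h
      | step _ i g' h hg' =>
          exact ⟨⟨g, i⟩, Finset.mem_filter.mpr ⟨Finset.mem_univ _, g', h, hg'⟩, rfl⟩
    have h2 : ∀ g ∈ Br, g ∈ PM ∧ ∃ p p' : Σ g, Fin (C.arity g), p ≠ p' ∧ p ∈ Wm ∧ p' ∈ Wm ∧
        p.1 = g ∧ p'.1 = g := by
      intro g hg
      obtain ⟨_, hp, hm⟩ := Finset.mem_filter.mp hg
      refine ⟨Finset.mem_filter.mpr ⟨Finset.mem_univ _, hp, mixed_of_ss C hm⟩, ?_⟩
      rcases hm with h | ⟨i, j, hij, hi, hj⟩
      · exact absurd hp h
      · refine ⟨⟨g, i⟩, ⟨g, j⟩, ?_, Finset.mem_filter.mpr ⟨Finset.mem_univ _, hi⟩,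
          Finset.mem_filter.mpr ⟨Finset.mem_univ _, hj⟩, rfl, rfl⟩
        intro h
        rw [Sigma.mk.injEq] at h
        exact hij (eq_of_heq h.2)
    -- count the wires gate by gate
    have h3 : ∑ g ∈ PM, (Wm.filter (fun p => p.1 = g)).card ≤ Wm.card := by
      rw [← Finset.card_biUnion]
      · apply Finset.card_le_card
        intro p hp
        rw [Finset.mem_biUnion] at hp
        obtain ⟨g, _, hp⟩ := hp
        exact (Finset.mem_filter.mp hp).1
      · intro g _ g' _ hgg'
        rw [Function.onFun, Finset.disjoint_left]
        intro p hp hp'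
        exact hgg' ((Finset.mem_filter.mp hp).2.symm.trans (Finset.mem_filter.mp hp').2)
    have h4 : PM.card + Br.card ≤ ∑ g ∈ PM, (Wm.filter (fun p => p.1 = g)).card := by
      have h5 : ∑ g ∈ PM, (1 + if g ∈ Br then 1 else 0) = PM.card + Br.card := by
        rw [Finset.sum_add_distrib, Finset.sum_const, smul_eq_mul, mul_one]
        congr 1
        rw [← Finset.card_filter]
        congr 1
        ext g
        rw [Finset.mem_filter]
        exact ⟨fun h => h.2, fun h => ⟨(h2 g h).1, h⟩⟩
      rw [← h5]
      refine Finset.sum_le_sum (fun g hg => ?_)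
      by_cases hb : g ∈ Br
      · rw [if_pos hb]
        obtain ⟨_, p, p', hne, hp, hp', hpg, hpg'⟩ := h2 g hb
        have : 1 < (Wm.filter (fun p => p.1 = g)).card := by
          rw [Finset.one_lt_card]
          exact ⟨p, Finset.mem_filter.mpr ⟨hp, hpg⟩, p', Finset.mem_filter.mpr ⟨hp', hpg'⟩, hne⟩
        omega
      · rw [if_neg hb]
        obtain ⟨p, hp, hpg⟩ := h1 g hg
        have : 0 < (Wm.filter (fun p => p.1 = g)).card :=
          Finset.card_pos.mpr ⟨p, Finset.mem_filter.mpr ⟨hp, hpg⟩⟩
        omega
    omega
  change Br.card ≤ Sp.card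
  omega

open Classical in
/-- the number of dummy inputs -/
noncomputable def pad (C : Circuit I G) (g : G) : ℕ := if SS C g then 3 else 0

/-- the circuit with three constant dummy inputs at the gates of `SS` -/
noncomputable def padded (C : Circuit I G) : Circuit I G where
  arity g := C.arity g + pad C g
  src g := Fin.addCases (C.src g) (fun _ => Sum.inl (Sum.inr false))
  fn g f := C.fn g (fun i => f (Fin.castAdd _ i))
  out := C.out

theorem padded_src (C : Circuit I G) (g : G) (i : Fin (C.arity g)) :
    (padded C).src g (Fin.castAdd _ i) = C.src g i := by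
  simp only [padded]
  exact Fin.addCases_left i

theorem padded_src_gate (C : Circuit I G) (g : G) (i : Fin ((padded C).arity g)) (g' : G)
    (h : (padded C).src g i = Sum.inr g') : ∃ j : Fin (C.arity g), i = Fin.castAdd _ j ∧
      C.src g j = Sum.inr g' := by
  revert h
  change Fin.addCases (C.src g) (fun _ => Sum.inl (Sum.inr false)) i = Sum.inr g' → _
  refine Fin.addCases (fun j => ?_) (fun j => ?_) i
  · intro h
    rw [Fin.addCases_left] at h
    exact ⟨j, rfl, h⟩
  · intro h
    rw [Fin.addCases_right] at h
    cases h

theorem padded_plain (C : Circuit I G) (g : G) : (padded C).Plain g ↔ ¬ SS C g := by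
  constructor
  · intro h hs
    have h1 := h.1
    simp only [padded, pad] at h1
    rw [if_pos hs] at h1
    omega
  · intro hs
    have hp : C.Plain g := by
      by_contra hp
      exact hs (Or.inl hp)
    refine ⟨?_, ?_⟩
    · simp only [padded, pad]
      rw [if_neg hs]
      exact hp.1
    · intro a b hab h
      exact hp.2 _ _ (fun i hi => hab _ hi) h

theorem padded_consistent (C : Circuit I G) (x : I → Bool) (v : G → Bool) :
    (padded C).Consistent x v ↔ C.Consistent x v := by
  unfold Circuit.Consistent
  refine forall_congr' (fun g => ?_)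
  have h : (padded C).fn g (fun i => Circuit.node x v ((padded C).src g i)) =
      C.fn g (fun i => Circuit.node x v (C.src g i)) := by
    change C.fn g (fun i => Circuit.node x v ((padded C).src g (Fin.castAdd _ i))) = _
    congr 1
    funext i
    rw [padded_src]
  rw [h]

theorem padded_depth (C : Circuit I G) (d : ℕ) (h : C.DepthLE d) : (padded C).DepthLE d := by
  obtain ⟨lev, h1, h2⟩ := h
  refine ⟨lev, h1, fun g i g' hg => ?_⟩
  obtain ⟨j, _, hj⟩ := padded_src_gate C g i g' hg
  exact h2 g j g' hj

/-- the forced value of a gate without special gates below does not depend on the constants -/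
theorem fval_unmixed (C : Circuit I G) (l : Lev (padded C)) (z z' : G → Bool) (x : I → Bool)
    (n : ℕ) : ∀ g, l.lev g ≤ n → ¬ Mixed C g →
      fval (padded C) l z x g = fval (padded C) l z' x g := by
  induction n with
  | zero =>
      intro g hg hm
      have hp : (padded C).Plain g := (padded_plain C g).mpr (fun hs => hm (mixed_of_ss C hs))
      rw [fval_plain _ l z x g hp, fval_plain _ l z' x g hp]
      congr 1
      funext i
      cases h : (padded C).src g i with
      | inl a => cases a <;> rfl
      | inr g' =>
          have := l.lt g i g' h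
          omega
  | succ n ih =>
      intro g hg hm
      have hp : (padded C).Plain g := (padded_plain C g).mpr (fun hs => hm (mixed_of_ss C hs))
      rw [fval_plain _ l z x g hp, fval_plain _ l z' x g hp]
      congr 1
      funext i
      cases h : (padded C).src g i with
      | inl a => cases a <;> rfl
      | inr g' =>
          have hlt := l.lt g i g' h
          obtain ⟨j, _, hj⟩ := padded_src_gate C g i g' h
          simp only [Circuit.node]
          exact ih g' (by omega) (fun hm' => hm (Mixed.step g j g' hj hm'))

/-- the forced value of a gate depends on one constant only -/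
theorem fval_const (C : Circuit I G) (l : Lev (padded C)) (z : G → Bool)
    (n : ℕ) : ∀ g, l.lev g ≤ n → ∃ ε : Bool, ∀ x : I → Bool,
      fval (padded C) l z x g = fval (padded C) l (fun _ => ε) x g := by
  classical
  induction n with
  | zero =>
      intro g hg
      by_cases hp : (padded C).Plain g
      · refine ⟨false, fun x => ?_⟩
        rw [fval_plain _ l z x g hp, fval_plain _ l _ x g hp]
        congr 1
        funext i
        cases h : (padded C).src g i with
        | inl a => cases a <;> rfl
        | inr g' =>
            have := l.lt g i g' h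
            omega
      · refine ⟨z g, fun x => ?_⟩
        rw [fval_special _ l z x g hp, fval_special _ l _ x g hp]
  | succ n ih =>
      intro g hg
      by_cases hp : (padded C).Plain g
      · have hs := (padded_plain C g).mp hp
        -- the values of the inputs
        have hin : ∃ ε : Bool, ∀ (x : I → Bool) (i : Fin ((padded C).arity g)),
            Circuit.node x (fval (padded C) l z x) ((padded C).src g i) =
              Circuit.node x (fval (padded C) l (fun _ => ε) x) ((padded C).src g i) := by
          by_cases hm : ∃ (i : Fin (C.arity g)) (g' : G), C.src g i = Sum.inr g' ∧ Mixed C g'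
          · obtain ⟨i0, g0, hi0, hg0⟩ := hm
            have hlt0 := l.lt g (Fin.castAdd _ i0) g0 (by rw [padded_src]; exact hi0)
            obtain ⟨ε, hε⟩ := ih g0 (by omega)
            refine ⟨ε, fun x i => ?_⟩
            cases h : (padded C).src g i with
            | inl a => cases a <;> rfl
            | inr g' =>
                have hlt := l.lt g i g' h
                obtain ⟨j, _, hj⟩ := padded_src_gate C g i g' h
                simp only [Circuit.node]
                by_cases hm' : Mixed C g'
                · have hij : i0 = j := by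
                    by_contra hne
                    exact hs (Or.inr ⟨i0, j, hne, ⟨g0, hi0, hg0⟩, ⟨g', hj, hm'⟩⟩)
                  rw [← hij, hi0] at hj
                  rw [← Sum.inr.inj hj]
                  exact hε x
                · exact fval_unmixed C l z _ x n g' (by omega) hm'
          · refine ⟨false, fun x i => ?_⟩
            cases h : (padded C).src g i with
            | inl a => cases a <;> rfl
            | inr g' =>
                have hlt := l.lt g i g' h
                obtain ⟨j, _, hj⟩ := padded_src_gate C g i g' h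
                simp only [Circuit.node]
                exact fval_unmixed C l z _ x n g' (by omega) (fun hm' => hm ⟨j, g', hj, hm'⟩)
        obtain ⟨ε, hε⟩ := hin
        refine ⟨ε, fun x => ?_⟩
        rw [fval_plain _ l z x g hp, fval_plain _ l _ x g hp]
        congr 1
        funext i
        exact hε x i
      · refine ⟨z g, fun x => ?_⟩
        rw [fval_special _ l z x g hp, fval_special _ l _ x g hp]

theorem nv_const (C : Circuit I G) (l : Lev (padded C)) (z : G → Bool)
    (nd : (I ⊕ Bool) ⊕ G) : ∃ ε : Bool, ∀ x : I → Bool,
      nv (padded C) l z nd x = nv (padded C) l (fun _ => ε) nd x := by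
  cases nd with
  | inl a => exact ⟨false, fun x => by cases a <;> rfl⟩
  | inr g =>
      obtain ⟨ε, hε⟩ := fval_const C l z (l.lev g) g le_rfl
      exact ⟨ε, hε⟩

open Classical in
/-- the number of input wires of the padded formula -/
theorem card_sp_padded [Fintype G] (C : Circuit I G) (hF : IsFormula C) :
    Fintype.card (Σ s : {s // ¬ (padded C).Plain s}, Fin ((padded C).arity s)) ≤
      9 * Fintype.card (Σ s : {s // ¬ C.Plain s}, Fin (C.arity s)) := by
  rw [Fintype.card_sigma, Fintype.card_sigma]
  simp only [Fintype.card_fin]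
  have h1 : (∑ s : {s // ¬ (padded C).Plain s}, (padded C).arity s) =
      ∑ s ∈ Finset.univ.filter (fun s => ¬ (padded C).Plain s), (padded C).arity s :=
    (Finset.sum_subtype (Finset.univ.filter (fun s => ¬ (padded C).Plain s)) (by simp)
      (fun s => (padded C).arity s)).symm
  have h2 : (∑ s : {s // ¬ C.Plain s}, C.arity s) =
      ∑ s ∈ Finset.univ.filter (fun s => ¬ C.Plain s), C.arity s :=
    (Finset.sum_subtype (Finset.univ.filter (fun s => ¬ C.Plain s)) (by simp)
      (fun s => C.arity s)).symm
  rw [h1, h2]
  set Sp : Finset G := Finset.univ.filter (fun s => ¬ C.Plain s) with hSp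
  set Br : Finset G := Finset.univ.filter (fun g => C.Plain g ∧ SS C g) with hBr
  have h3 : Finset.univ.filter (fun s => ¬ (padded C).Plain s) ⊆ Sp ∪ Br := by
    intro s hs
    have hs' : SS C s := by
      by_contra hcon
      exact (Finset.mem_filter.mp hs).2 ((padded_plain C s).mpr hcon)
    rw [Finset.mem_union]
    by_cases hp : C.Plain s
    · exact Or.inr (Finset.mem_filter.mpr ⟨Finset.mem_univ _, hp, hs'⟩)
    · exact Or.inl (Finset.mem_filter.mpr ⟨Finset.mem_univ _, hp⟩)
  have har : ∀ s, (padded C).arity s ≤ C.arity s + 3 := by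
    intro s
    simp only [padded, pad]
    split_ifs <;> omega
  have hcard : Sp.card ≤ ∑ s ∈ Sp, C.arity s := by
    rw [Finset.card_eq_sum_ones]
    refine Finset.sum_le_sum (fun s hs => ?_)
    have hs' := (Finset.mem_filter.mp hs).2
    by_contra h0
    apply hs'
    refine ⟨by omega, fun a b _ h4 => ?_⟩
    have h5 : a = b := by
      funext i
      exact absurd i.2 (by omega)
    rw [← h5]
    exact h4
  have hbr : Br.card ≤ Sp.card := card_branch C hF
  have h4 : ∑ s ∈ Sp, (padded C).arity s ≤ ∑ s ∈ Sp, C.arity s + 3 * Sp.card := by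
    calc ∑ s ∈ Sp, (padded C).arity s ≤ ∑ s ∈ Sp, (C.arity s + 3) :=
          Finset.sum_le_sum (fun s _ => har s)
      _ = ∑ s ∈ Sp, C.arity s + 3 * Sp.card := by
          rw [Finset.sum_add_distrib, Finset.sum_const, smul_eq_mul, Nat.mul_comm]
  have h5 : ∑ s ∈ Br, (padded C).arity s ≤ 5 * Br.card := by
    calc ∑ s ∈ Br, (padded C).arity s ≤ ∑ _s ∈ Br, 5 := by
          refine Finset.sum_le_sum (fun s hs => ?_)
          have h6 := (Finset.mem_filter.mp hs).2.1.1
          have h7 := har s
          omega
      _ = 5 * Br.card := by rw [Finset.sum_const, smul_eq_mul, Nat.mul_comm]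
  calc ∑ s ∈ Finset.univ.filter (fun s => ¬ (padded C).Plain s), (padded C).arity s
      ≤ ∑ s ∈ Sp ∪ Br, (padded C).arity s :=
        Finset.sum_le_sum_of_subset h3
    _ ≤ ∑ s ∈ Sp, (padded C).arity s + ∑ s ∈ Br, (padded C).arity s := by
        rw [← Finset.sum_union_inter]
        exact Nat.le_add_right _ _
    _ ≤ 9 * ∑ s ∈ Sp, C.arity s := by omega

end Pool.Agent.NEGT
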