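import Pool.Agent.Lib.MP_0087d5_lc.NEGV.ChainG

/-!
One block: if the inputs of the special gates and the output rarely change when a random
perfect matching of the block is completed, then the circuit cannot see almost all of the
colourings.
-/

set_option autoImplicit false

namespace Pool.Agent.NEGT

open Pool.Agent.NEG Pool.Agent.NEGS Pool.Agent.NEGV

section Slots

variable {I G : Type}

/-- the inputs of the special gates, and the output -/
abbrev Slot (C : Circuit I G) : Type := Option (Σ s : {s // ¬ C.Plain s}, Fin (C.arity s))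

/-- the node of a slot -/
def nodS (C : Circuit I G) : Slot C → (I ⊕ Bool) ⊕ G
  | some p => C.src p.1 p.2
  | none => .inr C.out

/-- the values of a slot differ at the two inputs -/
def Moves (C : Circuit I G) (x y : I → Bool) (v w : G → Bool) : Prop :=
  ∃ k : Slot C, Circuit.node x v (nodS C k) ≠ Circuit.node y w (nodS C k)

theorem special_eq (C : Circuit I G) {x y : I → Bool} {v w : G → Bool}
    (hv : C.Consistent x v) (hw : C.Consistent y w) (h : ¬ Moves C x y v w) (s : G)
    (hs : ¬ C.Plain s) : v s = w s := by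
  rw [hv s, hw s]
  congr 1
  funext i
  by_contra hne
  exact h ⟨some ⟨⟨s, hs⟩, i⟩, hne⟩

theorem nv_true (C : Circuit I G) (l : Lev C) {x : I → Bool} {v z : G → Bool}
    (hv : C.Consistent x v) (hz : ∀ s, ¬ C.Plain s → z s = v s) (nd : (I ⊕ Bool) ⊕ G) :
    nv C l z nd x = Circuit.node x v nd := by
  unfold nv
  cases nd with
  | inl a => cases a <;> rfl
  | inr g => exact fval_true C l z x v hv l.top (fun s hs _ => hz s hs) g (l.le_top g)

/-- an input where nothing moves has the same forced values -/
theorem nv_eq_of_not_moves (C : Circuit I G) (l : Lev C) {x y : I → Bool} {v w : G → Bool}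
    (hv : C.Consistent x v) (hw : C.Consistent y w) (h : ¬ Moves C x y v w) (k : Slot C) :
    nv C l w (nodS C k) x = nv C l w (nodS C k) y := by
  rw [nv_true C l hv (fun s hs => (special_eq C hv hw h s hs).symm),
    nv_true C l hw (fun _ _ => rfl)]
  by_contra hne
  exact h ⟨k, hne⟩

/-- an input with the same forced values has the same output -/
theorem out_of_nv (C : Circuit I G) (l : Lev C) {x y : I → Bool} {v w : G → Bool}
    (hv : C.Consistent x v) (hw : C.Consistent y w)
    (h : ∀ k : Slot C, nv C l w (nodS C k) x = nv C l w (nodS C k) y) : v C.out = w C.out := by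
  refine (out_eq C l y x w v w hw hv (fun _ _ => rfl) (fun s i hs => ?_) ?_).symm
  · exact (h (some ⟨⟨s, hs⟩, i⟩)).symm
  · exact (h none).symm

end Slots

section Local

variable {E L q : ℕ} {𝒜 : Set ((Fin q × Fin q → Bool) → Prop)} {G : Type}

open Classical in
/-- the dichotomy for a monotone function of the circuit which is one at half of the
perfect matchings of the block -/
theorem slot_dich (h𝒜 : IsApp E q 𝒜) [Fintype G] (C : Circuit (Fin L × (Fin q × Fin q)) G)
    (l : Lev C) (hcard : Fintype.card G ≤ 2 ^ E) (z : G → Bool)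
    (nd : ((Fin L × (Fin q × Fin q)) ⊕ Bool) ⊕ G) (j : Fin L) (t : Fin L → Equiv.Perm (Fin q))
    (hpos : q.factorial ≤ 2 * (Finset.univ.filter (fun s : Equiv.Perm (Fin q) =>
      nv C l z nd (pl (sbG j t) (xin s)) = true)).card) :
    2 ^ (3 * E) * (Finset.univ.filter (fun c : Fin q ⊕ Fin q → Bool =>
        nv C l z nd (pl (sbG j t) (yin c)) = false)).card ≤ 2 ^ (2 * q) := by
  have hfac : (0 : ℝ) < q.factorial := by exact_mod_cast Nat.factorial_pos q
  have hgap : ∀ a : (sysOf h𝒜).A, (({p : Equiv.Perm (Fin q) |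
      (sysOf h𝒜).ev a (xin p) = true} : Set _).ncard : ℝ) ≤ (q.factorial : ℝ) / 8 ∨
      ∀ p, (sysOf h𝒜).ev a (yin p) = true := by
    intro a
    rcases h𝒜.dich a.1 a.2 with h | h
    · right
      intro p
      exact decide_eq_true (h _)
    · left
      have e : ({p : Equiv.Perm (Fin q) | (sysOf h𝒜).ev a (xin p) = true} : Set _) =
          ((Finset.univ.filter (fun σ : Equiv.Perm (Fin q) => a.1 (xin σ))) : Set _) := by
        ext p
        simp only [Set.mem_ofPred_eq, Finset.coe_filter, Finset.mem_univ, true_and]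
        exact decide_eq_true_iff
      rw [e, Set.ncard_coe_finset, le_div_iff₀ (by norm_num), mul_comm]
      exact_mod_cast h
  have hsR : (Fintype.card G : ℝ) ≤ 2 ^ E := by
    exact_mod_cast hcard
  rcases node_dich (sysOf h𝒜) C l z (sbG j t) nd ((q.factorial : ℝ) / 8) hgap with h | h
  · exfalso
    have h1 : ({p : Equiv.Perm (Fin q) | nv C l z nd (pl (sbG j t) (xin p)) = true} : Set _) =
        ((Finset.univ.filter (fun σ : Equiv.Perm (Fin q) =>
          nv C l z nd (pl (sbG j t) (xin σ)) = true)) : Set _) := by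
      ext p
      simp only [Set.mem_ofPred_eq, Finset.coe_filter, Finset.mem_univ, true_and]
    rw [h1, Set.ncard_coe_finset] at h
    have h4 : (q.factorial : ℝ) ≤ 2 * ((Finset.univ.filter (fun s : Equiv.Perm (Fin q) =>
      nv C l z nd (pl (sbG j t) (xin s)) = true)).card : ℝ) := by
      exact_mod_cast hpos
    have h6 : (Fintype.card G : ℝ) * ((q.factorial : ℝ) / (8 * 2 ^ E)) ≤
        (q.factorial : ℝ) / 8 := by
      calc (Fintype.card G : ℝ) * ((q.factorial : ℝ) / (8 * 2 ^ E))
          ≤ 2 ^ E * ((q.factorial : ℝ) / (8 * 2 ^ E)) := by gcongr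
        _ = (q.factorial : ℝ) / 8 := by field_simp
    linarith
  · have h1 : ({p : Fin q ⊕ Fin q → Bool | nv C l z nd
        (pl (sbG j t) (yin p)) = false} : Set _) =
        ((Finset.univ.filter (fun c : Fin q ⊕ Fin q → Bool =>
          nv C l z nd (pl (sbG j t) (yin c)) = false)) : Set _) := by
      ext p
      simp only [Set.mem_ofPred_eq, Finset.coe_filter, Finset.mem_univ, true_and]
    rw [h1, Set.ncard_coe_finset] at h
    have h2 : (Fintype.card G : ℝ) * ((2 : ℝ) ^ (2 * q) / 2 ^ (4 * E)) ≤
        (2 : ℝ) ^ (2 * q) / 2 ^ (3 * E) := by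
      calc (Fintype.card G : ℝ) * ((2 : ℝ) ^ (2 * q) / 2 ^ (4 * E))
          ≤ 2 ^ E * ((2 : ℝ) ^ (2 * q) / 2 ^ (4 * E)) := by gcongr
        _ = (2 : ℝ) ^ (2 * q) / 2 ^ (3 * E) := by
            rw [show 4 * E = E + 3 * E by ring, pow_add]
            field_simp
    have h3 := h.trans h2
    rw [le_div_iff₀ (by positivity), mul_comm] at h3
    exact_mod_cast h3

open Classical in
/-- few colourings of a good block are seen -/
theorem local_avg (h𝒜 : IsApp E q 𝒜) [Fintype G] (C : Circuit (Fin L × (Fin q × Fin q)) G)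
    (l : Lev C) (hcard : Fintype.card G ≤ 2 ^ E)
    (vv : (Fin L × (Fin q × Fin q) → Bool) → G → Bool) (hvv : ∀ x, C.Consistent x (vv x))
    (j : Fin L) (t : Fin L → Equiv.Perm (Fin q))
    (hgood : 2 * (Finset.univ.filter (fun s : Equiv.Perm (Fin q) =>
      Moves C (pl (sbG j t) (xin s)) (pl (sbG j t) (fun _ => true))
        (vv (pl (sbG j t) (xin s))) (vv (pl (sbG j t) (fun _ => true))))).card ≤ q.factorial) :
    2 ^ (3 * E) * (Finset.univ.filter (fun c : Fin q ⊕ Fin q → Bool =>
        vv (pl (sbG j t) (yin c)) C.out ≠ vv (pl (sbG j t) (fun _ => true)) C.out)).card ≤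
      Fintype.card (Slot C) * 2 ^ (2 * q) := by
  set y : Fin L × (Fin q × Fin q) → Bool := pl (sbG j t) (fun _ => true) with hy
  let u : Slot C → (Fin L × (Fin q × Fin q) → Bool) → Bool := fun k X =>
    nv C l (vv y) (nodS C k) X
  have hu : ∀ k x x', (∀ e, x e = true → x' e = true) → u k x = true → u k x' = true := by
    intro k x x' hxx hx
    exact nv_mono C l _ _ hxx hx
  have hdich : ∀ k : Slot C, u k y = true →
      2 ^ (3 * E) * (Finset.univ.filter (fun c : Fin q ⊕ Fin q → Bool =>
        u k (pl (sbG j t) (yin c)) = false)).card ≤ 2 ^ (2 * q) := by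
    intro k hk
    refine slot_dich h𝒜 C l hcard (vv y) (nodS C k) j t ?_
    have h1 := Finset.card_filter_add_card_filter_not (s := (Finset.univ : Finset (Equiv.Perm (Fin q))))
      (fun s : Equiv.Perm (Fin q) => Moves C (pl (sbG j t) (xin s)) y
        (vv (pl (sbG j t) (xin s))) (vv y))
    rw [Finset.card_univ, Fintype.card_perm, Fintype.card_fin] at h1
    have h2 : (Finset.univ.filter (fun s : Equiv.Perm (Fin q) =>
        ¬ Moves C (pl (sbG j t) (xin s)) y (vv (pl (sbG j t) (xin s))) (vv y))).card ≤
        (Finset.univ.filter (fun s : Equiv.Perm (Fin q) =>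
          nv C l (vv y) (nodS C k) (pl (sbG j t) (xin s)) = true)).card := by
      apply Finset.card_le_card
      intro s hs
      rw [Finset.mem_filter] at hs ⊢
      refine ⟨Finset.mem_univ _, ?_⟩
      rw [nv_eq_of_not_moves C l (hvv _) (hvv _) hs.2 k]
      exact hk
    omega
  have hsub : (Finset.univ.filter (fun c : Fin q ⊕ Fin q → Bool =>
        vv (pl (sbG j t) (yin c)) C.out ≠ vv y C.out)) ⊆
      Finset.univ.biUnion (fun k : Slot C => Finset.univ.filter
        (fun c : Fin q ⊕ Fin q → Bool => u k y = true ∧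
          u k (pl (sbG j t) (yin c)) = false)) := by
    intro c hc
    rw [Finset.mem_filter] at hc
    rw [Finset.mem_biUnion]
    by_contra hcon
    push Not at hcon
    apply hc.2
    refine out_of_nv C l (hvv _) (hvv _) (fun k => ?_)
    have hmon : u k (pl (sbG j t) (yin c)) = true → u k y = true := by
      apply hu
      intro e he
      exact pl_mono _ (fun _ _ => rfl) e he
    have h1 := hcon k (Finset.mem_univ _)
    rw [Finset.mem_filter] at h1
    change u k (pl (sbG j t) (yin c)) = u k y
    cases h2 : u k y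
    · cases h3 : u k (pl (sbG j t) (yin c))
      · rfl
      · rw [hmon h3] at h2
        exact absurd h2 (by decide)
    · cases h3 : u k (pl (sbG j t) (yin c))
      · exact absurd ⟨Finset.mem_univ _, h2, h3⟩ h1
      · rfl
  calc 2 ^ (3 * E) * (Finset.univ.filter (fun c : Fin q ⊕ Fin q → Bool =>
        vv (pl (sbG j t) (yin c)) C.out ≠ vv y C.out)).card
      ≤ 2 ^ (3 * E) * ∑ k : Slot C, (Finset.univ.filter
        (fun c : Fin q ⊕ Fin q → Bool => u k y = true ∧
          u k (pl (sbG j t) (yin c)) = false)).card :=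
        Nat.mul_le_mul_left _ ((Finset.card_le_card hsub).trans Finset.card_biUnion_le)
    _ = ∑ k : Slot C, 2 ^ (3 * E) * (Finset.univ.filter
        (fun c : Fin q ⊕ Fin q → Bool => u k y = true ∧
          u k (pl (sbG j t) (yin c)) = false)).card := by rw [Finset.mul_sum]
    _ ≤ ∑ _k : Slot C, 2 ^ (2 * q) := by
        refine Finset.sum_le_sum (fun k _ => ?_)
        by_cases hk : u k y = true
        · refine (Nat.mul_le_mul_left _ (Finset.card_le_card ?_)).trans (hdich k hk)
          intro c hc
          rw [Finset.mem_filter] at hc ⊢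
          exact ⟨hc.1, hc.2.2⟩
        · have : (Finset.univ.filter (fun c : Fin q ⊕ Fin q → Bool =>
              u k y = true ∧ u k (pl (sbG j t) (yin c)) = false)) = ∅ := by
            rw [Finset.filter_eq_empty_iff]
            intro c _ h
            exact hk h.1
          rw [this, Finset.card_empty, Nat.mul_zero]
          exact Nat.zero_le _
    _ = Fintype.card (Slot C) * 2 ^ (2 * q) := by
        rw [Finset.sum_const, Finset.card_univ, smul_eq_mul]

end Local

end Pool.Agent.NEGT
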