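import Pool.Agent.Lib.MP_0087d5_lc.NEGT.Local

/-!
One block, for an arbitrary embedding of the block: if the inputs of the special gates and the
output rarely change when a random perfect matching of the block is completed, then the circuit
cannot see almost all of the colourings.
-/

set_option autoImplicit false

namespace Pool.Agent.NEGT

open Pool.Agent.NEG Pool.Agent.NEGS Pool.Agent.NEGV

section LocalJ

variable {E q : ℕ} {𝒜 : Set ((Fin q × Fin q → Bool) → Prop)} {J G : Type}

open Classical in
/-- the dichotomy for a monotone function of the circuit which is one at half of the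
perfect matchings of the block -/
theorem slot_dichJ (h𝒜 : IsApp E q 𝒜) [Fintype G] (C : Circuit J G)
    (l : Lev C) (hcard : Fintype.card G ≤ 2 ^ E) (z : G → Bool)
    (nd : (J ⊕ Bool) ⊕ G) (f : J → (Fin q × Fin q) ⊕ Bool)
    (hpos : q.factorial ≤ 2 * (Finset.univ.filter (fun s : Equiv.Perm (Fin q) =>
      nv C l z nd (pl f (xin s)) = true)).card) :
    2 ^ (3 * E) * (Finset.univ.filter (fun c : Fin q ⊕ Fin q → Bool =>
        nv C l z nd (pl f (yin c)) = false)).card ≤ 2 ^ (2 * q) := by
  have hfac : (0 : ℝ) < q.factorial := by exact_mod_cast Nat.factorial_pos q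
  have hgap : ∀ a : (sysOf h𝒜).A, (({p : Equiv.Perm (Fin q) |
      (sysOf h𝒜).ev a (xin p) = true} : Set _).ncard : ℝ) ≤ (q.factorial : ℝ) / 8 ∨
      ∀ p, (sysOf h𝒜).ev a (yin p) = true := by
    intro a
    rcases h𝒜.dich a.1 a.2 with h | h
    · right
      intro p
      exact decide_eq_true (h _)
    · left
      have e : ({p : Equiv.Perm (Fin q) | (sysOf h𝒜).ev a (xin p) = true} : Set _) =
          ((Finset.univ.filter (fun σ : Equiv.Perm (Fin q) => a.1 (xin σ))) : Set _) := by
        ext p
        simp only [Set.mem_ofPred_eq, Finset.coe_filter, Finset.mem_univ, true_and]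
        exact decide_eq_true_iff
      rw [e, Set.ncard_coe_finset, le_div_iff₀ (by norm_num), mul_comm]
      exact_mod_cast h
  have hsR : (Fintype.card G : ℝ) ≤ 2 ^ E := by
    exact_mod_cast hcard
  rcases node_dich (sysOf h𝒜) C l z f nd ((q.factorial : ℝ) / 8) hgap with h | h
  · exfalso
    have h1 : ({p : Equiv.Perm (Fin q) | nv C l z nd (pl f (xin p)) = true} : Set _) =
        ((Finset.univ.filter (fun σ : Equiv.Perm (Fin q) =>
          nv C l z nd (pl f (xin σ)) = true)) : Set _) := by
      ext p
      simp only [Set.mem_ofPred_eq, Finset.coe_filter, Finset.mem_univ, true_and]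
    rw [h1, Set.ncard_coe_finset] at h
    have h4 : (q.factorial : ℝ) ≤ 2 * ((Finset.univ.filter (fun s : Equiv.Perm (Fin q) =>
      nv C l z nd (pl f (xin s)) = true)).card : ℝ) := by
      exact_mod_cast hpos
    have h6 : (Fintype.card G : ℝ) * ((q.factorial : ℝ) / (8 * 2 ^ E)) ≤
        (q.factorial : ℝ) / 8 := by
      calc (Fintype.card G : ℝ) * ((q.factorial : ℝ) / (8 * 2 ^ E))
          ≤ 2 ^ E * ((q.factorial : ℝ) / (8 * 2 ^ E)) := by gcongr
        _ = (q.factorial : ℝ) / 8 := by field_simp
    linarith
  · have h1 : ({p : Fin q ⊕ Fin q → Bool | nv C l z nd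
        (pl f (yin p)) = false} : Set _) =
        ((Finset.univ.filter (fun c : Fin q ⊕ Fin q → Bool =>
          nv C l z nd (pl f (yin c)) = false)) : Set _) := by
      ext p
      simp only [Set.mem_ofPred_eq, Finset.coe_filter, Finset.mem_univ, true_and]
    rw [h1, Set.ncard_coe_finset] at h
    have h2 : (Fintype.card G : ℝ) * ((2 : ℝ) ^ (2 * q) / 2 ^ (4 * E)) ≤
        (2 : ℝ) ^ (2 * q) / 2 ^ (3 * E) := by
      calc (Fintype.card G : ℝ) * ((2 : ℝ) ^ (2 * q) / 2 ^ (4 * E))
          ≤ 2 ^ E * ((2 : ℝ) ^ (2 * q) / 2 ^ (4 * E)) := by gcongr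
        _ = (2 : ℝ) ^ (2 * q) / 2 ^ (3 * E) := by
            rw [show 4 * E = E + 3 * E by ring, pow_add]
            field_simp
    have h3 := h.trans h2
    rw [le_div_iff₀ (by positivity), mul_comm] at h3
    exact_mod_cast h3

open Classical in
/-- few colourings of a good block are seen -/
theorem local_avgJ (h𝒜 : IsApp E q 𝒜) [Fintype G] (C : Circuit J G)
    (l : Lev C) (hcard : Fintype.card G ≤ 2 ^ E)
    (vv : (J → Bool) → G → Bool) (hvv : ∀ x, C.Consistent x (vv x))
    (f : J → (Fin q × Fin q) ⊕ Bool)
    (hgood : 2 * (Finset.univ.filter (fun s : Equiv.Perm (Fin q) =>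
      Moves C (pl f (xin s)) (pl f (fun _ => true))
        (vv (pl f (xin s))) (vv (pl f (fun _ => true))))).card ≤ q.factorial) :
    2 ^ (3 * E) * (Finset.univ.filter (fun c : Fin q ⊕ Fin q → Bool =>
        vv (pl f (yin c)) C.out ≠ vv (pl f (fun _ => true)) C.out)).card ≤
      Fintype.card (Slot C) * 2 ^ (2 * q) := by
  set y : J → Bool := pl f (fun _ => true) with hy
  let u : Slot C → (J → Bool) → Bool := fun k X =>
    nv C l (vv y) (nodS C k) X
  have hu : ∀ k x x', (∀ e, x e = true → x' e = true) → u k x = true → u k x' = true := by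
    intro k x x' hxx hx
    exact nv_mono C l _ _ hxx hx
  have hdich : ∀ k : Slot C, u k y = true →
      2 ^ (3 * E) * (Finset.univ.filter (fun c : Fin q ⊕ Fin q → Bool =>
        u k (pl f (yin c)) = false)).card ≤ 2 ^ (2 * q) := by
    intro k hk
    refine slot_dichJ h𝒜 C l hcard (vv y) (nodS C k) f ?_
    have h1 := Finset.card_filter_add_card_filter_not (s := (Finset.univ : Finset (Equiv.Perm (Fin q))))
      (fun s : Equiv.Perm (Fin q) => Moves C (pl f (xin s)) y
        (vv (pl f (xin s))) (vv y))
    rw [Finset.card_univ, Fintype.card_perm, Fintype.card_fin] at h1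
    have h2 : (Finset.univ.filter (fun s : Equiv.Perm (Fin q) =>
        ¬ Moves C (pl f (xin s)) y (vv (pl f (xin s))) (vv y))).card ≤
        (Finset.univ.filter (fun s : Equiv.Perm (Fin q) =>
          nv C l (vv y) (nodS C k) (pl f (xin s)) = true)).card := by
      apply Finset.card_le_card
      intro s hs
      rw [Finset.mem_filter] at hs ⊢
      refine ⟨Finset.mem_univ _, ?_⟩
      rw [nv_eq_of_not_moves C l (hvv _) (hvv _) hs.2 k]
      exact hk
    omega
  have hsub : (Finset.univ.filter (fun c : Fin q ⊕ Fin q → Bool =>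
        vv (pl f (yin c)) C.out ≠ vv y C.out)) ⊆
      Finset.univ.biUnion (fun k : Slot C => Finset.univ.filter
        (fun c : Fin q ⊕ Fin q → Bool => u k y = true ∧
          u k (pl f (yin c)) = false)) := by
    intro c hc
    rw [Finset.mem_filter] at hc
    rw [Finset.mem_biUnion]
    by_contra hcon
    push Not at hcon
    apply hc.2
    refine out_of_nv C l (hvv _) (hvv _) (fun k => ?_)
    have hmon : u k (pl f (yin c)) = true → u k y = true := by
      apply hu
      intro e he
      exact pl_mono _ (fun _ _ => rfl) e he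
    have h1 := hcon k (Finset.mem_univ _)
    rw [Finset.mem_filter] at h1
    change u k (pl f (yin c)) = u k y
    cases h2 : u k y
    · cases h3 : u k (pl f (yin c))
      · rfl
      · rw [hmon h3] at h2
        exact absurd h2 (by decide)
    · cases h3 : u k (pl f (yin c))
      · exact absurd ⟨Finset.mem_univ _, h2, h3⟩ h1
      · rfl
  calc 2 ^ (3 * E) * (Finset.univ.filter (fun c : Fin q ⊕ Fin q → Bool =>
        vv (pl f (yin c)) C.out ≠ vv y C.out)).card
      ≤ 2 ^ (3 * E) * ∑ k : Slot C, (Finset.univ.filter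
        (fun c : Fin q ⊕ Fin q → Bool => u k y = true ∧
          u k (pl f (yin c)) = false)).card :=
        Nat.mul_le_mul_left _ ((Finset.card_le_card hsub).trans Finset.card_biUnion_le)
    _ = ∑ k : Slot C, 2 ^ (3 * E) * (Finset.univ.filter
        (fun c : Fin q ⊕ Fin q → Bool => u k y = true ∧
          u k (pl f (yin c)) = false)).card := by rw [Finset.mul_sum]
    _ ≤ ∑ _k : Slot C, 2 ^ (2 * q) := by
        refine Finset.sum_le_sum (fun k _ => ?_)
        by_cases hk : u k y = true
        · refine (Nat.mul_le_mul_left _ (Finset.card_le_card ?_)).trans (hdich k hk)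
          intro c hc
          rw [Finset.mem_filter] at hc ⊢
          exact ⟨hc.1, hc.2.2⟩
        · have : (Finset.univ.filter (fun c : Fin q ⊕ Fin q → Bool =>
              u k y = true ∧ u k (pl f (yin c)) = false)) = ∅ := by
            rw [Finset.filter_eq_empty_iff]
            intro c _ h
            exact hk h.1
          rw [this, Finset.card_empty, Nat.mul_zero]
          exact Nat.zero_le _
    _ = Fintype.card (Slot C) * 2 ^ (2 * q) := by
        rw [Finset.sum_const, Finset.card_univ, smul_eq_mul]

end LocalJ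

end Pool.Agent.NEGT
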