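import Mathlib

/-!
A finite probability lemma: a value chosen by a vector of conditions which rarely changes.
-/

set_option autoImplicit false

namespace Pool.Agent.NEGT

open Classical in
/-- the indicator of a proposition -/
noncomputable def ind (p : Prop) : ℝ := if p then 1 else 0

theorem ind_pos {p : Prop} (h : p) : ind p = 1 := by
  unfold ind
  rw [if_pos h]

theorem ind_neg {p : Prop} (h : ¬ p) : ind p = 0 := by
  unfold ind
  rw [if_neg h]

theorem ind_nonneg (p : Prop) : 0 ≤ ind p := by
  by_cases h : p
  · rw [ind_pos h]; norm_num
  · rw [ind_neg h]

theorem ind_le_one (p : Prop) : ind p ≤ 1 := by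
  by_cases h : p
  · rw [ind_pos h]
  · rw [ind_neg h]; norm_num

theorem ind_mono {p q : Prop} (h : p → q) : ind p ≤ ind q := by
  by_cases hp : p
  · rw [ind_pos hp, ind_pos (h hp)]
  · rw [ind_neg hp]
    exact ind_nonneg q

/-- the average of a function on a finite type -/
noncomputable def av {A : Type} [Fintype A] (f : A → ℝ) : ℝ := (∑ s, f s) / Fintype.card A

section Av

variable {A B : Type} [Fintype A] [Fintype B]

theorem av_mono {f g : A → ℝ} (h : ∀ s, f s ≤ g s) : av f ≤ av g := by
  unfold av
  exact div_le_div_of_nonneg_right (Finset.sum_le_sum (fun s _ => h s)) (Nat.cast_nonneg _)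

theorem av_nonneg {f : A → ℝ} (h : ∀ s, 0 ≤ f s) : 0 ≤ av f := by
  unfold av
  exact div_nonneg (Finset.sum_nonneg (fun s _ => h s)) (Nat.cast_nonneg _)

theorem av_add (f g : A → ℝ) : av (fun s => f s + g s) = av f + av g := by
  unfold av
  rw [Finset.sum_add_distrib, add_div]

theorem av_sub (f g : A → ℝ) : av (fun s => f s - g s) = av f - av g := by
  unfold av
  rw [Finset.sum_sub_distrib, sub_div]

theorem av_mul_left (a : ℝ) (f : A → ℝ) : av (fun s => a * f s) = a * av f := by
  unfold av
  rw [← Finset.mul_sum, mul_div_assoc]

theorem av_mul_right (a : ℝ) (f : A → ℝ) : av (fun s => f s * a) = av f * a := by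
  unfold av
  rw [← Finset.sum_mul]
  ring

theorem av_const [Nonempty A] (a : ℝ) : av (fun _ : A => a) = a := by
  unfold av
  rw [Finset.sum_const, Finset.card_univ, nsmul_eq_mul, mul_div_assoc, mul_comm,
    div_mul_cancel₀]
  exact Nat.cast_ne_zero.mpr Fintype.card_ne_zero

theorem av_le_one [Nonempty A] {f : A → ℝ} (h : ∀ s, f s ≤ 1) : av f ≤ 1 :=
  (av_mono h).trans (le_of_eq (av_const 1))

theorem av_comm (F : A → B → ℝ) :
    av (fun s => av (fun c => F s c)) = av (fun c => av (fun s => F s c)) := by
  unfold av
  simp only [← Finset.sum_div]
  rw [Finset.sum_comm, div_div, div_div, mul_comm]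

end Av

section Main

variable {A B 𝒱 : Type} [Fintype A] [Fintype B] [Nonempty A] [Nonempty B]

/-- the probability lemma -/
theorem prob_step (V : A → 𝒱) (V' : B → 𝒱) (U : A → Bool) (U' : B → Bool)
    (u : 𝒱 → A → Bool) (u' : 𝒱 → B → Bool) (hU : ∀ s, U s = u (V s) s)
    (hU' : ∀ c, U' c = u' (V' c) c) {κ ε : ℝ} (hκ : 0 ≤ κ) (hκ2 : κ ≤ 1 / 2) (hε : 0 ≤ ε)
    (hε1 : ε ≤ 1)
    (hamp : ∀ v, av (fun s => ind (u v s = true)) ≤
        κ * av (fun c => ind (u' v c = true)) + ε ∨
      av (fun c => ind (u' v c = false)) ≤ ε) :
    av (fun s => av (fun c => ind (V s = V' c ∧ U s ≠ U' c))) ≤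
      (1 + 8 * κ) * (av (fun c => ind (U' c = true)) - av (fun s => ind (U s = true))) +
      (1 + 36 * κ) * av (fun s => av (fun c => ind (V s ≠ V' c))) + 10 * ε := by
  set η : ℝ := av (fun s => av (fun c => ind (V s ≠ V' c))) with hη
  set δ : ℝ := av (fun c => ind (U' c = true)) - av (fun s => ind (U s = true)) with hδ
  set D : ℝ := av (fun s => av (fun c => ind (V s = V' c ∧ U s = true ∧ U' c = false))) with hD
  let β : 𝒱 → ℝ := fun v => av (fun c => ind (V' c = v ∧ U' c = false))
  have hβ0 : ∀ v, 0 ≤ β v := fun v => av_nonneg (fun c => ind_nonneg _)
  have hβ1 : ∀ v, β v ≤ 1 := fun v => av_le_one (fun c => ind_le_one _)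
  have hη0 : 0 ≤ η := av_nonneg (fun s => av_nonneg (fun c => ind_nonneg _))
  -- step 1
  have h1 : av (fun s => av (fun c => ind (V s = V' c ∧ U s ≠ U' c))) ≤ δ + η + 2 * D := by
    have hpt : ∀ s c, ind (V s = V' c ∧ U s ≠ U' c) ≤
        (ind (U' c = true) - ind (U s = true)) + ind (V s ≠ V' c) +
          2 * ind (V s = V' c ∧ U s = true ∧ U' c = false) := by
      intro s c
      by_cases hV : V s = V' c
      · rw [ind_neg (p := V s ≠ V' c) (by simpa using hV)]
        cases h2 : U s <;> cases h3 : U' c
        · rw [ind_neg (by simp), ind_neg (by simp), ind_neg (by simp)]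
          norm_num
        · rw [ind_pos ⟨hV, by simp⟩, ind_pos rfl, ind_neg (by simp), ind_neg (by simp)]
          norm_num
        · rw [ind_pos ⟨hV, by simp⟩, ind_neg (by simp), ind_pos rfl, ind_pos ⟨hV, rfl, rfl⟩]
          norm_num
        · rw [ind_neg (by simp), ind_pos rfl, ind_neg (by simp)]
          norm_num
      · rw [ind_neg (p := V s = V' c ∧ U s ≠ U' c) (fun h => hV h.1), ind_pos hV,
          ind_neg (p := V s = V' c ∧ U s = true ∧ U' c = false) (fun h => hV h.1)]
        have h2 := ind_nonneg (U' c = true)
        have h3 := ind_le_one (U s = true)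
        linarith
    calc av (fun s => av (fun c => ind (V s = V' c ∧ U s ≠ U' c)))
        ≤ av (fun s => av (fun c => (ind (U' c = true) - ind (U s = true)) +
            ind (V s ≠ V' c) + 2 * ind (V s = V' c ∧ U s = true ∧ U' c = false))) :=
          av_mono (fun s => av_mono (fun c => hpt s c))
      _ = δ + η + 2 * D := by
          simp only [av_add, av_sub, av_mul_left, av_const]
          rfl
  -- step 2
  have h2 : ∀ v0, D ≤ 2 * ε + 2 * κ * (1 - β v0) := by
    intro v0
    let T2 : 𝒱 → Prop := fun v => av (fun c => ind (u' v c = false)) ≤ ε
    have hsplit : D ≤ av (fun s => av (fun c =>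
          ind (V s = V' c ∧ U s = true ∧ U' c = false ∧ T2 (V s)))) +
        av (fun s => av (fun c =>
          ind (V s = V' c ∧ U s = true ∧ U' c = false ∧ ¬ T2 (V s)))) := by
      rw [← av_add]
      refine av_mono (fun s => ?_)
      rw [← av_add]
      refine av_mono (fun c => ?_)
      by_cases hT : T2 (V s)
      · have h3 := ind_nonneg (V s = V' c ∧ U s = true ∧ U' c = false ∧ ¬ T2 (V s))
        have h4 : ind (V s = V' c ∧ U s = true ∧ U' c = false) ≤
            ind (V s = V' c ∧ U s = true ∧ U' c = false ∧ T2 (V s)) :=
          ind_mono (fun h => ⟨h.1, h.2.1, h.2.2, hT⟩)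
        linarith
      · have h3 := ind_nonneg (V s = V' c ∧ U s = true ∧ U' c = false ∧ T2 (V s))
        have h4 : ind (V s = V' c ∧ U s = true ∧ U' c = false) ≤
            ind (V s = V' c ∧ U s = true ∧ U' c = false ∧ ¬ T2 (V s)) :=
          ind_mono (fun h => ⟨h.1, h.2.1, h.2.2, hT⟩)
        linarith
    have hfirst : av (fun s => av (fun c =>
          ind (V s = V' c ∧ U s = true ∧ U' c = false ∧ T2 (V s)))) ≤ ε := by
      refine (av_mono (g := fun _ => ε) (fun s => ?_)).trans (le_of_eq (av_const ε))
      by_cases hT : T2 (V s)
      · refine (av_mono (fun c => ?_)).trans hT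
        refine ind_mono (fun h => ?_)
        rw [h.1, ← hU' c]
        exact h.2.2.1
      · refine (av_mono (g := fun _ => (0 : ℝ)) (fun c => ?_)).trans
          ((le_of_eq (av_const 0)).trans hε)
        rw [ind_neg (fun h => hT h.2.2.2)]
    have hsecond : av (fun s => av (fun c =>
          ind (V s = V' c ∧ U s = true ∧ U' c = false ∧ ¬ T2 (V s)))) ≤
        ε + κ * (2 * (1 - β v0)) := by
      rw [av_comm]
      have hpt : ∀ c, av (fun s => ind (V s = V' c ∧ U s = true ∧ U' c = false ∧
          ¬ T2 (V s))) ≤ ε + κ * (ind (U' c = false) * (1 - β (V' c))) := by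
        intro c
        have hnn : 0 ≤ ε + κ * (ind (U' c = false) * (1 - β (V' c))) := by
          have h3 := ind_nonneg (U' c = false)
          have h4 := hβ1 (V' c)
          have h5 : 0 ≤ 1 - β (V' c) := by linarith
          positivity
        by_cases hc : U' c = false
        · by_cases hT : T2 (V' c)
          · refine (av_mono (g := fun _ => (0 : ℝ)) (fun s => ?_)).trans
              ((le_of_eq (av_const 0)).trans hnn)
            rw [ind_neg]
            rintro ⟨h3, _, _, h4⟩
            rw [h3] at h4
            exact h4 hT
          · have h3 : av (fun s => ind (V s = V' c ∧ U s = true ∧ U' c = false ∧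
                ¬ T2 (V s))) ≤ av (fun s => ind (u (V' c) s = true)) := by
              refine av_mono (fun s => ind_mono (fun h => ?_))
              rw [← h.1, ← hU s]
              exact h.2.1
            have h4 : av (fun s => ind (u (V' c) s = true)) ≤
                κ * av (fun c' => ind (u' (V' c) c' = true)) + ε := by
              rcases hamp (V' c) with h | h
              · exact h
              · exact absurd h hT
            have h5 : av (fun c' => ind (u' (V' c) c' = true)) ≤ 1 - β (V' c) := by
              have h6 : av (fun c' => ind (u' (V' c) c' = true)) + β (V' c) ≤ 1 := by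
                simp only [β]
                rw [← av_add]
                refine av_le_one (fun c' => ?_)
                by_cases h7 : V' c' = V' c ∧ U' c' = false
                · have h8 : ¬ (u' (V' c) c' = true) := by
                    rw [← h7.1, ← hU' c', h7.2]
                    decide
                  rw [ind_neg h8, ind_pos h7]
                  norm_num
                · rw [ind_neg h7]
                  have := ind_le_one (u' (V' c) c' = true)
                  linarith
              linarith
            rw [ind_pos hc]
            have h6 := mul_le_mul_of_nonneg_left h5 hκ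
            linarith
        · refine (av_mono (g := fun _ => (0 : ℝ)) (fun s => ?_)).trans
              ((le_of_eq (av_const 0)).trans hnn)
          rw [ind_neg (fun h => hc h.2.2.1)]
      have hv0 : av (fun c => ind (U' c = false) * (1 - β (V' c))) ≤ 2 * (1 - β v0) := by
        have hpt2 : ∀ c, ind (U' c = false) * (1 - β (V' c)) ≤
            ind (V' c = v0 ∧ U' c = false) * (1 - β v0) +
              (1 - ind (V' c = v0 ∧ U' c = false)) := by
          intro c
          by_cases h3 : V' c = v0 ∧ U' c = false
          · rw [ind_pos h3, ind_pos h3.2, h3.1]
            linarith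
          · rw [ind_neg h3]
            have h4 := ind_le_one (U' c = false)
            have h5 := ind_nonneg (U' c = false)
            have h6 : 0 ≤ 1 - β (V' c) := by linarith [hβ1 (V' c)]
            have h7 : 1 - β (V' c) ≤ 1 := by linarith [hβ0 (V' c)]
            have h8 : ind (U' c = false) * (1 - β (V' c)) ≤ 1 * 1 :=
              mul_le_mul h4 h7 h6 (by norm_num)
            linarith
        refine (av_mono hpt2).trans ?_
        rw [av_add, av_sub, av_mul_right, av_const]
        change β v0 * (1 - β v0) + (1 - β v0) ≤ 2 * (1 - β v0)
        have h3 : β v0 * (1 - β v0) ≤ 1 * (1 - β v0) :=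
          mul_le_mul_of_nonneg_right (hβ1 v0) (by linarith [hβ1 v0])
        linarith
      refine (av_mono hpt).trans ?_
      rw [av_add, av_const, av_mul_left]
      have := mul_le_mul_of_nonneg_left hv0 hκ
      linarith
    linarith
  -- step 3
  have h3 : D ≤ 4 * κ * δ + 18 * κ * η + 5 * ε := by
    have hEU0 : 0 ≤ av (fun s => ind (U s = true)) := av_nonneg (fun s => ind_nonneg _)
    have hEU1 : av (fun s => ind (U s = true)) ≤ 1 := av_le_one (fun s => ind_le_one _)
    have hEU'0 : 0 ≤ av (fun c => ind (U' c = true)) := av_nonneg (fun c => ind_nonneg _)
    have hEU'1 : av (fun c => ind (U' c = true)) ≤ 1 := av_le_one (fun c => ind_le_one _)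
    have hδ1 : -1 ≤ δ := by rw [hδ]; linarith
    -- the most likely vector
    obtain ⟨c0, hc0⟩ := Finite.exists_max (fun c0 : B => av (fun c => ind (V' c = V' c0)))
    by_cases hbig : 1 / 3 ≤ η
    · have h4 := h2 (V' c0)
      have h5 := hβ0 (V' c0)
      nlinarith [mul_nonneg hκ hη0, mul_nonneg hκ h5]
    · have hsmall : η ≤ 1 / 3 := by linarith
      set p' : ℝ := av (fun c => ind (V' c = V' c0)) with hp'
      set p : ℝ := av (fun s => ind (V s = V' c0)) with hp
      have hp0 : 0 ≤ p := av_nonneg (fun s => ind_nonneg _)
      have hp1 : p ≤ 1 := av_le_one (fun s => ind_le_one _)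
      have hp'1 : p' ≤ 1 := av_le_one (fun s => ind_le_one _)
      have hsame : 1 - η = av (fun s => av (fun c => ind (V s = V' c))) := by
        have h4 : av (fun s => av (fun c => ind (V s = V' c))) + η = 1 := by
          rw [hη, ← av_add]
          have h5 : ∀ s, av (fun c => ind (V s = V' c)) + av (fun c => ind (V s ≠ V' c)) = 1 := by
            intro s
            rw [← av_add]
            have h6 : ∀ c, ind (V s = V' c) + ind (V s ≠ V' c) = 1 := by
              intro c
              by_cases h7 : V s = V' c
              · rw [ind_pos h7, ind_neg (by simpa using h7)]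
                norm_num
              · rw [ind_neg h7, ind_pos h7]
                norm_num
            simp only [h6]
            exact av_const 1
          simp only [h5]
          exact av_const 1
        linarith
      have hcol : ∀ v, av (fun c => ind (v = V' c)) ≤ p' := by
        intro v
        by_cases hv : ∃ c1, V' c1 = v
        · obtain ⟨c1, hc1⟩ := hv
          refine le_trans (av_mono (fun c => ind_mono (fun h => ?_))) (hc0 c1)
          rw [← h, hc1]
        · refine (av_mono (g := fun _ => (0 : ℝ)) (fun c => ?_)).trans
            ((le_of_eq (av_const 0)).trans (av_nonneg (fun c => ind_nonneg _)))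
          rw [ind_neg (fun h => hv ⟨c, h.symm⟩)]
      have hp'η : 1 - η ≤ p' := by
        rw [hsame]
        exact (av_mono (fun s => hcol (V s))).trans (le_of_eq (av_const p'))
      have hpη : (1 - p) * (1 - η) ≤ η := by
        have h4 : 1 - η ≤ p * p' + (1 - p) * (1 - p') := by
          rw [hsame]
          have h5 : ∀ s, av (fun c => ind (V s = V' c)) ≤
              ind (V s = V' c0) * p' + (1 - ind (V s = V' c0)) * (1 - p') := by
            intro s
            by_cases h6 : V s = V' c0
            · rw [ind_pos h6]
              have := hcol (V s)
              linarith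
            · rw [ind_neg h6]
              have h7 : av (fun c => ind (V s = V' c)) + p' ≤ 1 := by
                rw [hp', ← av_add]
                refine av_le_one (fun c => ?_)
                by_cases h8 : V' c = V' c0
                · rw [ind_neg (p := V s = V' c) (fun h => h6 (h.trans h8)), ind_pos h8]
                  norm_num
                · rw [ind_neg h8]
                  have := ind_le_one (V s = V' c)
                  linarith
              linarith
          refine (av_mono h5).trans (le_of_eq ?_)
          rw [av_add, av_mul_right, av_mul_right, av_sub, av_const]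
        have h5 : (1 - p) * (1 - p') ≤ (1 - p) * η :=
          mul_le_mul_of_nonneg_left (by linarith) (by linarith)
        have h6 : p * p' ≤ p * 1 := mul_le_mul_of_nonneg_left hp'1 hp0
        nlinarith
      have hpη2 : 1 - p ≤ 3 / 2 * η := by
        nlinarith
      -- 1 - β
      have hEU : av (fun s => ind (U s = true)) ≤
          (1 - p) + av (fun s => ind (V s = V' c0 ∧ U s = true)) := by
        have h4 : ∀ s, ind (U s = true) ≤
            (1 - ind (V s = V' c0)) + ind (V s = V' c0 ∧ U s = true) := by
          intro s
          by_cases h5 : V s = V' c0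
          · rw [ind_pos h5]
            have : ind (U s = true) ≤ ind (V s = V' c0 ∧ U s = true) :=
              ind_mono (fun h => ⟨h5, h⟩)
            linarith
          · rw [ind_neg h5]
            have h6 := ind_le_one (U s = true)
            have h7 := ind_nonneg (V s = V' c0 ∧ U s = true)
            linarith
        refine (av_mono h4).trans (le_of_eq ?_)
        rw [av_add, av_sub, av_const]
      have hβc : 1 - β (V' c0) ≤ (1 - p') + av (fun c => ind (U' c = true)) := by
        have h4 : p' ≤ β (V' c0) + av (fun c => ind (U' c = true)) := by
          rw [hp']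
          simp only [β]
          rw [← av_add]
          refine av_mono (fun c => ?_)
          by_cases h5 : V' c = V' c0
          · cases h6 : U' c
            · rw [ind_pos h5, ind_pos ⟨h5, rfl⟩]
              have := ind_nonneg (false = true)
              linarith
            · rw [ind_pos h5, ind_pos rfl]
              have := ind_nonneg (V' c = V' c0 ∧ true = false)
              linarith
          · rw [ind_neg h5]
            have h6 := ind_nonneg (V' c = V' c0 ∧ U' c = false)
            have h7 := ind_nonneg (U' c = true)
            linarith
        linarith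
      rcases hamp (V' c0) with hi | hii
      · -- type (i)
        have h4 : av (fun s => ind (V s = V' c0 ∧ U s = true)) ≤
            κ * (1 - β (V' c0)) + ε := by
          have h5 : av (fun s => ind (V s = V' c0 ∧ U s = true)) ≤
              av (fun s => ind (u (V' c0) s = true)) := by
            refine av_mono (fun s => ind_mono (fun h => ?_))
            rw [← h.1, ← hU s]
            exact h.2
          have h6 : av (fun c => ind (u' (V' c0) c = true)) ≤ 1 - β (V' c0) := by
            have h7 : av (fun c => ind (u' (V' c0) c = true)) + β (V' c0) ≤ 1 := by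
              simp only [β]
              rw [← av_add]
              refine av_le_one (fun c' => ?_)
              by_cases h7 : V' c' = V' c0 ∧ U' c' = false
              · have h8 : ¬ (u' (V' c0) c' = true) := by
                  rw [← h7.1, ← hU' c', h7.2]
                  decide
                rw [ind_neg h8, ind_pos h7]
                norm_num
              · rw [ind_neg h7]
                have := ind_le_one (u' (V' c0) c' = true)
                linarith
            linarith
          have h7 := mul_le_mul_of_nonneg_left h6 hκ
          linarith
        have h5 : (1 - κ) * (1 - β (V' c0)) ≤ δ + 5 / 2 * η + ε := by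
          rw [hδ]
          nlinarith
        have h6 : 1 - β (V' c0) ≤ 2 * (δ + 5 / 2 * η + ε) := by
          have h7 : 0 ≤ 1 - β (V' c0) := by linarith [hβ1 (V' c0)]
          nlinarith
        have h7 := h2 (V' c0)
        have h8 := mul_le_mul_of_nonneg_left h6 hκ
        nlinarith [mul_nonneg hκ hη0, mul_nonneg hκ hε]
      · -- type (ii)
        have hδ2 : -(η + ε) ≤ δ := by
          have h4 : p' ≤ ε + av (fun c => ind (U' c = true)) := by
            have h5 : β (V' c0) ≤ ε := by
              refine le_trans (av_mono (fun c => ind_mono (fun h => ?_))) hii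
              rw [← h.1, ← hU' c]
              exact h.2
            linarith
          rw [hδ]
          linarith
        have hβε : β (V' c0) ≤ ε := by
          refine le_trans (av_mono (fun c => ind_mono (fun h => ?_))) hii
          rw [← h.1, ← hU' c]
          exact h.2
        -- D is small
        have h4 : D ≤ 2 * ε + (κ + ε) * (1 - p') := by
          rw [hD, av_comm]
          have h5 : ∀ c, av (fun s => ind (V s = V' c ∧ U s = true ∧ U' c = false)) ≤
              ind (V' c = V' c0 ∧ U' c = false) +
                ((κ + ε) * (1 - ind (V' c = V' c0)) +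
                  av (fun s => ind (V s = V' c ∧ U s = true ∧ U' c = false ∧
                    av (fun c => ind (u' (V s) c = false)) ≤ ε ∧ V' c ≠ V' c0))) := by
            intro c
            have hlast : 0 ≤ av (fun s => ind (V s = V' c ∧ U s = true ∧ U' c = false ∧
                    av (fun c => ind (u' (V s) c = false)) ≤ ε ∧ V' c ≠ V' c0)) :=
              av_nonneg (fun s => ind_nonneg _)
            by_cases h6 : V' c = V' c0
            · rw [ind_pos h6]
              have h7 : av (fun s => ind (V s = V' c ∧ U s = true ∧ U' c = false)) ≤
                  ind (V' c = V' c0 ∧ U' c = false) := by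
                refine (av_mono (g := fun _ => ind (V' c = V' c0 ∧ U' c = false))
                  (fun s => ind_mono (fun h => ⟨h6, h.2.2⟩))).trans (le_of_eq (av_const _))
              linarith
            · rw [ind_neg h6, ind_neg (p := V' c = V' c0 ∧ U' c = false) (fun h => h6 h.1)]
              by_cases h7 : av (fun c' => ind (u' (V' c) c' = false)) ≤ ε
              · have h8 : av (fun s => ind (V s = V' c ∧ U s = true ∧ U' c = false)) ≤
                    av (fun s => ind (V s = V' c ∧ U s = true ∧ U' c = false ∧
                      av (fun c => ind (u' (V s) c = false)) ≤ ε ∧ V' c ≠ V' c0)) := by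
                  refine av_mono (fun s => ind_mono (fun h => ?_))
                  refine ⟨h.1, h.2.1, h.2.2, ?_, h6⟩
                  rw [h.1]
                  exact h7
                have h9 : 0 ≤ (κ + ε) * (1 - 0) := by
                  rw [sub_zero, mul_one]
                  linarith
                linarith
              · have h8 : av (fun s => ind (V s = V' c ∧ U s = true ∧ U' c = false)) ≤
                    κ + ε := by
                  have h9 : av (fun s => ind (V s = V' c ∧ U s = true ∧ U' c = false)) ≤
                      av (fun s => ind (u (V' c) s = true)) := by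
                    refine av_mono (fun s => ind_mono (fun h => ?_))
                    rw [← h.1, ← hU s]
                    exact h.2.1
                  rcases hamp (V' c) with h10 | h10
                  · have h11 : av (fun c' => ind (u' (V' c) c' = true)) ≤ 1 :=
                      av_le_one (fun c' => ind_le_one _)
                    have h12 := mul_le_mul_of_nonneg_left h11 hκ
                    linarith
                  · exact absurd h10 h7
                linarith
          refine (av_mono h5).trans ?_
          rw [av_add, av_add, av_mul_left, av_sub, av_const]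
          have h6 : av (fun c => av (fun s => ind (V s = V' c ∧ U s = true ∧ U' c = false ∧
                    av (fun c => ind (u' (V s) c = false)) ≤ ε ∧ V' c ≠ V' c0))) +
              av (fun c => ind (V' c = V' c0 ∧ U' c = false)) ≤ 2 * ε := by
            have h7 : av (fun c => av (fun s => ind (V s = V' c ∧ U s = true ∧ U' c = false ∧
                    av (fun c => ind (u' (V s) c = false)) ≤ ε ∧ V' c ≠ V' c0))) ≤ ε := by
              rw [av_comm]
              refine (av_mono (g := fun _ => ε) (fun s => ?_)).trans (le_of_eq (av_const ε))
              by_cases hT : av (fun c => ind (u' (V s) c = false)) ≤ ε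
              · refine (av_mono (fun c => ?_)).trans hT
                refine ind_mono (fun h => ?_)
                rw [h.1, ← hU' c]
                exact h.2.2.1
              · refine (av_mono (g := fun _ => (0 : ℝ)) (fun c => ?_)).trans
                  ((le_of_eq (av_const 0)).trans hε)
                rw [ind_neg (fun h => hT h.2.2.2.1)]
            have h8 : av (fun c => ind (V' c = V' c0 ∧ U' c = false)) ≤ ε := hβε
            linarith
          linarith
        have h5 : (κ + ε) * (1 - p') ≤ (κ + ε) * η :=
          mul_le_mul_of_nonneg_left (by linarith) (by linarith)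
        have h6 : ε * η ≤ ε * 1 := mul_le_mul_of_nonneg_left (by linarith) hε
        have h7 : κ * (-(η + ε)) ≤ κ * δ := mul_le_mul_of_nonneg_left hδ2 hκ
        nlinarith [mul_nonneg hκ hη0, mul_nonneg hκ hε]
  nlinarith [mul_nonneg hκ hη0, mul_nonneg hκ hε]

end Main

end Pool.Agent.NEGT
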