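import Pool.Agent.Lib.MP_0087d5_lc.NEGT.CountT
import Pool.Agent.Lib.MP_0087d5_lc.NEGT.TDef
import Pool.Agent.Lib.MP_0087d5_lc.NEGT.Prob

/-!
Pseudo-chains: random inputs which increase, or in which an independent part is replaced by
another random part so that small monotone functions increase in the mean and rarely change.
The inputs of the special gates and the output change only a few times in the mean.
-/

set_option autoImplicit false

namespace Pool.Agent.NEGT

open Pool.Agent.NEG Pool.Agent.NEGS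

section AvEquiv

variable {A B Ω : Type} [Fintype A] [Fintype B] [Fintype Ω]

theorem av_equiv (e : Ω ≃ A) (f : Ω → ℝ) : av f = av (fun a => f (e.symm a)) := by
  unfold av
  rw [Fintype.card_congr e, ← Equiv.sum_comp e.symm f]

theorem av_prod (f : A × B → ℝ) : av f = av (fun a => av (fun b => f (a, b))) := by
  unfold av
  rw [Fintype.sum_prod_type, Fintype.card_prod, ← Finset.sum_div, div_div, Nat.cast_mul,
    mul_comm (Fintype.card A : ℝ)]

theorem av_sum {ι : Type} (s : Finset ι) (f : ι → A → ℝ) :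
    av (fun a => ∑ i ∈ s, f i a) = ∑ i ∈ s, av (f i) := by
  unfold av
  rw [Finset.sum_comm, Finset.sum_div]

end AvEquiv

section Steps

variable {J G Ω : Type} [Fintype Ω] [Nonempty Ω]

/-- a real increase -/
def IsInc (S S' : Ω → J → Bool) : Prop := ∀ ω e, S ω e = true → S' ω e = true

/-- the replacement of an independent part by another random part, which the monotone
functions of the circuit see as an increase -/
def IsRep (C : Circuit J G) (l : Lev C) (κ ε : ℝ) (S S' : Ω → J → Bool) : Prop :=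
  ∃ (A B Γ : Type) (_ : Fintype A) (_ : Fintype B) (_ : Fintype Γ) (_ : Nonempty A)
    (_ : Nonempty B) (_ : Nonempty Γ) (e : Ω ≃ Γ × (A × B)) (sA : Γ → A → J → Bool)
    (sB : Γ → B → J → Bool),
    (∀ ω, S ω = sA (e ω).1 (e ω).2.1) ∧ (∀ ω, S' ω = sB (e ω).1 (e ω).2.2) ∧
    ∀ (z : G → Bool) (nd : (J ⊕ Bool) ⊕ G) (γ : Γ),
      av (fun s => ind (nv C l z nd (sA γ s) = true)) ≤
          κ * av (fun c => ind (nv C l z nd (sB γ c) = true)) + ε ∨
        av (fun c => ind (nv C l z nd (sB γ c) = false)) ≤ ε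

/-- a step of a pseudo-chain -/
def IsStep (C : Circuit J G) (l : Lev C) (κ ε : ℝ) (S S' : Ω → J → Bool) : Prop :=
  IsInc S S' ∨ IsRep C l κ ε S S'

/-- a node all of whose gates have rank below `b` -/
def NodeBelow (rk : G → ℕ) (b : ℕ) : (J ⊕ Bool) ⊕ G → Prop
  | .inl _ => True
  | .inr g => rk g < b

/-- the slots of rank below `b` -/
abbrev SlotB (C : Circuit J G) (rk : G → ℕ) (b : ℕ) : Type :=
  Σ s : {s // ¬ C.Plain s ∧ rk s < b}, Fin (C.arity s)

/-- the vector of the true inputs of the special gates of rank below `b` -/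
def vec (C : Circuit J G) (rk : G → ℕ) (b : ℕ) (x : J → Bool) (v : G → Bool) :
    SlotB C rk b → Bool := fun p => Circuit.node x v (C.src p.1 p.2)

open Classical in
/-- the values of the special gates of rank below `b` given by a vector of inputs -/
noncomputable def zvec (C : Circuit J G) (rk : G → ℕ) (b : ℕ) (y : SlotB C rk b → Bool)
    (g : G) : Bool :=
  if h : ¬ C.Plain g ∧ rk g < b then C.fn g (fun i => y ⟨⟨g, h⟩, i⟩) else false

theorem zvec_vec (C : Circuit J G) (rk : G → ℕ) (b : ℕ) {x : J → Bool} {v : G → Bool}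
    (hv : C.Consistent x v) (g : G) (hg : ¬ C.Plain g) (hb : rk g < b) :
    zvec C rk b (vec C rk b x v) g = v g := by
  unfold zvec
  rw [dif_pos ⟨hg, hb⟩, hv g]
  rfl

theorem fval_below (C : Circuit J G) (l : Lev C) (rk : G → ℕ) (hrk : Ranked C rk) (b : ℕ)
    {x : J → Bool} {v z : G → Bool} (hv : C.Consistent x v)
    (hz : ∀ s, ¬ C.Plain s → rk s < b → z s = v s) :
    ∀ n : ℕ, ∀ g, l.lev g ≤ n → rk g < b → fval C l z x g = v g := by
  intro n
  induction n with
  | zero =>
      intro g hg hb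
      by_cases hp : C.Plain g
      · rw [fval_plain C l z x g hp, hv g]
        congr 1
        funext i
        cases h : C.src g i with
        | inl a => cases a <;> rfl
        | inr g' =>
            have := l.lt g i g' h
            omega
      · rw [fval_special C l z x g hp]
        exact hz g hp hb
  | succ n ih =>
      intro g hg hb
      by_cases hp : C.Plain g
      · rw [fval_plain C l z x g hp, hv g]
        congr 1
        funext i
        cases h : C.src g i with
        | inl a => cases a <;> rfl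
        | inr g' =>
            have h1 := l.lt g i g' h
            have h2 := (hrk g i g' h).1
            exact ih g' (by omega) (by omega)
      · rw [fval_special C l z x g hp]
        exact hz g hp hb

theorem nv_below (C : Circuit J G) (l : Lev C) (rk : G → ℕ) (hrk : Ranked C rk) (b : ℕ)
    {x : J → Bool} {v z : G → Bool} (hv : C.Consistent x v)
    (hz : ∀ s, ¬ C.Plain s → rk s < b → z s = v s) (nd : (J ⊕ Bool) ⊕ G)
    (hnd : NodeBelow rk b nd) : nv C l z nd x = Circuit.node x v nd := by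
  unfold nv
  cases nd with
  | inl a => cases a <;> rfl
  | inr g => exact fval_below C l rk hrk b hv hz l.top g (l.le_top g) hnd

theorem movesBelow_iff (C : Circuit J G) (rk : G → ℕ) (b : ℕ) (x y : J → Bool)
    (v w : G → Bool) : MovesBelow C rk b x y v w ↔ vec C rk b x v ≠ vec C rk b y w := by
  constructor
  · rintro ⟨s, hs1, hs2, i, hi⟩ heq
    exact hi (congrFun heq ⟨⟨s, hs1, hs2⟩, i⟩)
  · intro h
    by_contra hcon
    apply h
    funext p
    by_contra hp
    exact hcon ⟨p.1, p.1.2.1, p.1.2.2, p.2, hp⟩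

/-- **one step**: a slot of rank at least `b` changes without a change below `b` -/
theorem step_ineq (C : Circuit J G) (l : Lev C) (rk : G → ℕ) (hrk : Ranked C rk) (b : ℕ)
    (vv : (J → Bool) → G → Bool) (hvv : ∀ x, C.Consistent x (vv x)) {κ ε : ℝ} (hκ : 0 ≤ κ)
    (hκ2 : κ ≤ 1 / 2) (hε : 0 ≤ ε) (hε1 : ε ≤ 1) (S S' : Ω → J → Bool)
    (hS : IsStep C l κ ε S S') (nd : (J ⊕ Bool) ⊕ G) (hnd : NodeBelow rk b nd) :
    av (fun ω => ind (¬ MovesBelow C rk b (S ω) (S' ω) (vv (S ω)) (vv (S' ω)) ∧
        Circuit.node (S ω) (vv (S ω)) nd ≠ Circuit.node (S' ω) (vv (S' ω)) nd)) ≤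
      (1 + 8 * κ) * (av (fun ω => ind (Circuit.node (S' ω) (vv (S' ω)) nd = true)) -
          av (fun ω => ind (Circuit.node (S ω) (vv (S ω)) nd = true))) +
        (1 + 36 * κ) * av (fun ω => ind (MovesBelow C rk b (S ω) (S' ω) (vv (S ω))
          (vv (S' ω)))) + 10 * ε := by
  rcases hS with hinc | hrep
  · have hpt : ∀ ω, ind (¬ MovesBelow C rk b (S ω) (S' ω) (vv (S ω)) (vv (S' ω)) ∧
        Circuit.node (S ω) (vv (S ω)) nd ≠ Circuit.node (S' ω) (vv (S' ω)) nd) ≤
        (ind (Circuit.node (S' ω) (vv (S' ω)) nd = true) -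
          ind (Circuit.node (S ω) (vv (S ω)) nd = true)) +
        ind (MovesBelow C rk b (S ω) (S' ω) (vv (S ω)) (vv (S' ω))) := by
      intro ω
      by_cases hm : MovesBelow C rk b (S ω) (S' ω) (vv (S ω)) (vv (S' ω))
      · rw [ind_pos hm, ind_neg (fun h => h.1 hm)]
        have h1 := ind_nonneg (Circuit.node (S' ω) (vv (S' ω)) nd = true)
        have h2 := ind_le_one (Circuit.node (S ω) (vv (S ω)) nd = true)
        linarith
      · have hup : Circuit.node (S ω) (vv (S ω)) nd = true →
            Circuit.node (S' ω) (vv (S' ω)) nd = true := by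
          intro h
          cases nd with
          | inl a =>
              cases a with
              | inl j => exact hinc ω j h
              | inr b => exact h
          | inr g =>
              exact up_below C l rk hrk b (hinc ω) (hvv _) (hvv _) hm l.top g (l.le_top g)
                hnd h
        rw [ind_neg hm]
        by_cases h1 : Circuit.node (S ω) (vv (S ω)) nd = true
        · rw [ind_pos h1, ind_pos (hup h1), ind_neg]
          · norm_num
          · rintro ⟨_, h2⟩
            exact h2 (h1.trans (hup h1).symm)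
        · rw [ind_neg h1]
          by_cases h2 : Circuit.node (S' ω) (vv (S' ω)) nd = true
          · rw [ind_pos h2]
            have := ind_le_one (¬ MovesBelow C rk b (S ω) (S' ω) (vv (S ω)) (vv (S' ω)) ∧
              Circuit.node (S ω) (vv (S ω)) nd ≠ Circuit.node (S' ω) (vv (S' ω)) nd)
            linarith
          · rw [ind_neg h2, ind_neg]
            · norm_num
            · rintro ⟨_, h3⟩
              apply h3
              rw [Bool.eq_false_iff.mpr h1, Bool.eq_false_iff.mpr h2]
    have h1 := av_mono hpt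
    rw [av_add, av_sub] at h1
    have h2 : 0 ≤ av (fun ω => ind (¬ MovesBelow C rk b (S ω) (S' ω) (vv (S ω)) (vv (S' ω)) ∧
        Circuit.node (S ω) (vv (S ω)) nd ≠ Circuit.node (S' ω) (vv (S' ω)) nd)) :=
      av_nonneg (fun ω => ind_nonneg _)
    have h3 : 0 ≤ av (fun ω => ind (MovesBelow C rk b (S ω) (S' ω) (vv (S ω))
          (vv (S' ω)))) := av_nonneg (fun ω => ind_nonneg _)
    have h4 := mul_nonneg hκ (h2.trans h1)
    have h5 := mul_nonneg hκ h3
    nlinarith
  · obtain ⟨A, B, Γ, _, _, _, _, _, _, e, sA, sB, hA, hB, hamp⟩ := hrep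
    have hSS : ∀ γ s c, S (e.symm (γ, (s, c))) = sA γ s := by
      intro γ s c
      rw [hA, Equiv.apply_symm_apply]
    have hSS' : ∀ γ s c, S' (e.symm (γ, (s, c))) = sB γ c := by
      intro γ s c
      rw [hB, Equiv.apply_symm_apply]
    have hγ : ∀ γ : Γ, av (fun s => av (fun c =>
        ind (¬ MovesBelow C rk b (sA γ s) (sB γ c) (vv (sA γ s)) (vv (sB γ c)) ∧
        Circuit.node (sA γ s) (vv (sA γ s)) nd ≠ Circuit.node (sB γ c) (vv (sB γ c)) nd))) ≤
        (1 + 8 * κ) * (av (fun c => ind (Circuit.node (sB γ c) (vv (sB γ c)) nd = true)) -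
          av (fun s => ind (Circuit.node (sA γ s) (vv (sA γ s)) nd = true))) +
        (1 + 36 * κ) * av (fun s => av (fun c => ind (MovesBelow C rk b (sA γ s) (sB γ c)
          (vv (sA γ s)) (vv (sB γ c))))) + 10 * ε := by
      intro γ
      have h1 := prob_step (fun s => vec C rk b (sA γ s) (vv (sA γ s)))
        (fun c => vec C rk b (sB γ c) (vv (sB γ c)))
        (fun s => Circuit.node (sA γ s) (vv (sA γ s)) nd)
        (fun c => Circuit.node (sB γ c) (vv (sB γ c)) nd)
        (fun y s => nv C l (zvec C rk b y) nd (sA γ s))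
        (fun y c => nv C l (zvec C rk b y) nd (sB γ c))
        (fun s => (nv_below C l rk hrk b (hvv _)
          (fun g hg hb => zvec_vec C rk b (hvv _) g hg hb) nd hnd).symm)
        (fun c => (nv_below C l rk hrk b (hvv _)
          (fun g hg hb => zvec_vec C rk b (hvv _) g hg hb) nd hnd).symm)
        hκ hκ2 hε hε1 (fun y => hamp (zvec C rk b y) nd γ)
      have h2 : ∀ s c, ind (¬ MovesBelow C rk b (sA γ s) (sB γ c) (vv (sA γ s))
          (vv (sB γ c)) ∧ Circuit.node (sA γ s) (vv (sA γ s)) nd ≠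
            Circuit.node (sB γ c) (vv (sB γ c)) nd) =
          ind (vec C rk b (sA γ s) (vv (sA γ s)) = vec C rk b (sB γ c) (vv (sB γ c)) ∧
            Circuit.node (sA γ s) (vv (sA γ s)) nd ≠
            Circuit.node (sB γ c) (vv (sB γ c)) nd) := by
        intro s c
        rw [movesBelow_iff, not_not]
      have h3 : ∀ s c, ind (MovesBelow C rk b (sA γ s) (sB γ c) (vv (sA γ s))
          (vv (sB γ c))) =
          ind (vec C rk b (sA γ s) (vv (sA γ s)) ≠ vec C rk b (sB γ c) (vv (sB γ c))) := by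
        intro s c
        rw [movesBelow_iff]
      simp only [h2, h3]
      exact h1
    have hav := av_mono hγ
    rw [av_add, av_add, av_mul_left, av_mul_left, av_sub, av_const] at hav
    have e1 : av (fun ω => ind (¬ MovesBelow C rk b (S ω) (S' ω) (vv (S ω)) (vv (S' ω)) ∧
        Circuit.node (S ω) (vv (S ω)) nd ≠ Circuit.node (S' ω) (vv (S' ω)) nd)) =
        av (fun γ => av (fun s => av (fun c =>
        ind (¬ MovesBelow C rk b (sA γ s) (sB γ c) (vv (sA γ s)) (vv (sB γ c)) ∧
        Circuit.node (sA γ s) (vv (sA γ s)) nd ≠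
          Circuit.node (sB γ c) (vv (sB γ c)) nd)))) := by
      rw [av_equiv e, av_prod]
      congr 1
      funext γ
      rw [av_prod]
      congr 1
      funext s
      congr 1
      funext c
      rw [hSS, hSS']
    have e2 : av (fun ω => ind (MovesBelow C rk b (S ω) (S' ω) (vv (S ω)) (vv (S' ω)))) =
        av (fun γ => av (fun s => av (fun c =>
        ind (MovesBelow C rk b (sA γ s) (sB γ c) (vv (sA γ s)) (vv (sB γ c)))))) := by
      rw [av_equiv e, av_prod]
      congr 1
      funext γ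
      rw [av_prod]
      congr 1
      funext s
      congr 1
      funext c
      rw [hSS, hSS']
    have e3 : av (fun ω => ind (Circuit.node (S' ω) (vv (S' ω)) nd = true)) =
        av (fun γ => av (fun c =>
          ind (Circuit.node (sB γ c) (vv (sB γ c)) nd = true))) := by
      rw [av_equiv e, av_prod]
      congr 1
      funext γ
      rw [av_prod]
      have : ∀ s : A, av (fun c => ind (Circuit.node (S' (e.symm (γ, (s, c))))
          (vv (S' (e.symm (γ, (s, c))))) nd = true)) =
          av (fun c => ind (Circuit.node (sB γ c) (vv (sB γ c)) nd = true)) := by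
        intro s
        congr 1
        funext c
        rw [hSS']
      simp only [this]
      exact av_const _
    have e4 : av (fun ω => ind (Circuit.node (S ω) (vv (S ω)) nd = true)) =
        av (fun γ => av (fun s =>
          ind (Circuit.node (sA γ s) (vv (sA γ s)) nd = true))) := by
      rw [av_equiv e, av_prod]
      congr 1
      funext γ
      rw [av_prod]
      congr 1
      funext s
      have : ∀ c : B, ind (Circuit.node (S (e.symm (γ, (s, c))))
          (vv (S (e.symm (γ, (s, c))))) nd = true) =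
          ind (Circuit.node (sA γ s) (vv (sA γ s)) nd = true) := by
        intro c
        rw [hSS]
      simp only [this]
      exact av_const _
    rw [e1, e2, e3, e4]
    exact hav

end Steps

section Chain

variable {J G Ω : Type} [Fintype Ω] [Nonempty Ω]

/-- the mean number of steps at which an input of a special gate of rank below `b` changes -/
noncomputable def mb (C : Circuit J G) (rk : G → ℕ) (vv : (J → Bool) → G → Bool) (N : ℕ)
    (S : ℕ → Ω → J → Bool) (b : ℕ) : ℝ :=
  ∑ τ ∈ Finset.range N, av (fun ω => ind (MovesBelow C rk b (S τ ω) (S (τ + 1) ω)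
    (vv (S τ ω)) (vv (S (τ + 1) ω))))

theorem mb_nonneg (C : Circuit J G) (rk : G → ℕ) (vv : (J → Bool) → G → Bool) (N : ℕ)
    (S : ℕ → Ω → J → Bool) (b : ℕ) : 0 ≤ mb C rk vv N S b :=
  Finset.sum_nonneg (fun τ _ => av_nonneg (fun ω => ind_nonneg _))

/-- the mean number of changes of a node without a change below -/
theorem sum_node (C : Circuit J G) (l : Lev C) (rk : G → ℕ) (hrk : Ranked C rk) (b : ℕ)
    (vv : (J → Bool) → G → Bool) (hvv : ∀ x, C.Consistent x (vv x)) {κ ε : ℝ} (hκ : 0 ≤ κ)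
    (hκ2 : κ ≤ 1 / 2) (hε : 0 ≤ ε) (hε1 : ε ≤ 1) (N : ℕ) (S : ℕ → Ω → J → Bool)
    (hS : ∀ τ < N, IsStep C l κ ε (S τ) (S (τ + 1))) (nd : (J ⊕ Bool) ⊕ G)
    (hnd : NodeBelow rk b nd) :
    ∑ τ ∈ Finset.range N, av (fun ω => ind (¬ MovesBelow C rk b (S τ ω) (S (τ + 1) ω)
        (vv (S τ ω)) (vv (S (τ + 1) ω)) ∧ Circuit.node (S τ ω) (vv (S τ ω)) nd ≠
          Circuit.node (S (τ + 1) ω) (vv (S (τ + 1) ω)) nd)) ≤
      (1 + (36 * κ + 10 * ε * N)) * (mb C rk vv N S b + 1) := by
  let E : ℕ → ℝ := fun τ => av (fun ω => ind (Circuit.node (S τ ω) (vv (S τ ω)) nd = true))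
  have h1 : ∑ τ ∈ Finset.range N, av (fun ω => ind (¬ MovesBelow C rk b (S τ ω) (S (τ + 1) ω)
        (vv (S τ ω)) (vv (S (τ + 1) ω)) ∧ Circuit.node (S τ ω) (vv (S τ ω)) nd ≠
          Circuit.node (S (τ + 1) ω) (vv (S (τ + 1) ω)) nd)) ≤
      ∑ τ ∈ Finset.range N, ((1 + 8 * κ) * (E (τ + 1) - E τ) +
        (1 + 36 * κ) * av (fun ω => ind (MovesBelow C rk b (S τ ω) (S (τ + 1) ω)
          (vv (S τ ω)) (vv (S (τ + 1) ω)))) + 10 * ε) :=
    Finset.sum_le_sum (fun τ hτ => step_ineq C l rk hrk b vv hvv hκ hκ2 hε hε1 (S τ)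
      (S (τ + 1)) (hS τ (Finset.mem_range.mp hτ)) nd hnd)
  rw [Finset.sum_add_distrib, Finset.sum_add_distrib, ← Finset.mul_sum, ← Finset.mul_sum,
    Finset.sum_range_sub, Finset.sum_const, Finset.card_range, nsmul_eq_mul] at h1
  change _ ≤ (1 + 8 * κ) * (E N - E 0) + (1 + 36 * κ) * mb C rk vv N S b + (N : ℝ) * (10 * ε)
    at h1
  have hEN : E N ≤ 1 := av_le_one (fun ω => ind_le_one _)
  have hE0 : 0 ≤ E 0 := av_nonneg (fun ω => ind_nonneg _)
  have hp := mb_nonneg C rk vv N S b
  have hN : (0 : ℝ) ≤ N := Nat.cast_nonneg N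
  have h2 : (1 + 8 * κ) * (E N - E 0) ≤ (1 + 8 * κ) * 1 :=
    mul_le_mul_of_nonneg_left (by linarith) (by linarith)
  have h3 : 0 ≤ ε * N := mul_nonneg hε hN
  have h4 : 0 ≤ ε * N * mb C rk vv N S b := mul_nonneg h3 hp
  nlinarith

open Classical in
/-- the recursion over the ranks -/
theorem mb_bound [Finite G] (C : Circuit J G) (l : Lev C) (rk : G → ℕ) (hrk : Ranked C rk)
    (vv : (J → Bool) → G → Bool) (hvv : ∀ x, C.Consistent x (vv x)) {κ ε : ℝ} (hκ : 0 ≤ κ)
    (hκ2 : κ ≤ 1 / 2) (hε : 0 ≤ ε) (hε1 : ε ≤ 1) (N : ℕ) (S : ℕ → Ω → J → Bool)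
    (hS : ∀ τ < N, IsStep C l κ ε (S τ) (S (τ + 1))) (b : ℕ) :
    mb C rk vv N S b + 1 ≤ ∏ j ∈ Finset.range b,
      ((1 + (36 * κ + 10 * ε * N)) * (wires C rk j : ℝ) + 1) := by
  have : Fintype G := Fintype.ofFinite G
  set θ : ℝ := 36 * κ + 10 * ε * N with hθ
  have hN : (0 : ℝ) ≤ N := Nat.cast_nonneg N
  have hθ0 : 0 ≤ θ := by positivity
  induction b with
  | zero =>
      rw [Finset.range_zero, Finset.prod_empty]
      have : mb C rk vv N S 0 = 0 := by
        unfold mb
        refine Finset.sum_eq_zero (fun τ _ => ?_)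
        have h1 : ∀ ω, ind (MovesBelow C rk 0 (S τ ω) (S (τ + 1) ω)
            (vv (S τ ω)) (vv (S (τ + 1) ω))) = 0 := by
          intro ω
          rw [ind_neg]
          rintro ⟨s, _, hs, _⟩
          omega
        simp only [h1]
        exact av_const 0
      rw [this]
      norm_num
  | succ b ih =>
      rw [Finset.prod_range_succ]
      let φ : Type := Σ s : {s // ¬ C.Plain s ∧ rk s = b}, Fin (C.arity s)
      have hφ : (Fintype.card φ : ℝ) ≤ (wires C rk b : ℝ) := by
        have e : {p : Σ g, Fin (C.arity g) // ¬ C.Plain p.1 ∧ rk p.1 = b} ≃ φ :=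
          Equiv.subtypeSigmaEquiv (fun g => Fin (C.arity g)) (fun g => ¬ C.Plain g ∧ rk g = b)
        have h1 : Fintype.card φ = wires C rk b := by
          unfold wires
          rw [Nat.card_congr e, Nat.card_eq_fintype_card]
        rw [h1]
      have hstep : mb C rk vv N S (b + 1) ≤ mb C rk vv N S b +
          ∑ p : φ, ∑ τ ∈ Finset.range N, av (fun ω => ind (¬ MovesBelow C rk b (S τ ω)
            (S (τ + 1) ω) (vv (S τ ω)) (vv (S (τ + 1) ω)) ∧
            Circuit.node (S τ ω) (vv (S τ ω)) (C.src p.1 p.2) ≠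
              Circuit.node (S (τ + 1) ω) (vv (S (τ + 1) ω)) (C.src p.1 p.2))) := by
        rw [Finset.sum_comm]
        unfold mb
        rw [← Finset.sum_add_distrib]
        refine Finset.sum_le_sum (fun τ _ => ?_)
        rw [← av_sum, ← av_add]
        refine av_mono (fun ω => ?_)
        by_cases h1 : MovesBelow C rk b (S τ ω) (S (τ + 1) ω) (vv (S τ ω)) (vv (S (τ + 1) ω))
        · rw [ind_pos h1]
          have h2 := ind_le_one (MovesBelow C rk (b + 1) (S τ ω) (S (τ + 1) ω) (vv (S τ ω))
            (vv (S (τ + 1) ω)))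
          have h3 : 0 ≤ ∑ p : φ, ind (¬ MovesBelow C rk b (S τ ω)
            (S (τ + 1) ω) (vv (S τ ω)) (vv (S (τ + 1) ω)) ∧
            Circuit.node (S τ ω) (vv (S τ ω)) (C.src p.1 p.2) ≠
              Circuit.node (S (τ + 1) ω) (vv (S (τ + 1) ω)) (C.src p.1 p.2)) :=
            Finset.sum_nonneg (fun p _ => ind_nonneg _)
          linarith
        · by_cases h2 : MovesBelow C rk (b + 1) (S τ ω) (S (τ + 1) ω) (vv (S τ ω))
            (vv (S (τ + 1) ω))
          · obtain ⟨s, hs1, hs2, i, hi⟩ := h2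
            have hsb : rk s = b := by
              by_contra hne
              exact h1 ⟨s, hs1, by omega, i, hi⟩
            have h3 : ind (¬ MovesBelow C rk b (S τ ω)
              (S (τ + 1) ω) (vv (S τ ω)) (vv (S (τ + 1) ω)) ∧
              Circuit.node (S τ ω) (vv (S τ ω)) (C.src s i) ≠
                Circuit.node (S (τ + 1) ω) (vv (S (τ + 1) ω)) (C.src s i)) ≤
              ∑ p : φ, ind (¬ MovesBelow C rk b (S τ ω)
              (S (τ + 1) ω) (vv (S τ ω)) (vv (S (τ + 1) ω)) ∧
              Circuit.node (S τ ω) (vv (S τ ω)) (C.src p.1 p.2) ≠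
                Circuit.node (S (τ + 1) ω) (vv (S (τ + 1) ω)) (C.src p.1 p.2)) :=
              Finset.single_le_sum (f := fun p : φ => ind (¬ MovesBelow C rk b (S τ ω)
              (S (τ + 1) ω) (vv (S τ ω)) (vv (S (τ + 1) ω)) ∧
              Circuit.node (S τ ω) (vv (S τ ω)) (C.src p.1 p.2) ≠
                Circuit.node (S (τ + 1) ω) (vv (S (τ + 1) ω)) (C.src p.1 p.2)))
                (fun p _ => ind_nonneg _) (Finset.mem_univ (⟨⟨s, hs1, hsb⟩, i⟩ : φ))
            rw [ind_pos ⟨h1, hi⟩] at h3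
            rw [ind_neg h1]
            have h4 := ind_le_one (MovesBelow C rk (b + 1) (S τ ω) (S (τ + 1) ω) (vv (S τ ω))
              (vv (S (τ + 1) ω)))
            linarith
          · rw [ind_neg h1, ind_neg h2]
            have h3 : 0 ≤ ∑ p : φ, ind (¬ MovesBelow C rk b (S τ ω)
              (S (τ + 1) ω) (vv (S τ ω)) (vv (S (τ + 1) ω)) ∧
              Circuit.node (S τ ω) (vv (S τ ω)) (C.src p.1 p.2) ≠
                Circuit.node (S (τ + 1) ω) (vv (S (τ + 1) ω)) (C.src p.1 p.2)) :=
              Finset.sum_nonneg (fun p _ => ind_nonneg _)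
            linarith
      have hnodes : ∑ p : φ, ∑ τ ∈ Finset.range N, av (fun ω => ind (¬ MovesBelow C rk b (S τ ω)
            (S (τ + 1) ω) (vv (S τ ω)) (vv (S (τ + 1) ω)) ∧
            Circuit.node (S τ ω) (vv (S τ ω)) (C.src p.1 p.2) ≠
              Circuit.node (S (τ + 1) ω) (vv (S (τ + 1) ω)) (C.src p.1 p.2))) ≤
          Fintype.card φ * ((1 + θ) * (mb C rk vv N S b + 1)) := by
        calc _ ≤ ∑ _p : φ, (1 + θ) * (mb C rk vv N S b + 1) := by
              refine Finset.sum_le_sum (fun p _ => ?_)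
              refine sum_node C l rk hrk b vv hvv hκ hκ2 hε hε1 N S hS (C.src p.1 p.2) ?_
              cases hsrc : C.src p.1 p.2 with
              | inl a => trivial
              | inr g' =>
                  change rk g' < b
                  have h1 := (hrk p.1 p.2 g' hsrc).2 p.1.2.1
                  have h2 := p.1.2.2
                  omega
          _ = Fintype.card φ * ((1 + θ) * (mb C rk vv N S b + 1)) := by
              rw [Finset.sum_const, Finset.card_univ, nsmul_eq_mul]
      have hp := mb_nonneg C rk vv N S b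
      have h5 : (Fintype.card φ : ℝ) * ((1 + θ) * (mb C rk vv N S b + 1)) ≤
          (wires C rk b : ℝ) * ((1 + θ) * (mb C rk vv N S b + 1)) :=
        mul_le_mul_of_nonneg_right hφ (by positivity)
      calc mb C rk vv N S (b + 1) + 1 ≤ (mb C rk vv N S b + 1) *
            ((1 + θ) * (wires C rk b : ℝ) + 1) := by
            nlinarith
        _ ≤ (∏ j ∈ Finset.range b, ((1 + θ) * (wires C rk j : ℝ) + 1)) *
            ((1 + θ) * (wires C rk b : ℝ) + 1) :=
            mul_le_mul_of_nonneg_right ih (by positivity)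

/-- **the mean number of moves along a pseudo-chain, by ranks** -/
theorem moves_rank [Finite G] (C : Circuit J G) (l : Lev C) (rk : G → ℕ) (hrk : Ranked C rk)
    (vv : (J → Bool) → G → Bool) (hvv : ∀ x, C.Consistent x (vv x)) {κ ε : ℝ} (hκ : 0 ≤ κ)
    (hκ2 : κ ≤ 1 / 2) (hε : 0 ≤ ε) (hε1 : ε ≤ 1) (N : ℕ) (S : ℕ → Ω → J → Bool)
    (hS : ∀ τ < N, IsStep C l κ ε (S τ) (S (τ + 1))) (r : ℕ) (hr : ∀ g, rk g < r) :
    ∑ τ ∈ Finset.range N, av (fun ω => ind (Moves C (S τ ω) (S (τ + 1) ω)
        (vv (S τ ω)) (vv (S (τ + 1) ω)))) ≤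
      (2 + (36 * κ + 10 * ε * N)) * ∏ j ∈ Finset.range r,
        ((1 + (36 * κ + 10 * ε * N)) * (wires C rk j : ℝ) + 1) := by
  set θ : ℝ := 36 * κ + 10 * ε * N with hθ
  have hN : (0 : ℝ) ≤ N := Nat.cast_nonneg N
  have hθ0 : 0 ≤ θ := by positivity
  have h1 : ∑ τ ∈ Finset.range N, av (fun ω => ind (Moves C (S τ ω) (S (τ + 1) ω)
        (vv (S τ ω)) (vv (S (τ + 1) ω)))) ≤ mb C rk vv N S r +
      ∑ τ ∈ Finset.range N, av (fun ω => ind (¬ MovesBelow C rk r (S τ ω) (S (τ + 1) ω)
        (vv (S τ ω)) (vv (S (τ + 1) ω)) ∧ Circuit.node (S τ ω) (vv (S τ ω)) (.inr C.out) ≠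
          Circuit.node (S (τ + 1) ω) (vv (S (τ + 1) ω)) (.inr C.out))) := by
    unfold mb
    rw [← Finset.sum_add_distrib]
    refine Finset.sum_le_sum (fun τ _ => ?_)
    rw [← av_add]
    refine av_mono (fun ω => ?_)
    by_cases h1 : MovesBelow C rk r (S τ ω) (S (τ + 1) ω) (vv (S τ ω)) (vv (S (τ + 1) ω))
    · rw [ind_pos h1]
      have h2 := ind_le_one (Moves C (S τ ω) (S (τ + 1) ω) (vv (S τ ω)) (vv (S (τ + 1) ω)))
      have h3 := ind_nonneg (¬ MovesBelow C rk r (S τ ω) (S (τ + 1) ω)
        (vv (S τ ω)) (vv (S (τ + 1) ω)) ∧ Circuit.node (S τ ω) (vv (S τ ω)) (.inr C.out) ≠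
          Circuit.node (S (τ + 1) ω) (vv (S (τ + 1) ω)) (.inr C.out))
      linarith
    · rw [ind_neg h1, zero_add]
      refine ind_mono (fun h2 => ⟨h1, ?_⟩)
      obtain ⟨k, hk⟩ := h2
      cases k with
      | none => exact hk
      | some p => exact absurd ⟨p.1, p.1.2, hr _, p.2, hk⟩ h1
  have h2 := sum_node C l rk hrk r vv hvv hκ hκ2 hε hε1 N S hS (.inr C.out) (hr C.out)
  have h3 := mb_bound C l rk hrk vv hvv hκ hκ2 hε hε1 N S hS r
  rw [← hθ] at h2 h3
  have h4 := mb_nonneg C rk vv N S r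
  calc ∑ τ ∈ Finset.range N, av (fun ω => ind (Moves C (S τ ω) (S (τ + 1) ω)
        (vv (S τ ω)) (vv (S (τ + 1) ω)))) ≤ (2 + θ) * (mb C rk vv N S r + 1) := by
        nlinarith
    _ ≤ (2 + θ) * ∏ j ∈ Finset.range r, ((1 + θ) * (wires C rk j : ℝ) + 1) :=
        mul_le_mul_of_nonneg_left h3 (by linarith)

end Chain

end Pool.Agent.NEGT
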