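import Pool.Agent.Lib.MP_0087d5_lc.NEGT.Core
import Pool.Agent.Lib.MP_0087d5_lc.NEGT.Fml

/-!
The mean number of moves of formulas.
-/

set_option autoImplicit false

namespace Pool.Agent.NEGT

open Pool.Agent.NEG Pool.Agent.NEGS

variable {J G : Type}

theorem ranked_lev (C : Circuit J G) (l : Lev C) : Ranked C l.lev :=
  fun g i g' h => ⟨(l.lt g i g' h).le, fun _ => l.lt g i g' h⟩

/-- a family of forced functions which controls the inputs of the special gates bounds the
number of moves -/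
theorem quiet_ctrl (C : Circuit J G) (l : Lev C) (T : ℕ) (Kf : Type) [Fintype Kf]
    (z : Kf → G → Bool) (nd : Kf → (J ⊕ Bool) ⊕ G) (hT : Fintype.card Kf ≤ T)
    (hctrl : ∀ x y v w, C.Consistent x v → C.Consistent y w →
      (∃ s, ¬ C.Plain s ∧ ∃ i, Circuit.node x v (C.src s i) ≠ Circuit.node y w (C.src s i)) →
      ∃ k, nv C l (z k) (nd k) x ≠ nv C l (z k) (nd k) y)
    {θ0 : ℝ} (hθ : θ0 ≤ 1) : Quiet C l θ0 (9 * ((T + 1 : ℕ) : ℝ)) := by
  intro vv hvv Ω _ _ κ ε hκ hκ2 hε hε1 N S hθN hS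
  have hN : (0 : ℝ) ≤ N := Nat.cast_nonneg N
  set θ : ℝ := 36 * κ + 10 * ε * N with hθd
  have hθ0 : 0 ≤ θ := by positivity
  have hT' : (Fintype.card Kf : ℝ) ≤ T := by exact_mod_cast hT
  -- the changes of the inputs of the special gates
  have hmb : mb C l.lev vv N S (l.top + 1) ≤ T * (1 + θ) := by
    have hpt : ∀ τ ω, ind (MovesBelow C l.lev (l.top + 1) (S τ ω) (S (τ + 1) ω)
        (vv (S τ ω)) (vv (S (τ + 1) ω))) ≤
        ∑ k : Kf, ind (nv C l (z k) (nd k) (S τ ω) ≠ nv C l (z k) (nd k) (S (τ + 1) ω)) := by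
      intro τ ω
      by_cases h1 : MovesBelow C l.lev (l.top + 1) (S τ ω) (S (τ + 1) ω)
          (vv (S τ ω)) (vv (S (τ + 1) ω))
      · obtain ⟨s, hs, _, i, hi⟩ := h1
        obtain ⟨k, hk⟩ := hctrl _ _ _ _ (hvv _) (hvv _) ⟨s, hs, i, hi⟩
        have h2 := Finset.single_le_sum (f := fun k : Kf =>
          ind (nv C l (z k) (nd k) (S τ ω) ≠ nv C l (z k) (nd k) (S (τ + 1) ω)))
          (fun k _ => ind_nonneg _) (Finset.mem_univ k)
        refine le_trans (ind_le_one _) (le_trans (le_of_eq ?_) h2)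
        exact (ind_pos hk).symm
      · rw [ind_neg h1]
        exact Finset.sum_nonneg (fun k _ => ind_nonneg _)
    calc mb C l.lev vv N S (l.top + 1)
        ≤ ∑ τ ∈ Finset.range N, av (fun ω => ∑ k : Kf,
          ind (nv C l (z k) (nd k) (S τ ω) ≠ nv C l (z k) (nd k) (S (τ + 1) ω))) :=
          Finset.sum_le_sum (fun τ _ => av_mono (hpt τ))
      _ = ∑ k : Kf, ∑ τ ∈ Finset.range N, av (fun ω =>
          ind (nv C l (z k) (nd k) (S τ ω) ≠ nv C l (z k) (nd k) (S (τ + 1) ω))) := by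
          rw [Finset.sum_comm]
          refine Finset.sum_congr rfl (fun τ _ => ?_)
          rw [av_sum]
      _ ≤ ∑ _k : Kf, (1 + θ) :=
          Finset.sum_le_sum (fun k _ => sum_fixed C l _ _ hκ hκ2 hε hε1 N S hS)
      _ = Fintype.card Kf * (1 + θ) := by
          rw [Finset.sum_const, Finset.card_univ, nsmul_eq_mul]
      _ ≤ T * (1 + θ) := mul_le_mul_of_nonneg_right hT' (by linarith)
  -- the changes of the output
  have h1 : ∑ τ ∈ Finset.range N, av (fun ω => ind (Moves C (S τ ω) (S (τ + 1) ω)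
        (vv (S τ ω)) (vv (S (τ + 1) ω)))) ≤ mb C l.lev vv N S (l.top + 1) +
      ∑ τ ∈ Finset.range N, av (fun ω => ind (¬ MovesBelow C l.lev (l.top + 1) (S τ ω)
        (S (τ + 1) ω) (vv (S τ ω)) (vv (S (τ + 1) ω)) ∧
          Circuit.node (S τ ω) (vv (S τ ω)) (.inr C.out) ≠
          Circuit.node (S (τ + 1) ω) (vv (S (τ + 1) ω)) (.inr C.out))) := by
    unfold mb
    rw [← Finset.sum_add_distrib]
    refine Finset.sum_le_sum (fun τ _ => ?_)
    rw [← av_add]
    refine av_mono (fun ω => ?_)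
    by_cases h1 : MovesBelow C l.lev (l.top + 1) (S τ ω) (S (τ + 1) ω) (vv (S τ ω))
        (vv (S (τ + 1) ω))
    · rw [ind_pos h1]
      have h2 := ind_le_one (Moves C (S τ ω) (S (τ + 1) ω) (vv (S τ ω)) (vv (S (τ + 1) ω)))
      have h3 := ind_nonneg (¬ MovesBelow C l.lev (l.top + 1) (S τ ω) (S (τ + 1) ω)
        (vv (S τ ω)) (vv (S (τ + 1) ω)) ∧ Circuit.node (S τ ω) (vv (S τ ω)) (.inr C.out) ≠
          Circuit.node (S (τ + 1) ω) (vv (S (τ + 1) ω)) (.inr C.out))
      linarith
    · rw [ind_neg h1, zero_add]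
      refine ind_mono (fun h2 => ⟨h1, ?_⟩)
      obtain ⟨k, hk⟩ := h2
      cases k with
      | none => exact hk
      | some p => exact absurd ⟨p.1, p.1.2, Nat.lt_succ_of_le (l.le_top _), p.2, hk⟩ h1
  have h2 := sum_node C l l.lev (ranked_lev C l) (l.top + 1) vv hvv hκ hκ2 hε hε1 N S hS
    (.inr C.out) (Nat.lt_succ_of_le (l.le_top _))
  rw [← hθd] at h2
  have h3 := mb_nonneg C l.lev vv N S (l.top + 1)
  have hTn : (0 : ℝ) ≤ T := Nat.cast_nonneg T
  have h4 : mb C l.lev vv N S (l.top + 1) ≤ 2 * T := by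
    refine hmb.trans ?_
    nlinarith
  push_cast
  have h5 : (1 + θ) * (mb C l.lev vv N S (l.top + 1) + 1) ≤
      2 * (mb C l.lev vv N S (l.top + 1) + 1) :=
    mul_le_mul_of_nonneg_right (by linarith) (by linarith)
  linarith

/-- a special gate of minimal level at which an input changes -/
theorem min_changed [Finite G] (C : Circuit J G) (l : Lev C) {x y : J → Bool} {v w : G → Bool}
    (hv : C.Consistent x v) (hw : C.Consistent y w)
    (h : ∃ s, ¬ C.Plain s ∧ ∃ i, Circuit.node x v (C.src s i) ≠ Circuit.node y w (C.src s i)) :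
    ∃ s, ¬ C.Plain s ∧ (∃ i, Circuit.node x v (C.src s i) ≠ Circuit.node y w (C.src s i)) ∧
      ∀ s', ¬ C.Plain s' → l.lev s' < l.lev s → v s' = w s' := by
  classical
  have : Fintype G := Fintype.ofFinite G
  let S : Finset G := Finset.univ.filter (fun s => ¬ C.Plain s ∧ ∃ i,
    Circuit.node x v (C.src s i) ≠ Circuit.node y w (C.src s i))
  have hS : S.Nonempty := by
    obtain ⟨s, hs, i, hi⟩ := h
    exact ⟨s, Finset.mem_filter.mpr ⟨Finset.mem_univ _, hs, i, hi⟩⟩
  obtain ⟨s, hsS, hmin⟩ := Finset.exists_min_image S l.lev hS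
  obtain ⟨hs, hi⟩ := (Finset.mem_filter.mp hsS).2
  refine ⟨s, hs, hi, fun s' hs' hlt => ?_⟩
  rw [hv s', hw s']
  congr 1
  funext i
  by_contra hne
  have := hmin s' (Finset.mem_filter.mpr ⟨Finset.mem_univ _, hs', i, hne⟩)
  omega

/-- the true value of an input wire of `s` is the forced value if the constants are right at
the special gates of lower level -/
theorem nv_lower (C : Circuit J G) (l : Lev C) (z : G → Bool) (x : J → Bool) (v : G → Bool)
    (hv : C.Consistent x v) (s : G) (k : Fin (C.arity s))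
    (hz : ∀ s', ¬ C.Plain s' → l.lev s' < l.lev s → z s' = v s') :
    nv C l z (C.src s k) x = Circuit.node x v (C.src s k) := by
  unfold nv
  cases hsrc : C.src s k with
  | inl a => cases a <;> rfl
  | inr g' =>
      have hlt := l.lt s k g' hsrc
      exact fval_true C l z x v hv (l.lev g') (fun s' hs' hle => hz s' hs' (by omega)) g' le_rfl

open Classical in
/-- **formulas** -/
theorem quiet_formula [Fintype G] (C : Circuit J G) (hF : IsFormula C) (l : Lev (padded C))
    (w : ℕ) (hw : Fintype.card (Σ s : {s // ¬ C.Plain s}, Fin (C.arity s)) ≤ w) {θ0 : ℝ}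
    (hθ : θ0 ≤ 1) : Quiet (padded C) l θ0 (9 * ((18 * w + 1 : ℕ) : ℝ)) := by
  refine quiet_ctrl (padded C) l (18 * w)
    ((Σ s : {s // ¬ (padded C).Plain s}, Fin ((padded C).arity s)) × Bool)
    (fun k _ => k.2) (fun k => (padded C).src k.1.1 k.1.2) ?_ ?_ hθ
  · have h1 := card_sp_padded C hF
    rw [Fintype.card_prod, Fintype.card_bool]
    omega
  · intro x y v v' hv hv' hbad
    obtain ⟨s, hs, ⟨i, hi⟩, hlow⟩ := min_changed (padded C) l hv hv' hbad
    obtain ⟨ε, hε⟩ := nv_const C l v ((padded C).src s i)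
    refine ⟨⟨⟨⟨s, hs⟩, i⟩, ε⟩, ?_⟩
    change nv (padded C) l (fun _ => ε) ((padded C).src s i) x ≠
      nv (padded C) l (fun _ => ε) ((padded C).src s i) y
    rw [← hε, ← hε, nv_lower (padded C) l v x v hv s i (fun _ _ _ => rfl),
      nv_lower (padded C) l v y v' hv' s i hlow]
    exact hi

theorem differs_padded (C : Circuit J G) (x y : J → Bool) :
    Differs (padded C) x y ↔ Differs C x y := by
  unfold Differs
  constructor
  · intro h h'
    exact h (fun v w hv hw => h' v w ((padded_consistent C x v).mp hv)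
      ((padded_consistent C y w).mp hw))
  · intro h h'
    exact h (fun v w hv hw => h' v w ((padded_consistent C x v).mpr hv)
      ((padded_consistent C y w).mpr hw))

end Pool.Agent.NEGT
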