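import Pool.Agent.Lib.MP_0087d5_lc.NEGT.Total
import Pool.Agent.Lib.MP_0087d5_lc.NEGT.LocalJ
import Pool.Agent.Lib.MP_0087d5_lc.NEGQ.PickR
import Pool.Agent.Lib.MP_0087d5_lc.NEGQ.NPO
import Pool.Agent.Lib.MP_0087d5_lc.NEGQ.PO8

/-!
The steps of the staircase at the reservoirs are steps of a pseudo-chain.
-/

set_option autoImplicit false

namespace Pool.Agent.NEGT

open Pool.Agent.NEG Pool.Agent.NEGS
open Pool.Agent.NEGQ (Vx gmat big St wc vc lin zc Cl IsPOA)

section Basic

variable {q : ℕ}

theorem av_ind_card {A : Type} [Fintype A] (p : A → Prop) [DecidablePred p] :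
    av (fun s => ind (p s)) = ((Finset.univ.filter p).card : ℝ) / Fintype.card A := by
  unfold av
  congr 1
  rw [Finset.card_filter]
  push_cast
  refine Finset.sum_congr rfl (fun s _ => ?_)
  by_cases h : p s
  · rw [ind_pos h, if_pos h]
  · rw [ind_neg h, if_neg h]

open Classical in
theorem card_cl (hq : 0 < q) : 2 * Fintype.card (Cl q) = 2 ^ (2 * q) := by
  rw [Fintype.card_subtype]
  exact card_odd hq

theorem cl_nonempty (hq : 0 < q) : Nonempty (Cl q) := by
  classical
  apply Fintype.card_pos_iff.mp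
  have h1 := card_cl hq
  have h2 : 0 < 2 ^ (2 * q) := by positivity
  omega

theorem card_cl_filter (p : (Fin q ⊕ Fin q → Bool) → Prop) [DecidablePred p] :
    (Finset.univ.filter (fun z : Cl q => p z.1)).card =
      (Finset.univ.filter (fun c : Fin q ⊕ Fin q → Bool => par c = 1 ∧ p c)).card := by
  rw [← Finset.card_map ⟨Subtype.val, Subtype.val_injective⟩]
  congr 1
  ext c
  rw [Finset.mem_map, Finset.mem_filter]
  constructor
  · rintro ⟨z, h1, rfl⟩
    exact ⟨Finset.mem_univ _, z.2, (Finset.mem_filter.mp h1).2⟩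
  · rintro ⟨_, h1, h2⟩
    exact ⟨⟨c, h1⟩, Finset.mem_filter.mpr ⟨Finset.mem_univ _, h2⟩, rfl⟩

end Basic

section Res

variable {E q lam : ℕ} {𝒜 : Set ((Fin q × Fin q → Bool) → Prop)} {J G : Type}

open Classical in
/-- the two cases for a node of a forced circuit, in the mean -/
theorem alt_av (hq : 0 < q) (hE : 1 ≤ E) (hlam : 1 ≤ lam) (h𝒜 : IsApp E q 𝒜)
    (hpoa : IsPOA lam q 𝒜) [Fintype G] (C : Circuit J G) (l : Lev C) (z : G → Bool)
    (nd : (J ⊕ Bool) ⊕ G) (f : J → (Fin q × Fin q) ⊕ Bool) :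
    av (fun s : Equiv.Perm (Fin q) => ind (nv C l z nd (pl f (xin s)) = true)) ≤
        (1 / (lam : ℝ)) * av (fun c : Cl q => ind (nv C l z nd (pl f (zc c)) = true)) +
          (Fintype.card G : ℝ) / 2 ^ E ∨
      av (fun c : Cl q => ind (nv C l z nd (pl f (zc c)) = false)) ≤
        (Fintype.card G : ℝ) / 2 ^ E := by
  have hcl := card_cl hq
  have hD : Fintype.card (Cl q) = 2 ^ (2 * q - 1) := by
    have h2 : 2 ^ (2 * q) = 2 * 2 ^ (2 * q - 1) := by
      rw [← pow_succ']
      congr 1
      omega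
    omega
  set D : ℝ := (Fintype.card (Cl q) : ℝ) with hDdef
  have hD' : D = (2 : ℝ) ^ (2 * q - 1) := by
    rw [hDdef, hD]
    push_cast
    rfl
  have hD2 : (2 : ℝ) ^ (2 * q) = 2 * D := by
    rw [hDdef]
    exact_mod_cast hcl.symm
  have hD0 : 0 < D := by rw [hD']; positivity
  have hQ0 : (0 : ℝ) < q.factorial := by exact_mod_cast Nat.factorial_pos q
  have hlam0 : (1 : ℝ) ≤ lam := by exact_mod_cast hlam
  have hg : (0 : ℝ) ≤ Fintype.card G := Nat.cast_nonneg _
  have h8 : (8 : ℝ) ≤ 2 ^ (3 * E) := by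
    calc (8 : ℝ) = 2 ^ 3 := by norm_num
      _ ≤ 2 ^ (3 * E) := pow_le_pow_right₀ (by norm_num) (by omega)
  have h4E : (2 : ℝ) ^ (4 * E) = 2 ^ E * 2 ^ (3 * E) := by
    rw [← pow_add]
    congr 1
    omega
  have hE0 : (0 : ℝ) < 2 ^ E := by positivity
  have h2E : (2 : ℝ) / 2 ^ (4 * E) ≤ (1 / 4) / 2 ^ E := by
    rw [h4E, div_le_div_iff₀ (by positivity) (by positivity)]
    nlinarith
  -- the colourings and the graphs above them
  have hmonT : av (fun c : Cl q => ind (nv C l z nd (pl f (yin c.1)) = true)) ≤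
      av (fun c : Cl q => ind (nv C l z nd (pl f (zc c)) = true)) :=
    av_mono (fun c => ind_mono (nv_mono C l z nd
      (fun e => pl_mono f (fun x h => NEGQ.yin_le_zc c x h) e)))
  have hmonF : av (fun c : Cl q => ind (nv C l z nd (pl f (zc c)) = false)) ≤
      av (fun c : Cl q => ind (nv C l z nd (pl f (yin c.1)) = false)) := by
    refine av_mono (fun c => ind_mono (fun h => ?_))
    have h1 := nv_mono C l z nd (fun e => pl_mono f (fun x h => NEGQ.yin_le_zc c x h) e)
    cases h2 : nv C l z nd (pl f (yin c.1))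
    · rfl
    · rw [h1 h2] at h
      exact absurd h (by decide)
  rcases NEGQ.node_alt h𝒜 (lam * 2 ^ (2 * q - 1)) q.factorial (fun A hA => by
      rcases hpoa A hA with h | h
      · exact Or.inl h
      · right
        rw [Nat.mul_assoc]
        exact h) C l z f nd with h | h
  · left
    rw [← card_cl_filter (fun c => nv C l z nd (pl f (yin c)) = true), hD2] at h
    push_cast at h
    rw [← hD'] at h
    have hs : av (fun s : Equiv.Perm (Fin q) => ind (nv C l z nd (pl f (xin s)) = true)) =
        ((Finset.univ.filter (fun s : Equiv.Perm (Fin q) =>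
          nv C l z nd (pl f (xin s)) = true)).card : ℝ) / q.factorial := by
      rw [av_ind_card, Fintype.card_perm, Fintype.card_fin]
    have hc := av_ind_card (fun c : Cl q => nv C l z nd (pl f (yin c.1)) = true)
    rw [← hDdef] at hc
    set X : ℝ := ((Finset.univ.filter (fun s : Equiv.Perm (Fin q) =>
          nv C l z nd (pl f (xin s)) = true)).card : ℝ) with hX
    set Y : ℝ := ((Finset.univ.filter (fun c : Cl q =>
          nv C l z nd (pl f (yin c.1)) = true)).card : ℝ) with hY
    have h1 : X / q.factorial ≤ (1 / (lam : ℝ)) * (Y / D) +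
        Fintype.card G * (1 / (8 * 2 ^ E) + (1 / lam) * (2 / 2 ^ (4 * E))) := by
      have hpos : (0 : ℝ) < lam * D * q.factorial := by positivity
      have e1 : X / q.factorial * (lam * D * q.factorial) = lam * D * X := by
        field_simp
      have e2 : ((1 / (lam : ℝ)) * (Y / D) +
          Fintype.card G * (1 / (8 * 2 ^ E) + (1 / lam) * (2 / 2 ^ (4 * E)))) *
          (lam * D * q.factorial) = q.factorial * Y + Fintype.card G *
          (lam * D * (q.factorial / (8 * 2 ^ E)) + q.factorial * (2 * D / 2 ^ (4 * E))) := by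
        field_simp
      refine le_of_mul_le_mul_right ?_ hpos
      rw [e1, e2]
      exact h
    have h2 : (Fintype.card G : ℝ) * (1 / (8 * 2 ^ E) + (1 / lam) * (2 / 2 ^ (4 * E))) ≤
        (Fintype.card G : ℝ) / 2 ^ E := by
      have h3 : (1 / (lam : ℝ)) ≤ 1 := by
        rw [div_le_one (by linarith)]
        exact hlam0
      have h4 : (1 / (lam : ℝ)) * (2 / 2 ^ (4 * E)) ≤ (1 / 4) / 2 ^ E := by
        calc (1 / (lam : ℝ)) * (2 / 2 ^ (4 * E)) ≤ 1 * (2 / 2 ^ (4 * E)) :=
              mul_le_mul_of_nonneg_right h3 (by positivity)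
          _ ≤ (1 / 4) / 2 ^ E := by rw [one_mul]; exact h2E
      have h5 : (1 : ℝ) / (8 * 2 ^ E) + (1 / 4) / 2 ^ E ≤ 1 / 2 ^ E := by
        have : (1 : ℝ) / (8 * 2 ^ E) + (1 / 4) / 2 ^ E = (3 / 8) / 2 ^ E := by
          field_simp
          norm_num
        rw [this]
        gcongr
        norm_num
      calc (Fintype.card G : ℝ) * (1 / (8 * 2 ^ E) + (1 / lam) * (2 / 2 ^ (4 * E)))
          ≤ (Fintype.card G : ℝ) * (1 / 2 ^ E) :=
            mul_le_mul_of_nonneg_left (by linarith) hg
        _ = _ := by ring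
    rw [hs]
    have h6 : (1 / (lam : ℝ)) * (Y / D) ≤ (1 / (lam : ℝ)) *
        av (fun c : Cl q => ind (nv C l z nd (pl f (zc c)) = true)) := by
      rw [← hc]
      exact mul_le_mul_of_nonneg_left hmonT (by positivity)
    linarith
  · right
    refine hmonF.trans ?_
    rw [av_ind_card, ← hDdef]
    have h1 : ((Finset.univ.filter (fun c : Cl q =>
        nv C l z nd (pl f (yin c.1)) = false)).card : ℝ) ≤
        ((Finset.univ.filter (fun c : Fin q ⊕ Fin q → Bool =>
        nv C l z nd (pl f (yin c)) = false)).card : ℝ) := by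
      rw [card_cl_filter (fun c => nv C l z nd (pl f (yin c)) = false)]
      exact_mod_cast Finset.card_le_card (fun c hc => by
        rw [Finset.mem_filter] at hc ⊢
        exact ⟨hc.1, hc.2.2⟩)
    rw [div_le_iff₀ hD0]
    rw [hD2] at h
    calc ((Finset.univ.filter (fun c : Cl q =>
        nv C l z nd (pl f (yin c.1)) = false)).card : ℝ) ≤
          Fintype.card G * (2 * D / 2 ^ (4 * E)) := h1.trans h
      _ = Fintype.card G * (2 / 2 ^ (4 * E)) * D := by ring
      _ ≤ Fintype.card G * ((1 / 4) / 2 ^ E) * D := by gcongr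
      _ ≤ Fintype.card G / 2 ^ E * D := by
          have : (Fintype.card G : ℝ) * ((1 / 4) / 2 ^ E) ≤ Fintype.card G / 2 ^ E := by
            rw [mul_div_assoc']
            gcongr
            linarith
          exact mul_le_mul_of_nonneg_right this hD0.le

end Res

end Pool.Agent.NEGT
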