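import Pool.Agent.Lib.MP_0087d5_lc.NEGT.Res

/-!
The staircase is a pseudo-chain.
-/

set_option autoImplicit false

namespace Pool.Agent.NEGT

open Pool.Agent.NEG Pool.Agent.NEGS
open Pool.Agent.NEGQ (Vx gmat big St wc vc lin zc Cl IsPOA)

theorem pull_mono {I J : Type} (f : J → I ⊕ Bool) {x y : I → Bool}
    (h : ∀ i, x i = true → y i = true) (j : J) (hj : pull f x j = true) :
    pull f y j = true := by
  unfold pull at hj ⊢
  cases h1 : f j with
  | inl i =>
      rw [h1] at hj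
      exact h i hj
  | inr b =>
      rw [h1] at hj
      exact hj

/-- the space of the random choices -/
abbrev Om (q K L : ℕ) : Type :=
  (Fin K × Fin L → Equiv.Perm (Fin q)) × (Fin K × Fin q → Equiv.Perm (Fin q)) ×
    (Fin K × Fin q → Cl q)

variable {q K L n : ℕ} {R J G : Type} [DecidableEq R]

/-- the state as an input of the circuit -/
noncomputable def Sc (e : Fin n ≃ Vx q K L ⊕ R) (sg : J → (Fin n × Fin n) ⊕ Bool) (a j b : ℕ)
    (ω : Om q K L) : J → Bool :=
  pull sg (St e a j b ω.1 ω.2.1 ω.2.2)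

theorem inc_window (e : Fin n ≃ Vx q K L ⊕ R) (sg : J → (Fin n × Fin n) ⊕ Bool) (a j b : ℕ) :
    IsInc (Sc e sg a j b) (Sc e sg a (j + 1) b) :=
  fun ω => pull_mono sg (fun f h => NEGQ.St_window e ω.1 ω.2.1 ω.2.2 f h)

theorem inc_phase (e : Fin n ≃ Vx q K L ⊕ R) (sg : J → (Fin n × Fin n) ⊕ Bool)
    (a j b j' : ℕ) : IsInc (Sc e sg a j b) (Sc e sg (a + 1) j' b) :=
  fun ω => pull_mono sg (fun f h => NEGQ.St_phase e ω.1 ω.2.1 ω.2.2 f h)

/-- the state with a free reservoir -/
noncomputable def fr (e : Fin n ≃ Vx q K L ⊕ R) (sg : J → (Fin n × Fin n) ⊕ Bool) (a : ℕ)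
    (w : ℕ → Fin q × Fin q → Bool) (v : Fin K × Fin q → Fin q × Fin q → Bool)
    (r : Fin K × Fin q) : J → (Fin q × Fin q) ⊕ Bool :=
  cmp sg (big (.inr true) (.inr false) e (gmat (.inr true) (.inr false) a
    (fun j' y => .inr (w j' y))
    (Function.update (fun r' y => (.inr (v r' y) : (Fin q × Fin q) ⊕ Bool)) r
      (fun y => .inl y))))

theorem pl_fr (e : Fin n ≃ Vx q K L ⊕ R) (sg : J → (Fin n × Fin n) ⊕ Bool) (a : ℕ)
    (w : ℕ → Fin q × Fin q → Bool) (v : Fin K × Fin q → Fin q × Fin q → Bool)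
    (r : Fin K × Fin q) (y : Fin q × Fin q → Bool) :
    pl (fr e sg a w v r) y = pull sg (big true false e (gmat true false a w
      (Function.update v r y))) := by
  unfold fr
  rw [pl_cmp, NEGQ.pl_free_reservoir]

theorem vc_forget_c (x : Fin K × Fin q → Equiv.Perm (Fin q)) (c : Fin K × Fin q → Cl q)
    (r : Fin K × Fin q) (z : Cl q) : vc x (Function.update c r z) (lin r) = vc x c (lin r) := by
  funext r'
  unfold vc
  by_cases h : r' = r
  · subst h
    rw [if_neg (lt_irrefl _), if_neg (lt_irrefl _)]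
  · rw [Function.update_of_ne h]

theorem vc_forget_x (x : Fin K × Fin q → Equiv.Perm (Fin q)) (c : Fin K × Fin q → Cl q)
    (r : Fin K × Fin q) (s : Equiv.Perm (Fin q)) :
    vc (Function.update x r s) c (lin r + 1) = vc x c (lin r + 1) := by
  funext r'
  unfold vc
  by_cases h : r' = r
  · subst h
    rw [if_pos (Nat.lt_succ_self _), if_pos (Nat.lt_succ_self _)]
  · rw [Function.update_of_ne h]

open Classical in
/-- the replacement of the perfect matching of a reservoir by a cut -/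
theorem rep_reservoir {E lam : ℕ} {𝒜 : Set ((Fin q × Fin q → Bool) → Prop)} (hq : 0 < q)
    (hE : 1 ≤ E) (hlam : 1 ≤ lam) (h𝒜 : IsApp E q 𝒜) (hpoa : IsPOA lam q 𝒜) [Fintype G]
    (e : Fin n ≃ Vx q K L ⊕ R) (sg : J → (Fin n × Fin n) ⊕ Bool) (C : Circuit J G) (l : Lev C)
    (a j : ℕ) (r : Fin K × Fin q) :
    IsRep C l (1 / (lam : ℝ)) ((Fintype.card G : ℝ) / 2 ^ E) (Sc e sg a j (lin r))
      (Sc e sg a j (lin r + 1)) := by
  have hne : Nonempty (Cl q) := cl_nonempty hq
  obtain ⟨c0⟩ := hne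
  let ex : (Fin K × Fin q → Equiv.Perm (Fin q)) ≃
      Equiv.Perm (Fin q) × ({r' // r' ≠ r} → Equiv.Perm (Fin q)) :=
    Equiv.funSplitAt r (Equiv.Perm (Fin q))
  let ec : (Fin K × Fin q → Cl q) ≃ Cl q × ({r' // r' ≠ r} → Cl q) := Equiv.funSplitAt r (Cl q)
  let eΩ : Om q K L ≃ ((Fin K × Fin L → Equiv.Perm (Fin q)) ×
      ({r' // r' ≠ r} → Equiv.Perm (Fin q)) × ({r' // r' ≠ r} → Cl q)) ×
      (Equiv.Perm (Fin q) × Cl q) :=
    { toFun := fun ω => ((ω.1, (ex ω.2.1).2, (ec ω.2.2).2), ((ex ω.2.1).1, (ec ω.2.2).1))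
      invFun := fun p => (p.1.1, ex.symm (p.2.1, p.1.2.1), ec.symm (p.2.2, p.1.2.2))
      left_inv := fun ω => by
        change (ω.1, ex.symm (ex ω.2.1), ec.symm (ec ω.2.2)) = ω
        rw [Equiv.symm_apply_apply, Equiv.symm_apply_apply]
      right_inv := fun p => by
        change ((p.1.1, (ex (ex.symm (p.2.1, p.1.2.1))).2, (ec (ec.symm (p.2.2, p.1.2.2))).2),
          ((ex (ex.symm (p.2.1, p.1.2.1))).1, (ec (ec.symm (p.2.2, p.1.2.2))).1)) = p
        rw [Equiv.apply_symm_apply, Equiv.apply_symm_apply] }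
  have hex : ∀ (x : Fin K × Fin q → Equiv.Perm (Fin q)) (s : Equiv.Perm (Fin q)),
      ex.symm (s, (ex x).2) = Function.update x r s := by
    intro x s
    apply ex.injective
    rw [Equiv.apply_symm_apply]
    change (s, (fun j : {r' // r' ≠ r} => x j)) = ((Function.update x r s) r,
      (fun j : {r' // r' ≠ r} => (Function.update x r s) j))
    rw [Function.update_self]
    congr 1
    funext j
    rw [Function.update_of_ne j.2]
  have hec : ∀ (c : Fin K × Fin q → Cl q) (z : Cl q),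
      ec.symm (z, (ec c).2) = Function.update c r z := by
    intro c z
    apply ec.injective
    rw [Equiv.apply_symm_apply]
    change (z, (fun j : {r' // r' ≠ r} => c j)) = ((Function.update c r z) r,
      (fun j : {r' // r' ≠ r} => (Function.update c r z) j))
    rw [Function.update_self]
    congr 1
    funext j
    rw [Function.update_of_ne j.2]
  refine ⟨Equiv.Perm (Fin q), Cl q, (Fin K × Fin L → Equiv.Perm (Fin q)) ×
      ({r' // r' ≠ r} → Equiv.Perm (Fin q)) × ({r' // r' ≠ r} → Cl q), inferInstance,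
    inferInstance, inferInstance, inferInstance, ⟨c0⟩,
    ⟨(fun _ => Equiv.refl _, fun _ => Equiv.refl _, fun _ => c0)⟩, eΩ,
    fun γ s => Sc e sg a j (lin r) (γ.1, ex.symm (s, γ.2.1), ec.symm (c0, γ.2.2)),
    fun γ z => Sc e sg a j (lin r + 1) (γ.1, ex.symm (Equiv.refl _, γ.2.1),
      ec.symm (z, γ.2.2)), ?_, ?_, ?_⟩
  · intro ω
    change Sc e sg a j (lin r) ω = Sc e sg a j (lin r) (ω.1, ex.symm ((ex ω.2.1).1, (ex ω.2.1).2),
      ec.symm (c0, (ec ω.2.2).2))
    rw [Prod.mk.eta, Equiv.symm_apply_apply, hec]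
    unfold Sc St
    rw [vc_forget_c]
  · intro ω
    change Sc e sg a j (lin r + 1) ω = Sc e sg a j (lin r + 1) (ω.1,
      ex.symm (Equiv.refl _, (ex ω.2.1).2), ec.symm ((ec ω.2.2).1, (ec ω.2.2).2))
    rw [Prod.mk.eta, Equiv.symm_apply_apply, hex]
    unfold Sc St
    rw [vc_forget_x]
  · intro z nd γ
    set x0 : Fin K × Fin q → Equiv.Perm (Fin q) := ex.symm (Equiv.refl _, γ.2.1) with hx0
    set c1 : Fin K × Fin q → Cl q := ec.symm (c0, γ.2.2) with hc1
    have hx : ∀ s, ex.symm (s, γ.2.1) = Function.update x0 r s := by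
      intro s
      rw [← hex, hx0, Equiv.apply_symm_apply]
    have hc : ∀ z, ec.symm (z, γ.2.2) = Function.update c1 r z := by
      intro z
      rw [← hec, hc1, Equiv.apply_symm_apply]
    have hA : ∀ s, Sc e sg a j (lin r) (γ.1, ex.symm (s, γ.2.1), c1) =
        pl (fr e sg (a + 1) (wc γ.1 a j) (vc x0 c1 (lin r)) r) (xin s) := by
      intro s
      rw [pl_fr, hx]
      unfold Sc St
      rw [NEGQ.vc_update]
    have hB : ∀ z, Sc e sg a j (lin r + 1) (γ.1, x0, ec.symm (z, γ.2.2)) =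
        pl (fr e sg (a + 1) (wc γ.1 a j) (vc x0 c1 (lin r)) r) (zc z) := by
      intro z
      rw [pl_fr, hc]
      unfold Sc St
      rw [NEGQ.vc_update']
    have h := alt_av hq hE hlam h𝒜 hpoa C l z nd
      (fr e sg (a + 1) (wc γ.1 a j) (vc x0 c1 (lin r)) r)
    simp only [← hA, ← hB] at h
    exact h

/-- the length of a phase -/
def ph (q L : ℕ) : ℕ := q + L + 1

/-- the states of the staircase -/
noncomputable def chS (e : Fin n ≃ Vx q K L ⊕ R) (sg : J → (Fin n × Fin n) ⊕ Bool) (τ : ℕ) :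
    Om q K L → J → Bool :=
  Sc e sg (τ / ph q L) (τ % ph q L - q) ((τ / ph q L) * q + min (τ % ph q L) q)

/-- the state at a given phase and a given time in the phase -/
theorem chS_eq (e : Fin n ≃ Vx q K L ⊕ R) (sg : J → (Fin n × Fin n) ⊕ Bool) (a i : ℕ)
    (hi : i < ph q L) : chS e sg (a * ph q L + i) = Sc e sg a (i - q) (a * q + min i q) := by
  unfold chS
  have h0 : 0 < ph q L := by unfold ph; omega
  have h1 : (a * ph q L + i) / ph q L = a := by
    rw [Nat.add_comm, Nat.add_mul_div_right _ _ h0, Nat.div_eq_of_lt hi, Nat.zero_add]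
  have h2 : (a * ph q L + i) % ph q L = i := by
    rw [Nat.add_comm, Nat.add_mul_mod_self_right, Nat.mod_eq_of_lt hi]
  rw [h1, h2]

open Classical in
/-- **the staircase is a pseudo-chain** -/
theorem isStep_chS {E lam : ℕ} {𝒜 : Set ((Fin q × Fin q → Bool) → Prop)} (hq : 0 < q)
    (hE : 1 ≤ E) (hlam : 1 ≤ lam) (h𝒜 : IsApp E q 𝒜) (hpoa : IsPOA lam q 𝒜) [Fintype G]
    (e : Fin n ≃ Vx q K L ⊕ R) (sg : J → (Fin n × Fin n) ⊕ Bool) (C : Circuit J G) (l : Lev C)
    (τ : ℕ) (hτ : τ < K * ph q L) :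
    IsStep C l (1 / (lam : ℝ)) ((Fintype.card G : ℝ) / 2 ^ E) (chS e sg τ)
      (chS e sg (τ + 1)) := by
  have h0 : 0 < ph q L := by unfold ph; omega
  have hP : ph q L = q + L + 1 := rfl
  set a : ℕ := τ / ph q L with ha
  set i : ℕ := τ % ph q L with hi
  have hdm : τ = a * ph q L + i := by
    rw [ha, hi, Nat.mul_comm]
    exact (Nat.div_add_mod τ (ph q L)).symm
  have hil : i < ph q L := Nat.mod_lt _ h0
  have haK : a < K := (Nat.div_lt_iff_lt_mul h0).mpr hτ
  rw [hdm, chS_eq e sg a i hil]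
  rcases lt_or_ge i q with h1 | h1
  · -- a reservoir
    right
    rw [Nat.add_assoc, chS_eq e sg a (i + 1) (by omega)]
    have h2 : i - q = 0 := by omega
    have h3 : i + 1 - q = 0 := by omega
    have hlin : lin (((⟨a, haK⟩, ⟨i, h1⟩) : Fin K × Fin q)) = a * q + i := by
      unfold lin
      rw [finProdFinEquiv_apply_val]
      change i + q * a = a * q + i
      ring
    rw [h2, h3, min_eq_left h1.le, min_eq_left (show i + 1 ≤ q by omega), ← Nat.add_assoc,
      ← hlin]
    exact rep_reservoir hq hE hlam h𝒜 hpoa e sg C l a 0 _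
  · left
    rw [min_eq_right h1]
    rcases Nat.lt_or_ge (i + 1) (ph q L) with h2 | h2
    · rw [Nat.add_assoc, chS_eq e sg a (i + 1) h2, min_eq_right (show q ≤ i + 1 by omega)]
      have h3 : i + 1 - q = (i - q) + 1 := by omega
      rw [h3]
      exact inc_window e sg a (i - q) _
    · have h3 : a * ph q L + i + 1 = (a + 1) * ph q L + 0 := by
        rw [Nat.add_mul, Nat.one_mul]
        omega
      rw [h3, chS_eq e sg (a + 1) 0 h0]
      have h4 : (a + 1) * q + min 0 q = a * q + q := by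
        rw [Nat.zero_min]
        ring
      rw [h4]
      exact inc_phase e sg a (i - q) _ _

end Pool.Agent.NEGT
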