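import Pool.Agent.Lib.MP_0087d5_lc.NEGT.PChain

/-!
The mean number of moves along a pseudo-chain, by the number of special gates.
-/

set_option autoImplicit false

namespace Pool.Agent.NEGT

open Pool.Agent.NEG Pool.Agent.NEGS

variable {J G Ω : Type} [Fintype Ω] [Nonempty Ω]

/-- one step and one monotone function of the circuit -/
theorem step_fixed (C : Circuit J G) (l : Lev C) (z : G → Bool) (nd : (J ⊕ Bool) ⊕ G)
    {κ ε : ℝ} (hκ : 0 ≤ κ) (hκ2 : κ ≤ 1 / 2) (hε : 0 ≤ ε) (hε1 : ε ≤ 1) (S S' : Ω → J → Bool)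
    (hS : IsStep C l κ ε S S') :
    av (fun ω => ind (nv C l z nd (S ω) ≠ nv C l z nd (S' ω))) ≤
      (1 + 8 * κ) * (av (fun ω => ind (nv C l z nd (S' ω) = true)) -
        av (fun ω => ind (nv C l z nd (S ω) = true))) + 10 * ε := by
  rcases hS with hS | hS
  · have h1 : av (fun ω => ind (nv C l z nd (S ω) ≠ nv C l z nd (S' ω))) =
        av (fun ω => ind (nv C l z nd (S' ω) = true)) -
        av (fun ω => ind (nv C l z nd (S ω) = true)) := by
      rw [← av_sub]
      congr 1
      funext ω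
      have hmon := nv_mono C l z nd (hS ω)
      cases h2 : nv C l z nd (S ω) <;> cases h3 : nv C l z nd (S' ω)
      · rw [ind_neg (by simp), ind_neg (by simp)]
        norm_num
      · rw [ind_pos (by simp), ind_pos rfl, ind_neg (by simp)]
        norm_num
      · rw [hmon h2] at h3
        exact absurd h3 (by decide)
      · rw [ind_neg (by simp), ind_pos rfl]
        norm_num
    rw [h1]
    have h4 : 0 ≤ av (fun ω => ind (nv C l z nd (S' ω) = true)) -
        av (fun ω => ind (nv C l z nd (S ω) = true)) := by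
      rw [← h1]
      exact av_nonneg (fun ω => ind_nonneg _)
    nlinarith
  · obtain ⟨A, B, Γ, _, _, _, _, _, _, e, sA, sB, hSS, hSS', hamp⟩ := hS
    have hγ : ∀ γ : Γ, av (fun s => av (fun c =>
        ind (nv C l z nd (sA γ s) ≠ nv C l z nd (sB γ c)))) ≤
        (1 + 8 * κ) * (av (fun c => ind (nv C l z nd (sB γ c) = true)) -
          av (fun s => ind (nv C l z nd (sA γ s) = true))) + 10 * ε := by
      intro γ
      have h1 := prob_step (fun _ : A => ()) (fun _ : B => ())
        (fun s => nv C l z nd (sA γ s)) (fun c => nv C l z nd (sB γ c))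
        (fun _ s => nv C l z nd (sA γ s)) (fun _ c => nv C l z nd (sB γ c))
        (fun _ => rfl) (fun _ => rfl) hκ hκ2 hε hε1 (fun _ => hamp z nd γ)
      have h3 : ind ((() : Unit) ≠ ()) = 0 := ind_neg (fun h => h rfl)
      simp only [h3, av_const, mul_zero, add_zero, true_and] at h1
      exact h1
    have hav := av_mono hγ
    rw [av_add, av_mul_left, av_sub, av_const] at hav
    have e1 : av (fun ω => ind (nv C l z nd (S ω) ≠ nv C l z nd (S' ω))) =
        av (fun γ => av (fun s => av (fun c =>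
          ind (nv C l z nd (sA γ s) ≠ nv C l z nd (sB γ c))))) := by
      rw [av_equiv e, av_prod]
      congr 1
      funext γ
      rw [av_prod]
      congr 1
      funext s
      congr 1
      funext c
      rw [hSS, hSS']
      simp only [Equiv.apply_symm_apply]
    have e3 : av (fun ω => ind (nv C l z nd (S' ω) = true)) =
        av (fun γ => av (fun c => ind (nv C l z nd (sB γ c) = true))) := by
      rw [av_equiv e, av_prod]
      congr 1
      funext γ
      rw [av_prod]
      have : ∀ s : A, av (fun c => ind (nv C l z nd (S' (e.symm (γ, (s, c)))) = true)) =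
          av (fun c => ind (nv C l z nd (sB γ c) = true)) := by
        intro s
        congr 1
        funext c
        rw [hSS']
        simp only [Equiv.apply_symm_apply]
      simp only [this]
      exact av_const _
    have e4 : av (fun ω => ind (nv C l z nd (S ω) = true)) =
        av (fun γ => av (fun s => ind (nv C l z nd (sA γ s) = true))) := by
      rw [av_equiv e, av_prod]
      congr 1
      funext γ
      rw [av_prod]
      congr 1
      funext s
      have : ∀ c : B, ind (nv C l z nd (S (e.symm (γ, (s, c)))) = true) =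
          ind (nv C l z nd (sA γ s) = true) := by
        intro c
        rw [hSS]
        simp only [Equiv.apply_symm_apply]
      simp only [this]
      exact av_const _
    rw [e1, e3, e4]
    exact hav

/-- the mean number of changes of one monotone function of the circuit -/
theorem sum_fixed (C : Circuit J G) (l : Lev C) (z : G → Bool) (nd : (J ⊕ Bool) ⊕ G)
    {κ ε : ℝ} (hκ : 0 ≤ κ) (hκ2 : κ ≤ 1 / 2) (hε : 0 ≤ ε) (hε1 : ε ≤ 1) (N : ℕ)
    (S : ℕ → Ω → J → Bool) (hS : ∀ τ < N, IsStep C l κ ε (S τ) (S (τ + 1))) :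
    ∑ τ ∈ Finset.range N, av (fun ω => ind (nv C l z nd (S τ ω) ≠ nv C l z nd (S (τ + 1) ω))) ≤
      1 + (36 * κ + 10 * ε * N) := by
  have hN : (0 : ℝ) ≤ N := Nat.cast_nonneg N
  let E : ℕ → ℝ := fun τ => av (fun ω => ind (nv C l z nd (S τ ω) = true))
  have h1 : ∑ τ ∈ Finset.range N, av (fun ω =>
      ind (nv C l z nd (S τ ω) ≠ nv C l z nd (S (τ + 1) ω))) ≤
      ∑ τ ∈ Finset.range N, ((1 + 8 * κ) * (E (τ + 1) - E τ) + 10 * ε) :=
    Finset.sum_le_sum (fun τ hτ => step_fixed C l _ _ hκ hκ2 hε hε1 (S τ) (S (τ + 1))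
      (hS τ (Finset.mem_range.mp hτ)))
  rw [Finset.sum_add_distrib, ← Finset.mul_sum, Finset.sum_range_sub, Finset.sum_const,
    Finset.card_range, nsmul_eq_mul] at h1
  have hEN : E N ≤ 1 := av_le_one (fun ω => ind_le_one _)
  have hE0 : 0 ≤ E 0 := av_nonneg (fun ω => ind_nonneg _)
  have h2 : (1 + 8 * κ) * (E N - E 0) ≤ (1 + 8 * κ) * 1 :=
    mul_le_mul_of_nonneg_left (by linarith) (by linarith)
  linarith

open Classical in
/-- **the mean number of moves along a pseudo-chain, by the number of special gates** -/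
theorem moves_total [Finite G] (C : Circuit J G) (l : Lev C)
    (t m : ℕ) (ht : {g | ¬ C.Plain g}.ncard ≤ t) (hm : ∀ g, ¬ C.Plain g → C.arity g ≤ m)
    (vv : (J → Bool) → G → Bool) (hvv : ∀ x, C.Consistent x (vv x)) {κ ε : ℝ} (hκ : 0 ≤ κ)
    (hκ2 : κ ≤ 1 / 2) (hε : 0 ≤ ε) (hε1 : ε ≤ 1) (N : ℕ) (S : ℕ → Ω → J → Bool)
    (hS : ∀ τ < N, IsStep C l κ ε (S τ) (S (τ + 1))) :
    ∑ τ ∈ Finset.range N, av (fun ω => ind (Moves C (S τ ω) (S (τ + 1) ω)
        (vv (S τ ω)) (vv (S (τ + 1) ω)))) ≤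
      (1 + (36 * κ + 10 * ε * N)) * (2 * (m * 2 ^ t + 1)) := by
  have : Fintype G := Fintype.ofFinite G
  have hN : (0 : ℝ) ≤ N := Nat.cast_nonneg N
  have hsp : Fintype.card {s // ¬ C.Plain s} ≤ t := by
    rw [← Nat.card_eq_fintype_card]
    exact ht
  have hι := card_idxI C l t m hsp hm
  have hι' : (Fintype.card (IdxI C l) : ℝ) ≤ 2 * (m * 2 ^ t + 1) := by exact_mod_cast hι
  -- one function
  have hone : ∀ k : IdxI C l, ∑ τ ∈ Finset.range N, av (fun ω =>
      ind (nv C l (zOfI C l k) (nodI C l k) (S τ ω) ≠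
        nv C l (zOfI C l k) (nodI C l k) (S (τ + 1) ω))) ≤ 1 + (36 * κ + 10 * ε * N) :=
    fun k => sum_fixed C l _ _ hκ hκ2 hε hε1 N S hS
  have hpt : ∀ τ ω, ind (Moves C (S τ ω) (S (τ + 1) ω) (vv (S τ ω)) (vv (S (τ + 1) ω))) ≤
      ∑ k : IdxI C l, ind (nv C l (zOfI C l k) (nodI C l k) (S τ ω) ≠
        nv C l (zOfI C l k) (nodI C l k) (S (τ + 1) ω)) := by
    intro τ ω
    by_cases h1 : Moves C (S τ ω) (S (τ + 1) ω) (vv (S τ ω)) (vv (S (τ + 1) ω))
    · obtain ⟨k, hk⟩ := moves_idx C l (hvv _) (hvv _) h1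
      have h2 := Finset.single_le_sum (f := fun k : IdxI C l =>
        ind (nv C l (zOfI C l k) (nodI C l k) (S τ ω) ≠
        nv C l (zOfI C l k) (nodI C l k) (S (τ + 1) ω)))
        (fun k _ => ind_nonneg _) (Finset.mem_univ k)
      rw [ind_pos h1]
      refine le_trans (le_of_eq ?_) h2
      exact (ind_pos hk).symm
    · rw [ind_neg h1]
      exact Finset.sum_nonneg (fun k _ => ind_nonneg _)
  calc ∑ τ ∈ Finset.range N, av (fun ω => ind (Moves C (S τ ω) (S (τ + 1) ω)
        (vv (S τ ω)) (vv (S (τ + 1) ω))))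
      ≤ ∑ τ ∈ Finset.range N, av (fun ω => ∑ k : IdxI C l,
        ind (nv C l (zOfI C l k) (nodI C l k) (S τ ω) ≠
        nv C l (zOfI C l k) (nodI C l k) (S (τ + 1) ω))) :=
        Finset.sum_le_sum (fun τ _ => av_mono (hpt τ))
    _ = ∑ k : IdxI C l, ∑ τ ∈ Finset.range N, av (fun ω =>
        ind (nv C l (zOfI C l k) (nodI C l k) (S τ ω) ≠
        nv C l (zOfI C l k) (nodI C l k) (S (τ + 1) ω))) := by
        rw [Finset.sum_comm]
        refine Finset.sum_congr rfl (fun τ _ => ?_)
        rw [av_sum]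
    _ ≤ ∑ _k : IdxI C l, (1 + (36 * κ + 10 * ε * N)) :=
        Finset.sum_le_sum (fun k _ => hone k)
    _ = Fintype.card (IdxI C l) * (1 + (36 * κ + 10 * ε * N)) := by
        rw [Finset.sum_const, Finset.card_univ, nsmul_eq_mul]
    _ ≤ (2 * (m * 2 ^ t + 1)) * (1 + (36 * κ + 10 * ε * N)) :=
        mul_le_mul_of_nonneg_right hι' (by positivity)
    _ = _ := by ring

end Pool.Agent.NEGT
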