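import Pool.Agent.Lib.MP_0087d5_lc.NEGT.Steps
import Pool.Agent.Lib.MP_0087d5_lc.NEGT.Avg

/-!
The pairs given by the windows of the staircase, and the average over the windows.
-/

set_option autoImplicit false

namespace Pool.Agent.NEGT

open Pool.Agent.NEG Pool.Agent.NEGS
open Pool.Agent.NEGQ (Vx gmat big St wc vc lin zc Cl IsPOA)

theorem av_resample {I X Y : Type} [Fintype I] [DecidableEq I] [Fintype X] [Fintype Y]
    [Nonempty X] (F : (I → X) × Y → ℝ) (i : I) :
    av F = av (fun ω : (I → X) × Y => av (fun s : X => F (Function.update ω.1 i s, ω.2))) := by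
  rw [av_prod, av_comm, av_prod (fun ω : (I → X) × Y =>
    av (fun s : X => F (Function.update ω.1 i s, ω.2))), av_comm (fun (a : I → X) (b : Y) =>
      av (fun s : X => F (Function.update a i s, b)))]
  congr 1
  funext y
  have h := NEGQ.resample (fun r : I → X => F (r, y)) i
  have hX : (Fintype.card X : ℝ) ≠ 0 := Nat.cast_ne_zero.mpr Fintype.card_ne_zero
  unfold av
  rw [← Finset.sum_div, h]
  field_simp

variable {q K L n : ℕ} {R J G : Type} [DecidableEq R]

/-- the matrix with a given content of a window -/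
noncomputable def Mw (e : Fin n ≃ Vx q K L ⊕ R) (a : Fin K) (j : Fin L) (ω : Om q K L)
    (y : Fin q × Fin q → Bool) : Fin n × Fin n → Bool :=
  big true false e (gmat true false ((a : ℕ) + 1)
    (Function.update (wc ω.1 a ((j : ℕ) + 1)) j y) (vc ω.2.1 ω.2.2 (((a : ℕ) + 1) * q)))

/-- the embedding of a window -/
noncomputable def fw (e : Fin n ≃ Vx q K L ⊕ R) (sg : J → (Fin n × Fin n) ⊕ Bool)
    (a : Fin K) (j : Fin L) (ω : Om q K L) : J → (Fin q × Fin q) ⊕ Bool :=
  cmp sg (big (.inr true) (.inr false) e (gmat (.inr true) (.inr false) ((a : ℕ) + 1)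
    (Function.update (fun j' y => (.inr (wc ω.1 a ((j : ℕ) + 1) j' y) :
      (Fin q × Fin q) ⊕ Bool)) j (fun y => .inl y))
    (fun r' y => .inr (vc ω.2.1 ω.2.2 (((a : ℕ) + 1) * q) r' y))))

theorem pl_fw (e : Fin n ≃ Vx q K L ⊕ R) (sg : J → (Fin n × Fin n) ⊕ Bool)
    (a : Fin K) (j : Fin L) (ω : Om q K L) (y : Fin q × Fin q → Bool) :
    pl (fw e sg a j ω) y = pull sg (Mw e a j ω y) := by
  unfold fw Mw
  rw [pl_cmp, NEGQ.pl_free_window]

theorem Mw_mono (e : Fin n ≃ Vx q K L ⊕ R) (a : Fin K) (j : Fin L) (ω : Om q K L)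
    {y y' : Fin q × Fin q → Bool} (h : ∀ x, y x = true → y' x = true) (f : Fin n × Fin n)
    (hf : Mw e a j ω y f = true) : Mw e a j ω y' f = true := by
  unfold Mw at hf ⊢
  refine NEGQ.big_mono e _ _ (fun x hx => NEGQ.gmat_mono _ _ _ _ _ ?_ (fun _ _ h => h) x hx) f hf
  intro j' x hx
  by_cases hj : j' = (j : ℕ)
  · subst hj
    rw [Function.update_self] at hx ⊢
    exact h x hx
  · rw [Function.update_of_ne hj] at hx ⊢
    exact hx

theorem Mw_bpm (e : Fin n ≃ Vx q K L ⊕ R) (a : Fin K) (j : Fin L) (hj1 : K ≤ (j : ℕ))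
    (hj2 : (j : ℕ) + K < L) (ω : Om q K L) (y : Fin q × Fin q → Bool) :
    BPM n (Mw e a j ω y) ↔ BPM q y :=
  NEGQ.critical e a j a.2 hj1 hj2 ω.1 ω.2.1 ω.2.2 y

theorem Sc_window (e : Fin n ≃ Vx q K L ⊕ R) (sg : J → (Fin n × Fin n) ⊕ Bool)
    (a : Fin K) (j : Fin L) (hj1 : K ≤ (j : ℕ)) (hj2 : (j : ℕ) + K < L) (ω : Om q K L)
    (s : Equiv.Perm (Fin q)) :
    Sc e sg a j (((a : ℕ) + 1) * q) (Function.update ω.1 (a, j) s, ω.2) =
      pl (fw e sg a j ω) (xin s) := by
  rw [pl_fw]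
  unfold Sc St Mw
  rw [NEGQ.wc_update ω.1 a j hj1 hj2 s]

theorem Sc_window' (e : Fin n ≃ Vx q K L ⊕ R) (sg : J → (Fin n × Fin n) ⊕ Bool)
    (a : Fin K) (j : Fin L) (ω : Om q K L) (s : Equiv.Perm (Fin q)) :
    Sc e sg a ((j : ℕ) + 1) (((a : ℕ) + 1) * q) (Function.update ω.1 (a, j) s, ω.2) =
      pl (fw e sg a j ω) (fun _ => true) := by
  rw [pl_fw]
  unfold Sc St Mw
  rw [NEGQ.wc_update' ω.1 a j s]

open Classical in
/-- one window and one context -/
theorem local_bound {E : ℕ} {𝒜 : Set ((Fin q × Fin q → Bool) → Prop)} (hq : 0 < q)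
    (h𝒜 : IsApp E q 𝒜) [Fintype G] (C : Circuit J G) (l : Lev C)
    (hcard : Fintype.card G ≤ 2 ^ E) (vv : (J → Bool) → G → Bool)
    (hvv : ∀ x, C.Consistent x (vv x)) (f : J → (Fin q × Fin q) ⊕ Bool) :
    av (fun c : Cl q => ind (Differs C (pl f (fun _ => true)) (pl f (yin c.1)))) ≤
      2 * av (fun s : Equiv.Perm (Fin q) => ind (Moves C (pl f (xin s)) (pl f (fun _ => true))
        (vv (pl f (xin s))) (vv (pl f (fun _ => true))))) +
      2 * Fintype.card (Slot C) / 2 ^ (3 * E) := by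
  have hne := cl_nonempty hq
  have hD0 : (0 : ℝ) < Fintype.card (Cl q) := by exact_mod_cast Fintype.card_pos
  have hcl := card_cl hq
  by_cases hgood : 2 * (Finset.univ.filter (fun s : Equiv.Perm (Fin q) =>
      Moves C (pl f (xin s)) (pl f (fun _ => true))
        (vv (pl f (xin s))) (vv (pl f (fun _ => true))))).card ≤ q.factorial
  · have h1 := local_avgJ h𝒜 C l hcard vv hvv f hgood
    have h2 : (Finset.univ.filter (fun c : Cl q =>
        Differs C (pl f (fun _ => true)) (pl f (yin c.1)))).card ≤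
        (Finset.univ.filter (fun c : Fin q ⊕ Fin q → Bool =>
          vv (pl f (yin c)) C.out ≠ vv (pl f (fun _ => true)) C.out)).card := by
      apply Finset.card_le_card_of_injOn (fun c : Cl q => c.1)
      · intro c hc
        rw [Finset.mem_coe, Finset.mem_filter] at hc ⊢
        refine ⟨Finset.mem_univ _, fun heq => hc.2 (fun v w hv hw => ?_)⟩
        rw [consistent_unique C l hv (hvv _), consistent_unique C l hw (hvv _)]
        exact heq.symm
      · intro a _ c _ h
        exact Subtype.ext h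
    have h3 : 2 ^ (3 * E) * (Finset.univ.filter (fun c : Cl q =>
        Differs C (pl f (fun _ => true)) (pl f (yin c.1)))).card ≤
        Fintype.card (Slot C) * (2 * Fintype.card (Cl q)) := by
      rw [hcl]
      exact (Nat.mul_le_mul_left _ h2).trans h1
    have h4 : av (fun c : Cl q => ind (Differs C (pl f (fun _ => true)) (pl f (yin c.1)))) ≤
        2 * Fintype.card (Slot C) / 2 ^ (3 * E) := by
      rw [av_ind_card, div_le_div_iff₀ hD0 (by positivity)]
      have h5 : ((2 ^ (3 * E) * (Finset.univ.filter (fun c : Cl q =>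
        Differs C (pl f (fun _ => true)) (pl f (yin c.1)))).card : ℕ) : ℝ) ≤
        ((Fintype.card (Slot C) * (2 * Fintype.card (Cl q)) : ℕ) : ℝ) := Nat.cast_le.mpr h3
      push_cast at h5
      linarith
    have h6 : 0 ≤ av (fun s : Equiv.Perm (Fin q) => ind (Moves C (pl f (xin s))
        (pl f (fun _ => true)) (vv (pl f (xin s))) (vv (pl f (fun _ => true))))) :=
      av_nonneg (fun s => ind_nonneg _)
    linarith
  · push Not at hgood
    have h1 : av (fun c : Cl q => ind (Differs C (pl f (fun _ => true)) (pl f (yin c.1)))) ≤ 1 :=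
      av_le_one (fun c => ind_le_one _)
    have h2 : 1 ≤ 2 * av (fun s : Equiv.Perm (Fin q) => ind (Moves C (pl f (xin s))
        (pl f (fun _ => true)) (vv (pl f (xin s))) (vv (pl f (fun _ => true))))) := by
      rw [av_ind_card, Fintype.card_perm, Fintype.card_fin, mul_div_assoc', le_div_iff₀
        (by exact_mod_cast Nat.factorial_pos q), one_mul]
      exact_mod_cast hgood.le
    have h3 : (0 : ℝ) ≤ 2 * Fintype.card (Slot C) / 2 ^ (3 * E) := by positivity
    linarith

/-- the left end of a window -/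
def jw (i : Fin (L - 2 * K)) : Fin L := ⟨K + i, by omega⟩

/-- the pairs -/
abbrev PairQ (q K L : ℕ) : Type := (Fin K × Fin (L - 2 * K)) × (Om q K L × Cl q)

/-- the positive matrix of a pair -/
noncomputable def posQ (e : Fin n ≃ Vx q K L ⊕ R) (p : PairQ q K L) : Fin n × Fin n → Bool :=
  Mw e p.1.1 (jw p.1.2) p.2.1 (fun _ => true)

/-- the negative matrix of a pair -/
noncomputable def negQ (e : Fin n ≃ Vx q K L ⊕ R) (p : PairQ q K L) : Fin n × Fin n → Bool :=
  Mw e p.1.1 (jw p.1.2) p.2.1 (yin p.2.2.1)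

open Classical in
/-- **the average over the windows** -/
theorem avg_pairs {E : ℕ} {𝒜 : Set ((Fin q × Fin q → Bool) → Prop)} (hq : 0 < q)
    (h𝒜 : IsApp E q 𝒜) [Fintype G] (e : Fin n ≃ Vx q K L ⊕ R)
    (sg : J → (Fin n × Fin n) ⊕ Bool) (C : Circuit J G) (l : Lev C)
    (hcard : Fintype.card G ≤ 2 ^ E) (vv : (J → Bool) → G → Bool)
    (hvv : ∀ x, C.Consistent x (vv x)) (hK : 0 < K) (hL : 2 * K < L) (B : ℝ)
    (hB : ∑ τ ∈ Finset.range (K * ph q L), av (fun ω => ind (Moves C (chS e sg τ ω)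
      (chS e sg (τ + 1) ω) (vv (chS e sg τ ω)) (vv (chS e sg (τ + 1) ω)))) ≤ B) :
    av (fun p : PairQ q K L => ind (Differs C (pull sg (posQ e p)) (pull sg (negQ e p)))) ≤
      2 * B / (K * (L - 2 * K : ℕ)) + 2 * Fintype.card (Slot C) / 2 ^ (3 * E) := by
  have hneC := cl_nonempty hq
  have hneK : Nonempty (Fin K) := ⟨⟨0, hK⟩⟩
  have hneL : Nonempty (Fin (L - 2 * K)) := ⟨⟨0, by omega⟩⟩
  have h0 : 0 < ph q L := by unfold ph; omega
  have hP : ph q L = q + L + 1 := rfl
  let T : ℕ → ℝ := fun τ => av (fun ω => ind (Moves C (chS e sg τ ω)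
      (chS e sg (τ + 1) ω) (vv (chS e sg τ ω)) (vv (chS e sg (τ + 1) ω))))
  have hT0 : ∀ τ, 0 ≤ T τ := fun τ => av_nonneg (fun ω => ind_nonneg _)
  let g : Fin K × Fin (L - 2 * K) → ℕ := fun w => (w.1 : ℕ) * ph q L + (q + K + (w.2 : ℕ))
  have hglt : ∀ w : Fin K × Fin (L - 2 * K), q + K + (w.2 : ℕ) + 1 < ph q L := by
    intro w
    have := w.2.2
    omega
  have hginj : Function.Injective g := by
    intro w w' h
    have h1 : ∀ w : Fin K × Fin (L - 2 * K), g w / ph q L = w.1 := by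
      intro w
      change ((w.1 : ℕ) * ph q L + (q + K + (w.2 : ℕ))) / ph q L = w.1
      rw [Nat.add_comm, Nat.add_mul_div_right _ _ h0,
        Nat.div_eq_of_lt (by have := hglt w; omega), Nat.zero_add]
    have h2 : (w.1 : ℕ) = w'.1 := by rw [← h1 w, ← h1 w', h]
    have h3 : (w.2 : ℕ) = w'.2 := by
      change (w.1 : ℕ) * ph q L + (q + K + (w.2 : ℕ)) =
        (w'.1 : ℕ) * ph q L + (q + K + (w'.2 : ℕ)) at h
      rw [h2] at h
      omega
    exact Prod.ext (Fin.ext h2) (Fin.ext h3)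
  -- one window
  have hwin : ∀ w : Fin K × Fin (L - 2 * K), av (fun x : Om q K L × Cl q =>
      ind (Differs C (pull sg (posQ e (w, x))) (pull sg (negQ e (w, x))))) ≤
      2 * T (g w) + 2 * Fintype.card (Slot C) / 2 ^ (3 * E) := by
    intro w
    have hj1 : K ≤ ((jw w.2 : Fin L) : ℕ) := Nat.le_add_right _ _
    have hj2 : ((jw w.2 : Fin L) : ℕ) + K < L := by
      have := w.2.2
      change K + (w.2 : ℕ) + K < L
      omega
    rw [av_prod]
    have h1 : ∀ ω : Om q K L, av (fun c : Cl q =>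
        ind (Differs C (pull sg (posQ e (w, (ω, c)))) (pull sg (negQ e (w, (ω, c)))))) ≤
        2 * av (fun s : Equiv.Perm (Fin q) =>
          ind (Moves C (pl (fw e sg w.1 (jw w.2) ω) (xin s))
          (pl (fw e sg w.1 (jw w.2) ω) (fun _ => true))
          (vv (pl (fw e sg w.1 (jw w.2) ω) (xin s)))
          (vv (pl (fw e sg w.1 (jw w.2) ω) (fun _ => true))))) +
        2 * Fintype.card (Slot C) / 2 ^ (3 * E) := by
      intro ω
      have h2 := local_bound hq h𝒜 C l hcard vv hvv (fw e sg w.1 (jw w.2) ω)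
      simp only [pl_fw] at h2 ⊢
      exact h2
    refine (av_mono h1).trans ?_
    rw [av_add, av_mul_left, av_const]
    refine le_of_eq ?_
    congr 2
    -- the resampling of the window
    have hg1 : chS e sg (g w) = Sc e sg w.1 (jw w.2) (((w.1 : ℕ) + 1) * q) := by
      change chS e sg ((w.1 : ℕ) * ph q L + (q + K + (w.2 : ℕ))) = _
      rw [chS_eq e sg _ _ (by have := hglt w; omega)]
      have h3 : q + K + (w.2 : ℕ) - q = ((jw w.2 : Fin L) : ℕ) := by
        change q + K + (w.2 : ℕ) - q = K + w.2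
        omega
      have h4 : (w.1 : ℕ) * q + min (q + K + (w.2 : ℕ)) q = ((w.1 : ℕ) + 1) * q := by
        rw [min_eq_right (by omega)]
        ring
      rw [h3, h4]
    have hg2 : chS e sg (g w + 1) = Sc e sg w.1 (((jw w.2 : Fin L) : ℕ) + 1)
        (((w.1 : ℕ) + 1) * q) := by
      change chS e sg ((w.1 : ℕ) * ph q L + (q + K + (w.2 : ℕ)) + 1) = _
      rw [Nat.add_assoc, chS_eq e sg _ _ (hglt w)]
      have h3 : q + K + (w.2 : ℕ) + 1 - q = ((jw w.2 : Fin L) : ℕ) + 1 := by
        change q + K + (w.2 : ℕ) + 1 - q = K + w.2 + 1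
        omega
      have h4 : (w.1 : ℕ) * q + min (q + K + (w.2 : ℕ) + 1) q = ((w.1 : ℕ) + 1) * q := by
        rw [min_eq_right (by omega)]
        ring
      rw [h3, h4]
    change _ = av (fun ω => ind (Moves C (chS e sg (g w) ω)
      (chS e sg (g w + 1) ω) (vv (chS e sg (g w) ω)) (vv (chS e sg (g w + 1) ω))))
    rw [hg1, hg2, av_resample (fun ω : Om q K L => ind (Moves C
      (Sc e sg w.1 (jw w.2) (((w.1 : ℕ) + 1) * q) ω)
      (Sc e sg w.1 (((jw w.2 : Fin L) : ℕ) + 1) (((w.1 : ℕ) + 1) * q) ω)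
      (vv (Sc e sg w.1 (jw w.2) (((w.1 : ℕ) + 1) * q) ω))
      (vv (Sc e sg w.1 (((jw w.2 : Fin L) : ℕ) + 1) (((w.1 : ℕ) + 1) * q) ω))))
      (w.1, jw w.2)]
    congr 1
    funext ω
    congr 1
    funext s
    rw [Sc_window e sg w.1 (jw w.2) hj1 hj2 ω s, Sc_window' e sg w.1 (jw w.2) ω s]
  rw [av_prod]
  refine (av_mono hwin).trans ?_
  rw [av_add, av_mul_left, av_const]
  have hsum : ∑ w : Fin K × Fin (L - 2 * K), T (g w) ≤ B := by
    refine le_trans ?_ hB
    rw [← Finset.sum_image (s := (Finset.univ : Finset (Fin K × Fin (L - 2 * K)))) (g := g)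
      (f := T) (fun x _ y _ h => hginj h)]
    refine Finset.sum_le_sum_of_subset_of_nonneg ?_ (fun τ _ _ => hT0 τ)
    intro τ hτ
    obtain ⟨w, _, rfl⟩ := Finset.mem_image.mp hτ
    rw [Finset.mem_range]
    change (w.1 : ℕ) * ph q L + (q + K + (w.2 : ℕ)) < K * ph q L
    have h1 := hglt w
    have h2 : ((w.1 : ℕ) + 1) * ph q L ≤ K * ph q L := Nat.mul_le_mul_right _ w.1.2
    have h3 : ((w.1 : ℕ) + 1) * ph q L = (w.1 : ℕ) * ph q L + ph q L := by ring
    omega
  have hcardW : (Fintype.card (Fin K × Fin (L - 2 * K)) : ℝ) = K * (L - 2 * K : ℕ) := by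
    rw [Fintype.card_prod, Fintype.card_fin, Fintype.card_fin]
    push_cast
    rfl
  have hWpos : (0 : ℝ) < K * (L - 2 * K : ℕ) := by
    rw [← hcardW]
    exact_mod_cast Fintype.card_pos
  have hav : av (fun w => T (g w)) ≤ B / (K * (L - 2 * K : ℕ)) := by
    unfold av
    rw [hcardW]
    exact div_le_div_of_nonneg_right hsum hWpos.le
  have : 2 * B / (K * (L - 2 * K : ℕ)) = 2 * (B / ((K : ℝ) * (L - 2 * K : ℕ))) := by ring
  rw [this]
  linarith

end Pool.Agent.NEGT
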